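import Pool.Agent.Lib_MP_247aa4.Graph

/-!
# MP_247aa4_al: certificates, abstract form
-/

set_option autoImplicit false

namespace Pool.MP_247aa4_al

section

variable {V O : Type} [Group O]

/-- a family of relations closed under the rules -/
structure Cl (E : V → Option Ltr → O → V → Prop) (F : V → V → Prop) (v0 v0' : V) (flag : Prop)
    (R : V → Prop) (Dc : V → V → O → Prop) (H : V → Ltr → V → O → Prop) (U : V → V → Prop)
    (B : V → V → O → Prop) : Prop where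
  r0 : R v0
  r0' : R v0'
  rE : ∀ u l o v, R u → E u l o v → R v
  d0 : ∀ u, R u → Dc u u 1
  de : ∀ u v z o o', R u → E u none o v → Dc v z o' → Dc u z (o * o')
  h : ∀ u u1 x v o o', R u → R u1 → Dc u u1 o → E u1 (some x) o' v → H u x v (o * o')
  dp : ∀ u u1 u3 v x o1 o2 o4, R u → E u (some x) o1 u1 → H u1 (linv x) u3 o2 → Dc u3 v o4 →
    Dc u v (o1 * o2 * o4)
  u0 : U v0 v0'
  u1 : ∀ u u' x u2 u2' o o', U u u' → H u x u2 o → H u' x u2' o' → U u2 u2'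
  b0 : ∀ u u' f f' o o', U u u' → Dc u f o → Dc u' f' o' → F f f' → B u u' (o * o'⁻¹)
  b1 : ∀ u u' x u2 u2' o o' g, U u u' → H u x u2 o → H u' x u2' o' → B u2 u2' g →
    B u u' (o * g * o'⁻¹)
  fin : ∀ g, B v0 v0' g → flag ∧ g = 1

variable {E : V → Option Ltr → O → V → Prop} {F : V → V → Prop} {v0 v0' : V} {flag : Prop}
  {R : V → Prop} {Dc : V → V → O → Prop} {H : V → Ltr → V → O → Prop} {U : V → V → Prop}
  {B : V → V → O → Prop}

theorem Cl.dc (C : Cl E F v0 v0' flag R Dc H U B) {u v : V} {o : O} (h : D E u v o) (hu : R u) :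
    Dc u v o ∧ R v := by
  induction h with
  | refl v => exact ⟨C.d0 v hu, hu⟩
  | eps he _ ih =>
    obtain ⟨h1, h2⟩ := ih (C.rE _ _ _ _ hu he)
    exact ⟨C.de _ _ _ _ _ hu he h1, h2⟩
  | pair he _ he' _ ih ih' =>
    have hu1 := C.rE _ _ _ _ hu he
    obtain ⟨h1, h2⟩ := ih hu1
    obtain ⟨h3, h4⟩ := ih' (C.rE _ _ _ _ h2 he')
    exact ⟨C.dp _ _ _ _ _ _ _ _ hu he (C.h _ _ _ _ _ _ hu1 h2 h1 he') h3, h4⟩

theorem Cl.pr (C : Cl E F v0 v0' flag R Dc H U B) {u u' : V} {o o' : O} (h : Pr E F u u' o o')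
    (hu : R u) (hu' : R u') (hU : U u u') : B u u' (o * o'⁻¹) := by
  induction h with
  | base hd hd' hF => exact C.b0 _ _ _ _ _ _ hU (C.dc hd hu).1 (C.dc hd' hu').1 hF
  | @step u u1 u2 u' u1' u2' x o1 o2 o3 o1' o2' o3' hd he hd' he' _ ih =>
    obtain ⟨h1, h2⟩ := C.dc hd hu
    obtain ⟨h1', h2'⟩ := C.dc hd' hu'
    have hH := C.h _ _ _ _ _ _ hu h2 h1 he
    have hH' := C.h _ _ _ _ _ _ hu' h2' h1' he'
    have h3 := ih (C.rE _ _ _ _ h2 he) (C.rE _ _ _ _ h2' he') (C.u1 _ _ _ _ _ _ _ hU hH hH')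
    have h4 := C.b1 _ _ _ _ _ _ _ _ hU hH hH' h3
    have h5 : o1 * o2 * o3 * (o1' * o2' * o3')⁻¹ = o1 * o2 * (o3 * o3'⁻¹) * (o1' * o2')⁻¹ := by
      group
    rw [h5]
    exact h4

/-- soundness -/
theorem Cl.sound (C : Cl E F v0 v0' flag R Dc H U B) {o o' : O} (h : Pr E F v0 v0' o o') :
    flag ∧ o = o' := by
  obtain ⟨h1, h2⟩ := C.fin _ (C.pr h C.r0 C.r0' C.u0)
  exact ⟨h1, mul_inv_eq_one.1 h2⟩

variable (E F v0 v0')

/-- reachable vertices -/
inductive Rch : V → Prop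
  | base : Rch v0
  | base' : Rch v0'
  | step {u v : V} {l : Option Ltr} {o : O} : Rch u → E u l o v → Rch v

/-- the canonical relations -/
def cD (u v : V) (o : O) : Prop := Rch E v0 v0' u ∧ D E u v o

def cH (u : V) (x : Ltr) (v : V) (o : O) : Prop :=
  Rch E v0 v0' u ∧ ∃ u1 o1 o2, D E u u1 o1 ∧ E u1 (some x) o2 v ∧ o = o1 * o2

def cU (u u' : V) : Prop := ∃ o o', Pre E v0 v0' u u' o o'

def cB (u u' : V) (g : O) : Prop := cU E v0 v0' u u' ∧ ∃ o o', Pr E F u u' o o' ∧ g = o * o'⁻¹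

variable {E F v0 v0'}

theorem Rch.path {u v : V} {L : List Ltr} {o : O} (h : Rch E v0 v0' u) (h' : Path E u L o v) :
    Rch E v0 v0' v := by
  induction h' with
  | nil v => exact h
  | eps he _ ih => exact ih (Rch.step h he)
  | letter he _ ih => exact ih (Rch.step h he)

/-- the canonical relations are closed under the rules -/
theorem cl_canonical (hK : ∀ o o', Pr E F v0 v0' o o' → flag ∧ o = o') :
    Cl E F v0 v0' flag (Rch E v0 v0') (cD E v0 v0') (cH E v0 v0') (cU E v0 v0')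
      (cB E F v0 v0') where
  r0 := Rch.base
  r0' := Rch.base'
  rE := fun u l o v hu he => Rch.step hu he
  d0 := fun u hu => ⟨hu, D.refl u⟩
  de := fun u v z o o' hu he hd => ⟨hu, D.eps he hd.2⟩
  h := fun u u1 x v o o' hu _ hd he => ⟨hu, u1, o, o', hd.2, he, rfl⟩
  dp := by
    rintro u u1 u3 v x o1 o2 o4 hu he ⟨_, u2, p, q, hd, he', rfl⟩ hd'
    exact ⟨hu, D.pair he hd he' hd'.2⟩
  u0 := ⟨1, 1, Pre.base⟩
  u1 := by
    rintro u u' x u2 u2' o o' ⟨a, a', hP⟩ ⟨_, u1, p, q, hd, he, rfl⟩ ⟨_, u1', p', q', hd', he', rfl⟩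
    exact ⟨_, _, Pre.step hP hd he hd' he'⟩
  b0 := by
    rintro u u' f f' o o' hU ⟨_, hd⟩ ⟨_, hd'⟩ hF
    exact ⟨hU, _, _, Pr.base hd hd' hF, rfl⟩
  b1 := by
    rintro u u' x u2 u2' o o' g hU ⟨_, u1, p, q, hd, he, rfl⟩ ⟨_, u1', p', q', hd', he', rfl⟩
      ⟨_, a, a', hP, rfl⟩
    refine ⟨hU, _, _, Pr.step hd he hd' he' hP, ?_⟩
    group
  fin := by
    rintro g ⟨_, a, a', hP, rfl⟩
    obtain ⟨h1, h2⟩ := hK _ _ hP
    exact ⟨h1, mul_inv_eq_one.2 h2⟩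

/-- values are forced: `D` -/
theorem cD_unique (hK : ∀ f L L' o o', F f f → Path E v0 L o f → Path E v0 L' o' f →
      FreeGroup.mk L = FreeGroup.mk L' → o = o') {u v f : V} {L M : List Ltr} {a b o o' : O}
    (h1 : Path E v0 L a u) (h2 : Path E v M b f) (hF : F f f)
    (h : D E u v o) (h' : D E u v o') : o = o' := by
  obtain ⟨N, hN, hN1⟩ := h.path
  obtain ⟨N', hN', hN1'⟩ := h'.path
  have h3 := hK f (L ++ (N ++ M)) (L ++ (N' ++ M)) _ _ hF (h1.append (hN.append h2))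
    (h1.append (hN'.append h2)) (by
      rw [← FreeGroup.mul_mk, ← FreeGroup.mul_mk, ← FreeGroup.mul_mk, ← FreeGroup.mul_mk, hN1,
        hN1'])
  exact mul_right_cancel (mul_left_cancel h3)

/-- values are forced: `B` -/
theorem cB_unique (hK : ∀ f f' L L' o o', F f f' → Path E v0 L o f → Path E v0' L' o' f' →
      FreeGroup.mk L = FreeGroup.mk L' → o = o') {u u' : V} {g g' : O}
    (h : cB E F v0 v0' u u' g) (h' : cB E F v0 v0' u u' g') : g = g' := by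
  obtain ⟨⟨p, p', hP⟩, a, a', hPr, rfl⟩ := h
  obtain ⟨_, b, b', hPr', rfl⟩ := h'
  obtain ⟨L, L', hL, hL', hLL⟩ := hP.path
  obtain ⟨f, f', M, M', hM, hM', hMM, hF⟩ := hPr.path
  obtain ⟨k, k', N, N', hN, hN', hNN, hF'⟩ := hPr'.path
  have h1 := hK f f' _ _ _ _ hF (hL.append hM) (hL'.append hM') (by
    rw [← FreeGroup.mul_mk, ← FreeGroup.mul_mk, hLL, hMM])
  have h2 := hK k k' _ _ _ _ hF' (hL.append hN) (hL'.append hN') (by
    rw [← FreeGroup.mul_mk, ← FreeGroup.mul_mk, hLL, hNN])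
  have h3 : a * a'⁻¹ = p⁻¹ * p' := by
    rw [mul_inv_eq_iff_eq_mul, mul_assoc, ← h1, inv_mul_cancel_left]
  have h4 : b * b'⁻¹ = p⁻¹ * p' := by
    rw [mul_inv_eq_iff_eq_mul, mul_assoc, ← h2, inv_mul_cancel_left]
  rw [h3, h4]

end

end Pool.MP_247aa4_al
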