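import Pool.Agent.Lib_MP_247aa4.Trans
import Pool.Agent.Lib_MP_247aa4.Cert

/-!
# MP_247aa4_al: automata with outputs and their graphs
-/

set_option autoImplicit false

namespace Pool.MP_247aa4_al

/-- a transition: state, input word, output word, next state -/
abbrev Tr (n : ℕ) := ℕ × Word n × Word n × ℕ

section

variable {G : Type} [Group G] {n : ℕ} (g : Fin n → G) (T : List (Tr n))

/-- runs of the automaton: the input word is concatenated, the output multiplied -/
inductive RunW : ℕ → Word n → G → ℕ → Prop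
  | nil (q : ℕ) : RunW q [] 1 q
  | cons {q q1 q2 : ℕ} {w t W : Word n} {o : G} : (q, w, t, q1) ∈ T → RunW q1 W o q2 →
      RunW q (w ++ W) (ev g t * o) q2

/-- states of the graph: pending output letters, input letters still to be read, state of the
transducer, state of the automaton -/
abbrev Vx (τ : Tdc n) := List Ltr × Word n × Fin τ.m × ℕ

variable (τ : Tdc n)

/-- the graph -/
inductive Ed : Vx τ → Option Ltr → G → Vx τ → Prop
  | pop (x : Ltr) (k : List Ltr) (l : Word n) (c : Fin τ.m) (q : ℕ) :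
      Ed (x :: k, l, c, q) (some x) 1 (k, l, c, q)
  | read (a : Fin n × Bool) (l : Word n) (c : Fin τ.m) (q : ℕ) :
      Ed ([], a :: l, c, q) none 1 (τ.out c a, l, τ.act c a, q)
  | trans (q q1 : ℕ) (w t : Word n) (c : Fin τ.m) : (q, w, t, q1) ∈ T →
      Ed ([], [], c, q) none (ev g t) ([], w, c, q1)

variable {g T τ}

theorem path_pops (k k' : List Ltr) (l : Word n) (c : Fin τ.m) (q : ℕ) :
    Path (Ed g T τ) (k ++ k', l, c, q) k 1 (k', l, c, q) := by
  induction k with
  | nil => exact Path.nil _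
  | cons x k ih =>
    have := Path.letter (Ed.pop (g := g) (T := T) (τ := τ) x (k ++ k') l c q) ih
    rwa [mul_one] at this

theorem path_reads (l l' : Word n) (c : Fin τ.m) (q : ℕ) :
    Path (Ed g T τ) ([], l ++ l', c, q) (τ.outl c l) 1 ([], l', τ.run c l, q) := by
  induction l generalizing c with
  | nil => exact Path.nil _
  | cons a l ih =>
    have h1 := path_pops (g := g) (T := T) (τ := τ) (τ.out c a) [] (l ++ l') (τ.act c a) q
    rw [List.append_nil] at h1
    have h2 := Path.eps (Ed.read (g := g) (T := T) (τ := τ) a (l ++ l') c q) (h1.append (ih _))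
    rw [mul_one, mul_one] at h2
    exact h2

theorem path_of_run {q q' : ℕ} {W : Word n} {o : G} (h : RunW g T q W o q') (c : Fin τ.m) :
    Path (Ed g T τ) ([], [], c, q) (τ.outl c W) o ([], [], τ.run c W, q') := by
  induction h generalizing c with
  | nil q => exact Path.nil _
  | @cons q q1 q2 w t W o ht _ ih =>
    have h1 := path_reads (g := g) (T := T) (τ := τ) w [] c q1
    rw [List.append_nil] at h1
    have h2 := Path.eps (Ed.trans (g := g) (τ := τ) q q1 w t c ht) (h1.append (ih _))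
    rw [one_mul] at h2
    rw [τ.outl_append, τ.run_append]
    exact h2

theorem run_of_path {v f : Vx τ} {L : List Ltr} {o : G} (h : Path (Ed g T τ) v L o f)
    {c' : Fin τ.m} {q' : ℕ} (hf : f = ([], [], c', q')) :
    ∃ W, RunW g T v.2.2.2 W o q' ∧ c' = τ.run v.2.2.1 (v.2.1 ++ W) ∧
      L = v.1 ++ τ.outl v.2.2.1 (v.2.1 ++ W) := by
  induction h with
  | nil v =>
    subst hf
    exact ⟨[], RunW.nil _, rfl, rfl⟩
  | eps he _ ih =>
    obtain ⟨W, h1, h2, h3⟩ := ih hf
    cases he with
    | read a l c q =>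
      refine ⟨W, ?_, h2, ?_⟩
      · rw [one_mul]; exact h1
      · exact h3
    | trans q q1 w t c ht =>
      exact ⟨w ++ W, RunW.cons ht h1, h2, h3⟩
  | letter he _ ih =>
    obtain ⟨W, h1, h2, h3⟩ := ih hf
    cases he with
    | pop x k l c q =>
      refine ⟨W, ?_, h2, ?_⟩
      · rw [one_mul]; exact h1
      · rw [h3]; rfl

/-- final pairs of vertices -/
def Fn (τ : Tdc n) (qf qf' : ℕ) (f f' : Vx τ) : Prop :=
  ∃ c, f = ([], [], c, qf) ∧ f' = ([], [], c, qf')

/-- the property of an automaton which is decided by the certificates: two runs with the same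
value have the same output, and there are none if `flag` is false -/
def OK (g : Fin n → G) (T : List (Tr n)) (q0 q0' qf qf' : ℕ) (flag : Prop) : Prop :=
  ∀ W W' o o', RunW g T q0 W o qf → RunW g T q0' W' o' qf' → ev g W = ev g W' → flag ∧ o = o'

theorem paths_of_ok (hτ : τ.Spec g) {q0 q0' qf qf' : ℕ} {flag : Prop}
    (h : OK g T q0 q0' qf qf' flag) {f f' : Vx τ} {L L' : List Ltr} {o o' : G}
    (hF : Fn τ qf qf' f f') (h1 : Path (Ed g T τ) ([], [], τ.c0, q0) L o f)
    (h2 : Path (Ed g T τ) ([], [], τ.c0, q0') L' o' f') (hL : FreeGroup.mk L = FreeGroup.mk L') :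
    flag ∧ o = o' := by
  obtain ⟨c, hf, hf'⟩ := hF
  obtain ⟨W, hW, hc, hLW⟩ := run_of_path h1 hf
  obtain ⟨W', hW', hc', hLW'⟩ := run_of_path h2 hf'
  refine h W W' o o' hW hW' ((hτ W W').2 ⟨?_, ?_⟩)
  · exact hc.symm.trans hc'
  · have h3 : L = τ.outl τ.c0 W := hLW
    have h4 : L' = τ.outl τ.c0 W' := hLW'
    rw [← h3, ← h4, hL]

theorem pr_of_ok (hτ : τ.Spec g) {q0 q0' qf qf' : ℕ} {flag : Prop}
    (h : OK g T q0 q0' qf qf' flag) {o o' : G}
    (hP : Pr (Ed g T τ) (Fn τ qf qf') ([], [], τ.c0, q0) ([], [], τ.c0, q0') o o') :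
    flag ∧ o = o' := by
  obtain ⟨f, f', L, L', h1, h2, hL, hF⟩ := hP.path
  exact paths_of_ok hτ h hF h1 h2 hL

theorem ok_of_pr (hτ : τ.Spec g) {q0 q0' qf qf' : ℕ} {flag : Prop}
    (h : ∀ o o', Pr (Ed g T τ) (Fn τ qf qf') ([], [], τ.c0, q0) ([], [], τ.c0, q0') o o' →
      flag ∧ o = o') : OK g T q0 q0' qf qf' flag := by
  intro W W' o o' hW hW' hev
  obtain ⟨h1, h2⟩ := (hτ W W').1 hev
  have h3 := path_of_run hW τ.c0
  have h4 := path_of_run hW' τ.c0
  exact h o o' (Pr.of_path h3 h4 h2 ⟨τ.run τ.c0 W, rfl, by rw [h1]⟩)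

end

end Pool.MP_247aa4_al
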