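import Pool.Agent.Lib_MP_247aa4.Auto

/-!
# MP_247aa4_al: certificates, concrete form, and soundness
-/

set_option autoImplicit false

namespace Pool.MP_247aa4_al

section

variable {G : Type} [Group G] {n : ℕ}

/-- automaton, initial states, final states, flag -/
abbrev Inp (n : ℕ) := List (Tr n) × (ℕ × ℕ) × (ℕ × ℕ) × Bool

/-- edge: source, label, output, target -/
abbrev EdL (τ : Tdc n) := Vx τ × Option Ltr × Word n × Vx τ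

/-- the edges from a vertex -/
def succ (τ : Tdc n) (T : List (Tr n)) (v : Vx τ) : List (EdL τ) :=
  match v with
  | (x :: k, l, c, q) => [((x :: k, l, c, q), some x, [], (k, l, c, q))]
  | ([], a :: l, c, q) => [(([], a :: l, c, q), none, [], (τ.out c a, l, τ.act c a, q))]
  | ([], [], c, q) => T.flatMap fun t => if t.1 = q then
      [(([], [], c, q), none, t.2.2.1, ([], t.2.1, c, t.2.2.2))] else []

theorem succ_spec (g : Fin n → G) (τ : Tdc n) (T : List (Tr n)) (v : Vx τ) (l : Option Ltr) (o : G)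
    (v' : Vx τ) : Ed g T τ v l o v' ↔ ∃ w, (v, l, w, v') ∈ succ τ T v ∧ ev g w = o := by
  constructor
  · intro h
    cases h with
    | pop x k l c q => exact ⟨[], by simp [succ], rfl⟩
    | read a l c q => exact ⟨[], by simp [succ], rfl⟩
    | trans q q1 w t c ht =>
      refine ⟨t, ?_, rfl⟩
      unfold succ
      rw [List.mem_flatMap]
      exact ⟨_, ht, by simp⟩
  · rintro ⟨w, h, rfl⟩
    rcases v with ⟨k, l', c, q⟩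
    cases k with
    | cons x k =>
      simp only [succ, List.mem_singleton, Prod.mk.injEq] at h
      obtain ⟨_, rfl, rfl, rfl⟩ := h
      exact Ed.pop x k l' c q
    | nil =>
      cases l' with
      | cons a l' =>
        simp only [succ, List.mem_singleton, Prod.mk.injEq] at h
        obtain ⟨_, rfl, rfl, rfl⟩ := h
        exact Ed.read a l' c q
      | nil =>
        unfold succ at h
        rw [List.mem_flatMap] at h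
        obtain ⟨⟨q', w', t, q1⟩, ht, h⟩ := h
        simp only at h
        split_ifs at h with hq
        · subst hq
          simp only [List.mem_singleton, Prod.mk.injEq] at h
          obtain ⟨_, rfl, rfl, rfl⟩ := h
          exact Ed.trans q' q1 w' w c ht
        · exact absurd h List.not_mem_nil

theorem succ_src (τ : Tdc n) (T : List (Tr n)) (v : Vx τ) (e : EdL τ) (h : e ∈ succ τ T v) :
    e.1 = v := by
  rcases v with ⟨k, l', c, q⟩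
  cases k with
  | cons x k =>
    simp only [succ, List.mem_singleton] at h
    rw [h]
  | nil =>
    cases l' with
    | cons a l' =>
      simp only [succ, List.mem_singleton] at h
      rw [h]
    | nil =>
      unfold succ at h
      rw [List.mem_flatMap] at h
      obtain ⟨t, _, h⟩ := h
      split_ifs at h with hq
      · rw [List.mem_singleton] at h
        rw [h]
      · exact absurd h List.not_mem_nil

/-- certificates -/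
abbrev Cert (τ : Tdc n) := List (Vx τ) × List (Vx τ × Vx τ × Word n) ×
  List (Vx τ × Ltr × Vx τ × Word n) × List (Vx τ × Vx τ) × List ((Vx τ × Vx τ) × Word n)

/-- all edges from the vertices of a list -/
def edges (τ : Tdc n) (T : List (Tr n)) (R : List (Vx τ)) : List (EdL τ) := R.flatMap (succ τ T)

/-- the initial vertices -/
def ini (τ : Tdc n) (q : ℕ) : Vx τ := ([], [], τ.c0, q)

variable (g : Fin n → G) (τ : Tdc n)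

def Chk1 (x : Inp n × Cert τ) : Prop :=
  ini τ x.1.2.1.1 ∈ x.2.1 ∧ ini τ x.1.2.1.2 ∈ x.2.1 ∧
    (ini τ x.1.2.1.1, ini τ x.1.2.1.2) ∈ x.2.2.2.2.1

def Chk2 (x : Inp n × Cert τ) : Prop :=
  ∀ e ∈ edges τ x.1.1 x.2.1, e.2.2.2 ∈ x.2.1

def Chk3 (x : Inp n × Cert τ) : Prop :=
  ∀ u ∈ x.2.1, ∃ d ∈ x.2.2.1, d.1 = u ∧ d.2.1 = u ∧ ev g d.2.2 = ev g []

def Chk4 (x : Inp n × Cert τ) : Prop :=
  ∀ e ∈ edges τ x.1.1 x.2.1, ∀ d ∈ x.2.2.1, (e.2.1 = none ∧ d.1 = e.2.2.2) →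
    ∃ d' ∈ x.2.2.1, d'.1 = e.1 ∧ d'.2.1 = d.2.1 ∧ ev g d'.2.2 = ev g (e.2.2.1 ++ d.2.2)

def Chk5 (x : Inp n × Cert τ) : Prop :=
  ∀ d ∈ x.2.2.1, ∀ e ∈ edges τ x.1.1 x.2.1, (e.1 = d.2.1 ∧ ¬ e.2.1 = none) →
    ∃ h ∈ x.2.2.2.1, h.1 = d.1 ∧ some h.2.1 = e.2.1 ∧ h.2.2.1 = e.2.2.2 ∧
      ev g h.2.2.2 = ev g (d.2.2 ++ e.2.2.1)

def Chk6 (x : Inp n × Cert τ) : Prop :=
  ∀ e ∈ edges τ x.1.1 x.2.1, ∀ h ∈ x.2.2.2.1, ∀ d ∈ x.2.2.1,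
    (h.1 = e.2.2.2 ∧ e.2.1 = some (linv h.2.1) ∧ d.1 = h.2.2.1) →
    ∃ d' ∈ x.2.2.1, d'.1 = e.1 ∧ d'.2.1 = d.2.1 ∧
      ev g d'.2.2 = ev g (e.2.2.1 ++ h.2.2.2 ++ d.2.2)

def Chk7 (x : Inp n × Cert τ) : Prop :=
  ∀ p ∈ x.2.2.2.2.1, ∀ h ∈ x.2.2.2.1, ∀ h' ∈ x.2.2.2.1,
    (h.1 = p.1 ∧ h'.1 = p.2 ∧ h'.2.1 = h.2.1) → (h.2.2.1, h'.2.2.1) ∈ x.2.2.2.2.1

/-- final pair -/
def FnB (τ : Tdc n) (qf qf' : ℕ) (f f' : Vx τ) : Prop :=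
  f.1 = [] ∧ f.2.1 = [] ∧ f.2.2.2 = qf ∧ f' = ([], [], f.2.2.1, qf')

def Chk8 (x : Inp n × Cert τ) : Prop :=
  ∀ p ∈ x.2.2.2.2.1, ∀ d ∈ x.2.2.1, ∀ d' ∈ x.2.2.1,
    (d.1 = p.1 ∧ d'.1 = p.2 ∧ FnB τ x.1.2.2.1.1 x.1.2.2.1.2 d.2.1 d'.2.1) →
    ∃ b ∈ x.2.2.2.2.2, b.1 = p ∧ ev g b.2 = ev g (d.2.2 ++ invW d'.2.2)

def Chk9 (x : Inp n × Cert τ) : Prop :=
  ∀ p ∈ x.2.2.2.2.1, ∀ h ∈ x.2.2.2.1, ∀ h' ∈ x.2.2.2.1, ∀ b ∈ x.2.2.2.2.2,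
    (h.1 = p.1 ∧ h'.1 = p.2 ∧ h'.2.1 = h.2.1 ∧ b.1 = (h.2.2.1, h'.2.2.1)) →
    ∃ b' ∈ x.2.2.2.2.2, b'.1 = p ∧ ev g b'.2 = ev g (h.2.2.2 ++ b.2 ++ invW h'.2.2.2)

def Chk10 (x : Inp n × Cert τ) : Prop :=
  ∀ b ∈ x.2.2.2.2.2, b.1 = (ini τ x.1.2.1.1, ini τ x.1.2.1.2) →
    (x.1.2.2.2 = true ∧ ev g b.2 = ev g [])

/-- the certificate `x.2` is correct for the input `x.1` -/
def Chk (x : Inp n × Cert τ) : Prop :=
  Chk1 τ x ∧ Chk2 τ x ∧ Chk3 g τ x ∧ Chk4 g τ x ∧ Chk5 g τ x ∧ Chk6 g τ x ∧ Chk7 τ x ∧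
    Chk8 g τ x ∧ Chk9 g τ x ∧ Chk10 g τ x

variable {g τ}

theorem fnB_iff (qf qf' : ℕ) (f f' : Vx τ) : FnB τ qf qf' f f' ↔ Fn τ qf qf' f f' := by
  constructor
  · rintro ⟨h1, h2, h3, h4⟩
    exact ⟨f.2.2.1, by rw [← h1, ← h2, ← h3], h4⟩
  · rintro ⟨c, rfl, rfl⟩
    exact ⟨rfl, rfl, rfl, rfl⟩

theorem mem_edges (T : List (Tr n)) (R : List (Vx τ)) (v v' : Vx τ) (l : Option Ltr) (o : G)
    (hv : v ∈ R) (h : Ed g T τ v l o v') : ∃ w, (v, l, w, v') ∈ edges τ T R ∧ ev g w = o := by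
  obtain ⟨w, hw, h1⟩ := (succ_spec g τ T v l o v').1 h
  exact ⟨w, List.mem_flatMap.2 ⟨v, hv, hw⟩, h1⟩

theorem of_mem_edges (T : List (Tr n)) (R : List (Vx τ)) (e : EdL τ) (h : e ∈ edges τ T R) :
    e.1 ∈ R ∧ Ed g T τ e.1 e.2.1 (ev g e.2.2.1) e.2.2.2 := by
  obtain ⟨v, hv, he⟩ := List.mem_flatMap.1 h
  have h1 := succ_src τ T v e he
  refine ⟨h1 ▸ hv, (succ_spec g τ T _ _ _ _).2 ⟨e.2.2.1, ?_, rfl⟩⟩
  rw [h1]
  rw [← h1] at he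
  rw [← h1]
  exact he

/-- a correct certificate gives relations closed under the rules -/
theorem cl_of_chk (x : Inp n × Cert τ) (hx : Chk g τ x) :
    Cl (Ed g x.1.1 τ) (Fn τ x.1.2.2.1.1 x.1.2.2.1.2) (ini τ x.1.2.1.1) (ini τ x.1.2.1.2)
      (x.1.2.2.2 = true) (fun u => u ∈ x.2.1)
      (fun u v o => ∃ w, (u, v, w) ∈ x.2.2.1 ∧ ev g w = o)
      (fun u y v o => ∃ w, (u, y, v, w) ∈ x.2.2.2.1 ∧ ev g w = o)
      (fun u u' => (u, u') ∈ x.2.2.2.2.1)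
      (fun u u' o => ∃ w, ((u, u'), w) ∈ x.2.2.2.2.2 ∧ ev g w = o) := by
  obtain ⟨⟨h1, h1', h1''⟩, h2, h3, h4, h5, h6, h7, h8, h9, h10⟩ := hx
  refine ⟨h1, h1', ?_, ?_, ?_, ?_, ?_, h1'', ?_, ?_, ?_, ?_⟩
  · intro u l o v hu he
    obtain ⟨w, hw, _⟩ := mem_edges x.1.1 x.2.1 u v l o hu he
    exact h2 _ hw
  · intro u hu
    obtain ⟨d, hd, h, h', h''⟩ := h3 u hu
    refine ⟨d.2.2, ?_, h''⟩
    rw [← h']
    nth_rw 1 [h', ← h]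
    exact hd
  · rintro u v z o o' hu he ⟨w, hw, rfl⟩
    obtain ⟨w', hw', rfl⟩ := mem_edges x.1.1 x.2.1 u v none o hu he
    obtain ⟨d, hd, h, h', h''⟩ := h4 _ hw' _ hw ⟨rfl, rfl⟩
    refine ⟨d.2.2, ?_, by rw [h'', ev_append]⟩
    simp only at h h'
    rw [← h, ← h']
    exact hd
  · rintro u u1 y v o o' hu hu1 ⟨w, hw, rfl⟩ he
    obtain ⟨w', hw', rfl⟩ := mem_edges x.1.1 x.2.1 u1 v (some y) o' hu1 he
    obtain ⟨d, hd, h, h', h'', h'''⟩ := h5 _ hw _ hw' ⟨rfl, by simp⟩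
    refine ⟨d.2.2.2, ?_, by rw [h''', ev_append]⟩
    simp only at h h' h''
    have h4 := Option.some.inj h'
    rw [← h, ← h4, ← h'']
    exact hd
  · rintro u u1 u3 v y o1 o2 o4 hu he ⟨w2, hw2, rfl⟩ ⟨w4, hw4, rfl⟩
    obtain ⟨w1, hw1, rfl⟩ := mem_edges x.1.1 x.2.1 u u1 (some y) o1 hu he
    obtain ⟨d, hd, h, h', h''⟩ := h6 _ hw1 _ hw2 _ hw4 ⟨rfl, by simp only; rw [linv_linv], rfl⟩
    refine ⟨d.2.2, ?_, by rw [h'', ev_append, ev_append]⟩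
    simp only at h h'
    rw [← h, ← h']
    exact hd
  · rintro u u' y u2 u2' o o' hU ⟨w, hw, rfl⟩ ⟨w', hw', rfl⟩
    exact h7 _ hU _ hw _ hw' ⟨rfl, rfl, rfl⟩
  · rintro u u' f f' o o' hU ⟨w, hw, rfl⟩ ⟨w', hw', rfl⟩ hF
    obtain ⟨b, hb, h, h'⟩ := h8 _ hU _ hw _ hw' ⟨rfl, rfl, (fnB_iff _ _ _ _).2 hF⟩
    refine ⟨b.2, ?_, by rw [h', ev_append, ev_invW]⟩
    rw [← h]
    exact hb
  · rintro u u' y u2 u2' o o' k hU ⟨w, hw, rfl⟩ ⟨w', hw', rfl⟩ ⟨w'', hw'', rfl⟩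
    obtain ⟨b, hb, h, h'⟩ := h9 _ hU _ hw _ hw' _ hw'' ⟨rfl, rfl, rfl, rfl⟩
    refine ⟨b.2, ?_, by rw [h', ev_append, ev_append, ev_invW]⟩
    rw [← h]
    exact hb
  · rintro k ⟨w, hw, rfl⟩
    exact h10 _ hw rfl

/-- soundness -/
theorem ok_of_chk (hτ : τ.Spec g) (x : Inp n × Cert τ) (hx : Chk g τ x) :
    OK g x.1.1 x.1.2.1.1 x.1.2.1.2 x.1.2.2.1.1 x.1.2.2.1.2 (x.1.2.2.2 = true) :=
  ok_of_pr hτ fun _ _ h => (cl_of_chk x hx).sound h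

end

end Pool.MP_247aa4_al
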