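import Pool.Agent.Lib_MP_247aa4.Chk

/-!
# MP_247aa4_al: completeness of the certificates
-/

set_option autoImplicit false

namespace Pool.MP_247aa4_al

section

variable {G : Type} [Group G] {n : ℕ} {g : Fin n → G} {τ : Tdc n} {T : List (Tr n)}

private theorem suffix_finite {α : Type} (l : List α) : {k : List α | k <:+ l}.Finite := by
  have h : {k : List α | k <:+ l} = {k | k ∈ l.tails} := by
    ext k
    exact (List.mem_tails _ _).symm
  rw [h]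
  exact List.finite_toSet _

/-- finite set which contains the reachable vertices -/
private def VS (τ : Tdc n) (T : List (Tr n)) (q0 q0' : ℕ) : Set (Vx τ) :=
  {k | k = [] ∨ ∃ x : Fin τ.m × (Fin n × Bool), k <:+ τ.out x.1 x.2} ×ˢ
    ({l | l = [] ∨ ∃ t ∈ T, l <:+ t.2.1} ×ˢ
      (Set.univ ×ˢ {q | q = q0 ∨ q = q0' ∨ ∃ t ∈ T, q = t.2.2.2}))

private theorem VS_finite (q0 q0' : ℕ) : (VS τ T q0 q0').Finite := by
  have h1 : {k | k = [] ∨ ∃ x : Fin τ.m × (Fin n × Bool), k <:+ τ.out x.1 x.2}.Finite := by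
    have h : {k | k = [] ∨ ∃ x : Fin τ.m × (Fin n × Bool), k <:+ τ.out x.1 x.2} =
        {[]} ∪ ⋃ x : Fin τ.m × (Fin n × Bool), {k | k <:+ τ.out x.1 x.2} := by
      ext k
      simp
    rw [h]
    exact (Set.finite_singleton _).union (Set.finite_iUnion fun x => suffix_finite _)
  have h2 : {l : Word n | l = [] ∨ ∃ t ∈ T, l <:+ t.2.1}.Finite := by
    have h : {l : Word n | l = [] ∨ ∃ t ∈ T, l <:+ t.2.1} =
        {[]} ∪ ⋃ t ∈ {t | t ∈ T}, {k | k <:+ t.2.1} := by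
      ext k
      simp
    rw [h]
    exact (Set.finite_singleton _).union ((List.finite_toSet T).biUnion fun t _ => suffix_finite _)
  have h3 : {q | q = q0 ∨ q = q0' ∨ ∃ t ∈ T, q = t.2.2.2}.Finite := by
    have h : {q | q = q0 ∨ q = q0' ∨ ∃ t ∈ T, q = t.2.2.2} =
        {q0} ∪ ({q0'} ∪ (fun t : Tr n => t.2.2.2) '' {t | t ∈ T}) := by
      ext k
      simp only [Set.mem_union, Set.mem_singleton_iff, Set.mem_image, Set.mem_ofPred_eq]
      constructor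
      · rintro (h | h | ⟨t, ht, h⟩)
        · exact Or.inl h
        · exact Or.inr (Or.inl h)
        · exact Or.inr (Or.inr ⟨t, ht, h.symm⟩)
      · rintro (h | h | ⟨t, ht, h⟩)
        · exact Or.inl h
        · exact Or.inr (Or.inl h)
        · exact Or.inr (Or.inr ⟨t, ht, h.symm⟩)
    rw [h]
    exact (Set.finite_singleton _).union
      ((Set.finite_singleton _).union ((List.finite_toSet T).image _))
  exact h1.prod (h2.prod (Set.finite_univ.prod h3))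

private theorem suffix_cons {α : Type} {a : α} {k l : List α} (h : a :: k <:+ l) : k <:+ l :=
  (List.suffix_cons a k).trans h

theorem rch_finite (q0 q0' : ℕ) : {v | Rch (Ed g T τ) (ini τ q0) (ini τ q0') v}.Finite := by
  refine (VS_finite (τ := τ) (T := T) q0 q0').subset ?_
  intro v hv
  have hv' : Rch (Ed g T τ) (ini τ q0) (ini τ q0') v := hv
  clear hv
  induction hv' with
  | base => exact ⟨Or.inl rfl, Or.inl rfl, Set.mem_univ _, Or.inl rfl⟩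
  | base' => exact ⟨Or.inl rfl, Or.inl rfl, Set.mem_univ _, Or.inr (Or.inl rfl)⟩
  | step _ he ih =>
    cases he with
    | pop x k l c q =>
      obtain ⟨h1, h2, h3, h4⟩ := ih
      refine ⟨?_, h2, h3, h4⟩
      rcases h1 with h1 | ⟨y, hy⟩
      · simp at h1
      · exact Or.inr ⟨y, suffix_cons hy⟩
    | read a l c q =>
      obtain ⟨h1, h2, h3, h4⟩ := ih
      refine ⟨Or.inr ⟨(c, a), List.suffix_refl _⟩, ?_, Set.mem_univ _, h4⟩
      rcases h2 with h2 | ⟨t, ht, h2⟩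
      · simp at h2
      · exact Or.inr ⟨t, ht, suffix_cons h2⟩
    | trans q q1 w t c ht =>
      obtain ⟨h1, h2, h3, h4⟩ := ih
      exact ⟨Or.inl rfl, Or.inr ⟨_, ht, List.suffix_refl _⟩, Set.mem_univ _,
        Or.inr (Or.inr ⟨_, ht, rfl⟩)⟩

theorem D.rch {q0 q0' : ℕ} {u v : Vx τ} {o : G} (h : D (Ed g T τ) u v o)
    (hu : Rch (Ed g T τ) (ini τ q0) (ini τ q0') u) : Rch (Ed g T τ) (ini τ q0) (ini τ q0') v := by
  obtain ⟨L, hL, _⟩ := h.path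
  exact hu.path hL

theorem pre_rch {q0 q0' : ℕ} {u u' : Vx τ} {o o' : G}
    (h : Pre (Ed g T τ) (ini τ q0) (ini τ q0') u u' o o') :
    Rch (Ed g T τ) (ini τ q0) (ini τ q0') u ∧ Rch (Ed g T τ) (ini τ q0) (ini τ q0') u' := by
  obtain ⟨L, L', hL, hL', _⟩ := h.path
  exact ⟨Rch.path Rch.base hL, Rch.path Rch.base' hL'⟩

private theorem finite_of_unique {α β : Type} {P : α → β → Prop} {S : Set α} (hS : S.Finite)
    (h1 : ∀ a b, P a b → a ∈ S) (h2 : ∀ a b b', P a b → P a b' → b = b') :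
    {x : α × β | P x.1 x.2}.Finite := by
  refine Set.Finite.of_finite_image (f := Prod.fst) (hS.subset ?_) ?_
  · rintro _ ⟨x, hx, rfl⟩
    exact h1 _ _ hx
  · rintro ⟨a, b⟩ hx ⟨a', b'⟩ hx' h
    simp only at h
    subst h
    exact Prod.ext rfl (h2 _ _ _ hx hx')

variable (q0 q0' qf qf' : ℕ) (flag : Bool)

private theorem cD_finite (hD : ∀ u v o o', cD (Ed g T τ) (ini τ q0) (ini τ q0') u v o →
      cD (Ed g T τ) (ini τ q0) (ini τ q0') u v o' → o = o') :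
    {x : (Vx τ × Vx τ) × G | cD (Ed g T τ) (ini τ q0) (ini τ q0') x.1.1 x.1.2 x.2}.Finite := by
  refine finite_of_unique (P := fun a o => cD (Ed g T τ) (ini τ q0) (ini τ q0') a.1 a.2 o)
    ((rch_finite (g := g) (τ := τ) (T := T) q0 q0').prod
      (rch_finite (g := g) (τ := τ) (T := T) q0 q0')) ?_ ?_
  · rintro ⟨u, v⟩ o ⟨h1, h2⟩
    exact ⟨h1, h2.rch h1⟩
  · rintro ⟨u, v⟩ o o' h h'
    exact hD _ _ _ _ h h'

private theorem cH_finite (hD : ∀ u v o o', cD (Ed g T τ) (ini τ q0) (ini τ q0') u v o →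
      cD (Ed g T τ) (ini τ q0) (ini τ q0') u v o' → o = o') :
    {x : Vx τ × Ltr × Vx τ × G |
      cH (Ed g T τ) (ini τ q0) (ini τ q0') x.1 x.2.1 x.2.2.1 x.2.2.2}.Finite := by
  refine ((cD_finite q0 q0' hD).image (fun x : (Vx τ × Vx τ) × G =>
    (x.1.1, x.1.2.1.headI, (x.1.2.1.tail, x.1.2.2), x.2))).subset ?_
  rintro ⟨u, y, v, o⟩ ⟨hu, u1, o1, o2, hd, he, rfl⟩
  cases he with
  | pop x k l c q =>
    refine ⟨((u, (y :: k, l, c, q)), o1), ⟨hu, hd⟩, ?_⟩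
    simp

private theorem cU_finite :
    {x : Vx τ × Vx τ | cU (Ed g T τ) (ini τ q0) (ini τ q0') x.1 x.2}.Finite := by
  refine ((rch_finite (g := g) (τ := τ) (T := T) q0 q0').prod
    (rch_finite (g := g) (τ := τ) (T := T) q0 q0')).subset ?_
  rintro ⟨u, v⟩ ⟨o, o', h⟩
  exact pre_rch h

private theorem cB_finite (hB : ∀ u u' o o',
      cB (Ed g T τ) (Fn τ qf qf') (ini τ q0) (ini τ q0') u u' o →
      cB (Ed g T τ) (Fn τ qf qf') (ini τ q0) (ini τ q0') u u' o' → o = o') :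
    {x : (Vx τ × Vx τ) × G |
      cB (Ed g T τ) (Fn τ qf qf') (ini τ q0) (ini τ q0') x.1.1 x.1.2 x.2}.Finite := by
  refine finite_of_unique
    (P := fun a o => cB (Ed g T τ) (Fn τ qf qf') (ini τ q0) (ini τ q0') a.1 a.2 o)
    (cU_finite (g := g) (τ := τ) (T := T) q0 q0') ?_ ?_
  · rintro ⟨u, v⟩ o h
    exact h.1
  · rintro ⟨u, v⟩ o o' h h'
    exact hB _ _ _ _ h h'

/-- completeness -/
theorem exists_chk (hg : Subgroup.closure (Set.range g) = ⊤)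
    (hK : ∀ o o', Pr (Ed g T τ) (Fn τ qf qf') (ini τ q0) (ini τ q0') o o' →
      flag = true ∧ o = o')
    (hD : ∀ u v o o', cD (Ed g T τ) (ini τ q0) (ini τ q0') u v o →
      cD (Ed g T τ) (ini τ q0) (ini τ q0') u v o' → o = o')
    (hB : ∀ u u' o o', cB (Ed g T τ) (Fn τ qf qf') (ini τ q0) (ini τ q0') u u' o →
      cB (Ed g T τ) (Fn τ qf qf') (ini τ q0) (ini τ q0') u u' o' → o = o') :
    ∃ c : Cert τ, Chk g τ ((T, (q0, q0'), (qf, qf'), flag), c) := by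
  classical
  choose wd hwd using exists_word g hg
  have C := cl_canonical (flag := (flag = true)) (v0 := ini τ q0) (v0' := ini τ q0') hK
  set sR := (rch_finite (g := g) (τ := τ) (T := T) q0 q0').toFinset with hsR
  set sD := (cD_finite q0 q0' hD).toFinset with hsD
  set sH := (cH_finite q0 q0' hD).toFinset with hsH
  set sU := (cU_finite (g := g) (τ := τ) (T := T) q0 q0').toFinset with hsU
  set sB := (cB_finite q0 q0' qf qf' hB).toFinset with hsB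
  have mR : ∀ u, u ∈ sR.toList ↔ Rch (Ed g T τ) (ini τ q0) (ini τ q0') u := fun u => by
    rw [Finset.mem_toList, hsR, Set.Finite.mem_toFinset]
    rfl
  let lD := sD.toList.map fun x => (x.1.1, x.1.2, wd x.2)
  have mD : ∀ u v w, (u, v, w) ∈ lD ↔ ∃ o, cD (Ed g T τ) (ini τ q0) (ini τ q0') u v o ∧
      w = wd o := fun u v w => by
    rw [List.mem_map]
    constructor
    · rintro ⟨⟨⟨u', v'⟩, o⟩, hx, h⟩
      rw [Finset.mem_toList, hsD, Set.Finite.mem_toFinset] at hx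
      simp only [Prod.mk.injEq] at h
      obtain ⟨rfl, rfl, rfl⟩ := h
      exact ⟨o, hx, rfl⟩
    · rintro ⟨o, h, rfl⟩
      refine ⟨((u, v), o), ?_, rfl⟩
      rw [Finset.mem_toList, hsD, Set.Finite.mem_toFinset]
      exact h
  let lH := sH.toList.map fun x => (x.1, x.2.1, x.2.2.1, wd x.2.2.2)
  have mH : ∀ u y v w, (u, y, v, w) ∈ lH ↔
      ∃ o, cH (Ed g T τ) (ini τ q0) (ini τ q0') u y v o ∧ w = wd o := fun u y v w => by
    rw [List.mem_map]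
    constructor
    · rintro ⟨⟨u', y', v', o⟩, hx, h⟩
      rw [Finset.mem_toList, hsH, Set.Finite.mem_toFinset] at hx
      simp only [Prod.mk.injEq] at h
      obtain ⟨rfl, rfl, rfl, rfl⟩ := h
      exact ⟨o, hx, rfl⟩
    · rintro ⟨o, h, rfl⟩
      refine ⟨(u, y, v, o), ?_, rfl⟩
      rw [Finset.mem_toList, hsH, Set.Finite.mem_toFinset]
      exact h
  have mU : ∀ u u', (u, u') ∈ sU.toList ↔ cU (Ed g T τ) (ini τ q0) (ini τ q0') u u' :=
    fun u u' => by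
      rw [Finset.mem_toList, hsU, Set.Finite.mem_toFinset]
      rfl
  let lB := sB.toList.map fun x => (x.1, wd x.2)
  have mB : ∀ u u' w, ((u, u'), w) ∈ lB ↔
      ∃ o, cB (Ed g T τ) (Fn τ qf qf') (ini τ q0) (ini τ q0') u u' o ∧ w = wd o :=
    fun u u' w => by
      rw [List.mem_map]
      constructor
      · rintro ⟨⟨⟨u1, v1⟩, o⟩, hx, h⟩
        rw [Finset.mem_toList, hsB, Set.Finite.mem_toFinset] at hx
        simp only [Prod.mk.injEq] at h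
        obtain ⟨⟨rfl, rfl⟩, rfl⟩ := h
        exact ⟨o, hx, rfl⟩
      · rintro ⟨o, h, rfl⟩
        refine ⟨((u, u'), o), ?_, rfl⟩
        rw [Finset.mem_toList, hsB, Set.Finite.mem_toFinset]
        exact h
  refine ⟨(sR.toList, lD, lH, sU.toList, lB), ?_, ?_, ?_, ?_, ?_, ?_, ?_, ?_, ?_, ?_⟩
  · exact ⟨(mR _).2 C.r0, (mR _).2 C.r0', (mU _ _).2 C.u0⟩
  · intro e he
    obtain ⟨h1, h2⟩ := of_mem_edges (g := g) _ _ e he
    exact (mR _).2 (C.rE _ _ _ _ ((mR _).1 h1) h2)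
  · intro u hu
    refine ⟨(u, u, wd 1), (mD _ _ _).2 ⟨1, C.d0 _ ((mR _).1 hu), rfl⟩, rfl, rfl, hwd 1⟩
  · rintro ⟨u, l, w, v⟩ he ⟨v', z, w'⟩ hd ⟨h1, h2⟩
    simp only at h1 h2
    subst h1 h2
    obtain ⟨h3, h4⟩ := of_mem_edges (g := g) _ _ _ he
    obtain ⟨o, ho, rfl⟩ := (mD _ _ _).1 hd
    refine ⟨(u, z, wd (ev g w * o)), (mD _ _ _).2 ⟨_, C.de _ _ _ _ _ ((mR _).1 h3) h4 ho, rfl⟩,
      rfl, rfl, ?_⟩
    simp only
    rw [hwd, ev_append, hwd]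
  · rintro ⟨u, v, w⟩ hd ⟨v', l, w', z⟩ he ⟨h1, h2⟩
    simp only at h1 h2
    subst h1
    obtain ⟨y, rfl⟩ := Option.ne_none_iff_exists'.1 h2
    obtain ⟨h3, h4⟩ := of_mem_edges (g := g) _ _ _ he
    obtain ⟨o, ho, rfl⟩ := (mD _ _ _).1 hd
    refine ⟨(u, y, z, wd (o * ev g w')), (mH _ _ _ _).2 ⟨_, C.h _ _ _ _ _ _ ho.1
      ((mR _).1 h3) ho h4, rfl⟩, rfl, rfl, rfl, ?_⟩
    simp only
    rw [hwd, ev_append, hwd]
  · rintro ⟨u, l, w, v⟩ he ⟨v', y, z, w'⟩ hh ⟨z', t, w''⟩ hd ⟨h1, h2, h3⟩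
    simp only at h1 h2 h3
    subst h1 h2 h3
    obtain ⟨h3, h4⟩ := of_mem_edges (g := g) _ _ _ he
    obtain ⟨o, ho, rfl⟩ := (mH _ _ _ _).1 hh
    obtain ⟨o', ho', rfl⟩ := (mD _ _ _).1 hd
    rw [← linv_linv y] at ho
    refine ⟨(u, t, wd (ev g w * o * o')), (mD _ _ _).2 ⟨_, C.dp _ _ _ _ _ _ _ _
      ((mR _).1 h3) h4 ho ho', rfl⟩, rfl, rfl, ?_⟩
    simp only
    rw [hwd, ev_append, ev_append, hwd, hwd]
  · rintro ⟨u, u'⟩ hp ⟨v, y, z, w⟩ hh ⟨v', y', z', w'⟩ hh' ⟨h1, h2, h3⟩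
    simp only at h1 h2 h3
    subst h1 h2 h3
    obtain ⟨o, ho, rfl⟩ := (mH _ _ _ _).1 hh
    obtain ⟨o', ho', rfl⟩ := (mH _ _ _ _).1 hh'
    exact (mU _ _).2 (C.u1 _ _ _ _ _ _ _ ((mU _ _).1 hp) ho ho')
  · rintro ⟨u, u'⟩ hp ⟨v, z, w⟩ hd ⟨v', z', w'⟩ hd' ⟨h1, h2, h3⟩
    simp only at h1 h2 h3
    subst h1 h2
    obtain ⟨o, ho, rfl⟩ := (mD _ _ _).1 hd
    obtain ⟨o', ho', rfl⟩ := (mD _ _ _).1 hd'
    refine ⟨((v, v'), wd (o * o'⁻¹)), (mB _ _ _).2 ⟨_, C.b0 _ _ _ _ _ _ ((mU _ _).1 hp) ho ho'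
      ((fnB_iff _ _ _ _).1 h3), rfl⟩, rfl, ?_⟩
    simp only
    rw [hwd, ev_append, ev_invW, hwd, hwd]
  · rintro ⟨u, u'⟩ hp ⟨v, y, z, w⟩ hh ⟨v', y', z', w'⟩ hh' ⟨p, w''⟩ hb ⟨h1, h2, h3, h4⟩
    simp only at h1 h2 h3 h4
    subst h1 h2 h3 h4
    obtain ⟨o, ho, rfl⟩ := (mH _ _ _ _).1 hh
    obtain ⟨o', ho', rfl⟩ := (mH _ _ _ _).1 hh'
    obtain ⟨k, hk, rfl⟩ := (mB _ _ _).1 hb
    refine ⟨((v, v'), wd (o * k * o'⁻¹)), (mB _ _ _).2 ⟨_, C.b1 _ _ _ _ _ _ _ _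
      ((mU _ _).1 hp) ho ho' hk, rfl⟩, rfl, ?_⟩
    simp only
    rw [hwd, ev_append, ev_append, ev_invW, hwd, hwd, hwd]
  · rintro ⟨p, w⟩ hb h
    simp only at h
    subst h
    obtain ⟨k, hk, rfl⟩ := (mB _ _ _).1 hb
    obtain ⟨h1, h2⟩ := C.fin _ hk
    refine ⟨h1, ?_⟩
    simp only
    rw [hwd, h2, ev_nil]

end

end Pool.MP_247aa4_al
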