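import Mathlib

/-!
# MP_247aa4_al: definitions of the statements

Submonoids of a group generated by finitely many words.
-/

set_option autoImplicit false

namespace Pool.MP_247aa4_al

/-- words over the generators and their inverses (`true`: the generator, `false`: its inverse) -/
abbrev Word (n : ℕ) := List (Fin n × Bool)

/-- the element of the group given by a word -/
def ev {G : Type} [Group G] {n : ℕ} (g : Fin n → G) (w : Word n) : G :=
  (w.map fun a => if a.2 then g a.1 else (g a.1)⁻¹).prod

/-- the submonoid generated by the words of the list `S` -/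
def Mon {G : Type} [Group G] {n : ℕ} (g : Fin n → G) (S : List (Word n)) : Submonoid G :=
  Submonoid.closure {x | ∃ w ∈ S, x = ev g w}

/-- `G` has a free subgroup of finite index -/
def VirtuallyFree (G : Type) [Group G] : Prop :=
  ∃ H : Subgroup G, H.FiniteIndex ∧ IsFreeGroup H

/-- finitely many units, and every element is a product of units and irreducible elements -/
def FiniteUnitsAtomic (M : Type) [Monoid M] : Prop :=
  Finite Mˣ ∧ Submonoid.closure {x : M | IsUnit x ∨ Irreducible x} = ⊤

section

variable {G : Type} [Group G] {n : ℕ} (g : Fin n → G)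

theorem ev_nil : ev g [] = 1 := rfl

theorem ev_append (u v : Word n) : ev g (u ++ v) = ev g u * ev g v := by
  unfold ev
  rw [List.map_append, List.prod_append]

theorem ev_cons (a : Fin n × Bool) (v : Word n) :
    ev g (a :: v) = (if a.2 then g a.1 else (g a.1)⁻¹) * ev g v := by
  unfold ev
  rw [List.map_cons, List.prod_cons]

/-- the inverse word -/
def invW (w : Word n) : Word n := (w.map fun a => (a.1, !a.2)).reverse

theorem ev_invW (w : Word n) : ev g (invW w) = (ev g w)⁻¹ := by
  induction w with
  | nil => simp [invW, ev]
  | cons a w ih =>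
    unfold invW at ih ⊢
    rw [List.map_cons, List.reverse_cons, ev_append, ih, ev_cons, ev_cons, ev_nil, mul_one,
      mul_inv_rev]
    congr 1
    rcases a with ⟨a, b⟩
    cases b <;> simp

/-- every element is given by a word -/
theorem exists_word (hg : Subgroup.closure (Set.range g) = ⊤) (x : G) : ∃ w : Word n, ev g w = x := by
  have hx : x ∈ Subgroup.closure (Set.range g) := by rw [hg]; exact Subgroup.mem_top x
  induction hx using Subgroup.closure_induction with
  | mem x hx =>
    obtain ⟨i, rfl⟩ := hx
    exact ⟨[(i, true)], by simp [ev]⟩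
  | one => exact ⟨[], rfl⟩
  | mul x y _ _ hx hy =>
    obtain ⟨u, rfl⟩ := hx
    obtain ⟨v, rfl⟩ := hy
    exact ⟨u ++ v, ev_append g u v⟩
  | inv x _ hx =>
    obtain ⟨u, rfl⟩ := hx
    exact ⟨invW u, ev_invW g u⟩

end

end Pool.MP_247aa4_al
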