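import Pool.Agent.Lib_MP_247aa4.Defs

/-!
# MP_247aa4_al: finite factorization monoids, and an example

* if every element has only finitely many factorizations, then the only unit is `1` and the monoid is generated by
  the irreducible elements;
* in the free group on `x, y, z` the submonoid generated by `x`, `y`, `z`, `w = (x y)⁻¹ z⁻¹ (x y)` has no units and
  is generated by irreducible elements, but `x y = z (x y) w`.
-/

set_option autoImplicit false

namespace Pool.MP_247aa4_al

/-- the factorizations of `x` into elements different from `1` -/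
def Fact {M : Type} [Monoid M] (x : M) : Set (List M) := {l | (∀ a ∈ l, a ≠ 1) ∧ l.prod = x}

section

variable {M : Type} [Monoid M]

private theorem unit_one (h : ∀ x : M, (Fact x).Finite) (u : Mˣ) : u = 1 := by
  by_contra hu
  have h1 : (u : M) ≠ 1 := fun h2 => hu (Units.ext h2)
  have h2 : ((u⁻¹ : Mˣ) : M) ≠ 1 := fun h3 => hu (by
    have : u⁻¹ = 1 := Units.ext h3
    rwa [inv_eq_one] at this)
  have h3 : Function.Injective fun k : ℕ => (List.replicate k [(u : M), ((u⁻¹ : Mˣ) : M)]).flatten := by
    intro i j hij
    have h4 := congrArg List.length hij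
    simp only [List.length_flatten, List.map_replicate, List.sum_replicate, List.length_cons, List.length_nil,
      smul_eq_mul] at h4
    omega
  refine Set.infinite_range_of_injective h3 ((h 1).subset ?_)
  rintro _ ⟨k, rfl⟩
  refine ⟨fun a ha => ?_, ?_⟩
  · rw [List.mem_flatten] at ha
    obtain ⟨l, hl, ha⟩ := ha
    rw [List.eq_of_mem_replicate hl] at ha
    simp only [List.mem_cons, List.not_mem_nil, or_false] at ha
    rcases ha with rfl | rfl
    · exact h1
    · exact h2
  · rw [List.prod_flatten, List.map_replicate, List.prod_replicate]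
    simp

/-- finite factorization monoids -/
theorem fa_of_fact (h : ∀ x : M, (Fact x).Finite) : FiniteUnitsAtomic M := by
  have hu := unit_one h
  constructor
  · exact @Finite.of_subsingleton _ ⟨fun a b => (hu a).trans (hu b).symm⟩
  · rw [eq_top_iff]
    intro x _
    have hne : (Fact x).Nonempty := by
      by_cases hx : x = 1
      · exact ⟨[], by simp, hx.symm⟩
      · exact ⟨[x], by simpa using hx, by simp⟩
    obtain ⟨l, ⟨hl, hx⟩, hmax⟩ := Set.exists_max_image (Fact x) List.length (h x) hne
    have hirr : ∀ a ∈ l, Irreducible a := by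
      intro a ha
      refine ⟨?_, ?_⟩
      · rintro ⟨u, rfl⟩
        exact hl _ ha (by rw [hu u]; rfl)
      · intro b c hbc
        by_contra hc
        rw [not_or] at hc
        have hb1 : b ≠ 1 := fun h => hc.1 (h ▸ isUnit_one)
        have hc1 : c ≠ 1 := fun h => hc.2 (h ▸ isUnit_one)
        obtain ⟨s, t, rfl⟩ := List.append_of_mem ha
        have h1 : s ++ b :: c :: t ∈ Fact x := by
          refine ⟨fun d hd => ?_, ?_⟩
          · rcases List.mem_append.1 hd with hd | hd
            · exact hl d (List.mem_append.2 (Or.inl hd))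
            · rcases List.mem_cons.1 hd with rfl | hd
              · exact hb1
              · rcases List.mem_cons.1 hd with rfl | hd
                · exact hc1
                · exact hl d (List.mem_append.2 (Or.inr (List.mem_cons_of_mem _ hd)))
          · rw [← hx, List.prod_append, List.prod_append, List.prod_cons, List.prod_cons, List.prod_cons,
              hbc, mul_assoc]
        have h2 := hmax _ h1
        simp only [List.length_append, List.length_cons] at h2
        omega
    rw [← hx]
    exact list_prod_mem fun a ha => Submonoid.subset_closure (Or.inr (hirr a ha))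

end

/-! ## The example -/

/-- the words `x`, `y`, `z`, `y⁻¹ x⁻¹ z⁻¹ x y` -/
def exS : List (Word 3) :=
  [[(0, true)], [(1, true)], [(2, true)], [(1, false), (0, false), (2, false), (0, true), (1, true)]]

section

/-- the generators -/
private def gen : Fin 4 → FreeGroup (Fin 3) :=
  ![FreeGroup.of 0, FreeGroup.of 1, FreeGroup.of 2,
    (FreeGroup.of 1)⁻¹ * (FreeGroup.of 0)⁻¹ * (FreeGroup.of 2)⁻¹ * FreeGroup.of 0 * FreeGroup.of 1]

private def val (l : List (Fin 4)) : FreeGroup (Fin 3) := (l.map gen).prod

private theorem val_append (l l' : List (Fin 4)) : val (l ++ l') = val l * val l' := by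
  unfold val
  rw [List.map_append, List.prod_append]

private theorem mem_exS_iff (m : FreeGroup (Fin 3)) :
    m ∈ Mon (FreeGroup.of : Fin 3 → FreeGroup (Fin 3)) exS ↔ ∃ l, val l = m := by
  have h0 : {x | ∃ w ∈ exS, x = ev (FreeGroup.of : Fin 3 → FreeGroup (Fin 3)) w} = Set.range gen := by
    ext x
    constructor
    · rintro ⟨w, hw, rfl⟩
      simp only [exS, List.mem_cons, List.not_mem_nil, or_false] at hw
      rcases hw with rfl | rfl | rfl | rfl
      · exact ⟨0, by simp [gen, ev]⟩
      · exact ⟨1, by simp [gen, ev]⟩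
      · exact ⟨2, by simp [gen, ev]⟩
      · exact ⟨3, by simp [gen, ev, mul_assoc]⟩
    · rintro ⟨i, rfl⟩
      fin_cases i
      · exact ⟨[(0, true)], by simp [exS], by simp [gen, ev]⟩
      · exact ⟨[(1, true)], by simp [exS], by simp [gen, ev]⟩
      · exact ⟨[(2, true)], by simp [exS], by simp [gen, ev]⟩
      · exact ⟨[(1, false), (0, false), (2, false), (0, true), (1, true)], by simp [exS],
          by simp [gen, ev, mul_assoc]⟩
  unfold Mon
  rw [h0]
  constructor
  · intro h
    induction h using Submonoid.closure_induction with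
    | mem x hx =>
      obtain ⟨i, rfl⟩ := hx
      exact ⟨[i], by simp [val]⟩
    | one => exact ⟨[], rfl⟩
    | mul x y _ _ hx hy =>
      obtain ⟨l, rfl⟩ := hx
      obtain ⟨l', rfl⟩ := hy
      exact ⟨l ++ l', val_append l l'⟩
  · rintro ⟨l, rfl⟩
    unfold val
    refine list_prod_mem fun a ha => ?_
    obtain ⟨i, _, rfl⟩ := List.mem_map.1 ha
    exact Submonoid.subset_closure ⟨i, rfl⟩

/-- exponent sums -/
private noncomputable def ex (k : Fin 3) : FreeGroup (Fin 3) →* Multiplicative ℤ :=
  FreeGroup.lift fun i => if i = k then Multiplicative.ofAdd 1 else 1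

private theorem ex0 (l : List (Fin 4)) : ex 0 (val l) = Multiplicative.ofAdd (l.count 0 : ℤ) := by
  induction l with
  | nil => simp [val]
  | cons i l ih =>
    have h1 : val (i :: l) = gen i * val l := rfl
    rw [h1, map_mul, ih]
    fin_cases i <;> simp [gen, ex, ← ofAdd_add, add_comm]

private theorem ex1 (l : List (Fin 4)) : ex 1 (val l) = Multiplicative.ofAdd (l.count 1 : ℤ) := by
  induction l with
  | nil => simp [val]
  | cons i l ih =>
    have h1 : val (i :: l) = gen i * val l := rfl
    rw [h1, map_mul, ih]
    fin_cases i <;> simp [gen, ex, ← ofAdd_add, add_comm]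

/-- the homomorphism to the infinite dihedral group with `k ↦` reflection -/
private noncomputable def dh (k : Fin 3) : FreeGroup (Fin 3) →* DihedralGroup 0 :=
  FreeGroup.lift fun i => if i = k then DihedralGroup.sr 0 else if i = 2 then DihedralGroup.r 1 else 1

private theorem dh0 (l : List (Fin 4)) (h : l.count 0 = 0) :
    dh 0 (val l) = DihedralGroup.r ((l.count 2 + l.count 3 : ℕ) : ℤ) := by
  induction l with
  | nil => simp [val]; rfl
  | cons i l ih =>
    have h1 : val (i :: l) = gen i * val l := rfl
    rw [List.count_cons] at h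
    have h2 : l.count 0 = 0 := by omega
    rw [h1, map_mul, ih h2]
    fin_cases i
    · simp at h
    · simp [gen, dh]
    · simp [gen, dh]
      exact add_left_comm (1 : ℤ) _ _ |>.trans (add_assoc _ _ _).symm
    · simp [gen, dh]
      exact (add_comm (1 : ℤ) _).trans (add_assoc _ _ _)

private theorem dh1 (l : List (Fin 4)) (h : l.count 1 = 0) :
    dh 1 (val l) = DihedralGroup.r ((l.count 2 + l.count 3 : ℕ) : ℤ) := by
  induction l with
  | nil => simp [val]; rfl
  | cons i l ih =>
    have h1 : val (i :: l) = gen i * val l := rfl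
    rw [List.count_cons] at h
    have h2 : l.count 1 = 0 := by omega
    rw [h1, map_mul, ih h2]
    fin_cases i
    · simp [gen, dh]
    · simp at h
    · simp [gen, dh]
      exact add_left_comm (1 : ℤ) _ _ |>.trans (add_assoc _ _ _).symm
    · simp [gen, dh]
      exact (add_comm (1 : ℤ) _).trans (add_assoc _ _ _)

private theorem len_eq (l : List (Fin 4)) : l.length = l.count 0 + l.count 1 + (l.count 2 + l.count 3) := by
  induction l with
  | nil => rfl
  | cons i l ih =>
    fin_cases i <;> simp <;> omega

private theorem r_inj {a : ℕ} {b : ℤ} (h : (DihedralGroup.r ((a : ℕ) : ℤ) : DihedralGroup 0) = DihedralGroup.r b) :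
    (a : ℤ) = b := by
  have := DihedralGroup.r.inj h
  exact this

private theorem val_eq_one {l : List (Fin 4)} (h : val l = 1) : l = [] := by
  have h0 := ex0 l
  have h1 := ex1 l
  rw [h, map_one] at h0 h1
  have h2 : (l.count 0 : ℤ) = 0 := (Multiplicative.ofAdd.injective h0).symm
  have h3 : (l.count 1 : ℤ) = 0 := (Multiplicative.ofAdd.injective h1).symm
  have h4 := dh0 l (by omega)
  rw [h, map_one] at h4
  have h5 := r_inj (b := 0) h4.symm
  have h6 := len_eq l
  refine List.length_eq_zero_iff.1 ?_
  push_cast at h5
  omega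

private theorem val_eq_gen {l : List (Fin 4)} {i : Fin 4} (h : val l = gen i) : l.length = 1 := by
  have h6 := len_eq l
  have e0 := ex0 l
  have e1 := ex1 l
  have e2 := ex0 [i]
  have e3 := ex1 [i]
  have hi : val [i] = gen i := by simp [val]
  rw [h, ← hi, e2] at e0
  rw [h, ← hi, e3] at e1
  have c0 : (([i] : List (Fin 4)).count 0 : ℤ) = l.count 0 := Multiplicative.ofAdd.injective e0
  have c1 : (([i] : List (Fin 4)).count 1 : ℤ) = l.count 1 := Multiplicative.ofAdd.injective e1
  by_cases h7 : l.count 0 = 0
  · have h8 : ([i] : List (Fin 4)).count 0 = 0 := by omega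
    have d1 := dh0 l h7
    rw [h, ← hi, dh0 [i] h8] at d1
    have d2 := r_inj d1
    have h9 := len_eq [i]
    simp only [List.length_singleton] at h9
    push_cast at d2
    omega
  · have h8 : l.count 1 = 0 := by
      have := len_eq [i]
      simp only [List.length_singleton] at this
      omega
    have h10 : ([i] : List (Fin 4)).count 1 = 0 := by omega
    have d1 := dh1 l h8
    rw [h, ← hi, dh1 [i] h10] at d1
    have d2 := r_inj d1
    have h9 := len_eq [i]
    simp only [List.length_singleton] at h9
    push_cast at d2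
    omega

/-- the example has only the trivial unit and is generated by irreducible elements -/
theorem exS_fa : FiniteUnitsAtomic (Mon (FreeGroup.of : Fin 3 → FreeGroup (Fin 3)) exS) := by
  have hu : ∀ u : (Mon (FreeGroup.of : Fin 3 → FreeGroup (Fin 3)) exS)ˣ, u = 1 := by
    intro u
    obtain ⟨l, hl⟩ := (mem_exS_iff _).1 (u : Mon (FreeGroup.of : Fin 3 → FreeGroup (Fin 3)) exS).2
    obtain ⟨l', hl'⟩ := (mem_exS_iff _).1 ((u⁻¹ : (Mon (FreeGroup.of : Fin 3 → FreeGroup (Fin 3)) exS)ˣ) :
      Mon (FreeGroup.of : Fin 3 → FreeGroup (Fin 3)) exS).2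
    have h1 : val (l ++ l') = 1 := by
      rw [val_append, hl, hl']
      have := congrArg Subtype.val (Units.mul_inv u)
      exact this
    have h2 := (List.append_eq_nil_iff.1 (val_eq_one h1)).1
    subst h2
    refine Units.ext (Subtype.ext ?_)
    rw [← hl]
    rfl
  have hone : ∀ a : Mon (FreeGroup.of : Fin 3 → FreeGroup (Fin 3)) exS, IsUnit a → a = 1 := by
    rintro _ ⟨u, rfl⟩
    rw [hu u]
    rfl
  have hirr : ∀ (i : Fin 4) (h : gen i ∈ Mon (FreeGroup.of : Fin 3 → FreeGroup (Fin 3)) exS),
      Irreducible (⟨gen i, h⟩ : Mon (FreeGroup.of : Fin 3 → FreeGroup (Fin 3)) exS) := by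
    intro i h
    refine ⟨fun h1 => ?_, ?_⟩
    · have h2 := congrArg Subtype.val (hone _ h1)
      have h3 : val [i] = 1 := by
        have hi : val [i] = gen i := by simp [val]
        rw [hi]
        exact h2
      exact absurd (val_eq_one h3) (by simp)
    · intro a b hab
      obtain ⟨l, hl⟩ := (mem_exS_iff _).1 a.2
      obtain ⟨l', hl'⟩ := (mem_exS_iff _).1 b.2
      have h1 : val (l ++ l') = gen i := by
        rw [val_append, hl, hl']
        exact (congrArg Subtype.val hab).symm
      have h2 := val_eq_gen h1
      rw [List.length_append] at h2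
      rcases Nat.eq_zero_or_pos l.length with h3 | h3
      · left
        rw [List.length_eq_zero_iff] at h3
        subst h3
        have : a = 1 := Subtype.ext (by rw [← hl]; rfl)
        rw [this]
        exact isUnit_one
      · right
        have h4 : l'.length = 0 := by omega
        rw [List.length_eq_zero_iff] at h4
        subst h4
        have : b = 1 := Subtype.ext (by rw [← hl']; rfl)
        rw [this]
        exact isUnit_one
  have hgen : ∀ i : Fin 4, gen i ∈ Mon (FreeGroup.of : Fin 3 → FreeGroup (Fin 3)) exS := fun i =>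
    (mem_exS_iff _).2 ⟨[i], by simp [val]⟩
  constructor
  · exact @Finite.of_subsingleton _ ⟨fun a b => (hu a).trans (hu b).symm⟩
  · rw [eq_top_iff]
    rintro ⟨x, hx⟩ _
    obtain ⟨l, rfl⟩ := (mem_exS_iff _).1 hx
    induction l with
    | nil => exact one_mem _
    | cons i l ih =>
      have hl : val l ∈ Mon (FreeGroup.of : Fin 3 → FreeGroup (Fin 3)) exS := (mem_exS_iff _).2 ⟨l, rfl⟩
      have h1 : (⟨val (i :: l), hx⟩ : Mon (FreeGroup.of : Fin 3 → FreeGroup (Fin 3)) exS) =
          ⟨gen i, hgen i⟩ * ⟨val l, hl⟩ := rfl
      rw [h1]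
      exact mul_mem (Submonoid.subset_closure (Or.inr (hirr i (hgen i)))) (ih hl trivial)

/-- the element `x y` of the example has infinitely many factorizations -/
theorem exS_inf : ∃ x : Mon (FreeGroup.of : Fin 3 → FreeGroup (Fin 3)) exS, (Fact x).Infinite := by
  have hgen : ∀ i : Fin 4, gen i ∈ Mon (FreeGroup.of : Fin 3 → FreeGroup (Fin 3)) exS := fun i =>
    (mem_exS_iff _).2 ⟨[i], by simp [val]⟩
  have hne : ∀ i : Fin 4, (⟨gen i, hgen i⟩ : Mon (FreeGroup.of : Fin 3 → FreeGroup (Fin 3)) exS) ≠ 1 := by
    intro i h
    have h2 := congrArg Subtype.val h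
    have h3 : val [i] = 1 := by
      have hi : val [i] = gen i := by simp [val]
      rw [hi]
      exact h2
    exact absurd (val_eq_one h3) (by simp)
  refine ⟨⟨gen 0, hgen 0⟩ * ⟨gen 1, hgen 1⟩, ?_⟩
  have hinj : Function.Injective fun k : ℕ =>
      List.replicate k (⟨gen 2, hgen 2⟩ : Mon (FreeGroup.of : Fin 3 → FreeGroup (Fin 3)) exS) ++
        [⟨gen 0, hgen 0⟩, ⟨gen 1, hgen 1⟩] ++ List.replicate k ⟨gen 3, hgen 3⟩ := by
    intro i j hij
    have h4 := congrArg List.length hij
    simp only [List.length_append, List.length_replicate, List.length_cons, List.length_nil] at h4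
    omega
  refine Set.infinite_of_injective_forall_mem hinj fun k => ⟨fun a ha => ?_, ?_⟩
  · simp only [List.mem_append, List.mem_replicate, List.mem_cons, List.not_mem_nil, or_false] at ha
    rcases ha with (⟨_, rfl⟩ | rfl | rfl) | ⟨_, rfl⟩ <;> exact hne _
  · rw [List.prod_append, List.prod_append, List.prod_replicate, List.prod_replicate, List.prod_cons,
      List.prod_cons, List.prod_nil, mul_one]
    refine Subtype.ext ?_
    show gen 2 ^ k * (gen 0 * gen 1) * gen 3 ^ k = gen 0 * gen 1
    have h5 : gen 3 = (gen 0 * gen 1)⁻¹ * (gen 2)⁻¹ * (gen 0 * gen 1) := by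
      simp [gen, mul_assoc]
    have h6 : gen 0 * gen 1 * gen 3 ^ k = (gen 2 ^ k)⁻¹ * (gen 0 * gen 1) := by
      rw [h5]
      induction k with
      | zero => simp
      | succ k ih =>
        rw [pow_succ, ← mul_assoc, ih, pow_succ' (gen 2)]
        group
    rw [mul_assoc, h6, mul_inv_cancel_left]

end

end Pool.MP_247aa4_al
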