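import Pool.Agent.Lib_MP_247aa4.SigU

/-!
# MP_247aa4_al: `FiniteUnitsAtomic` is decidable
-/

set_option autoImplicit false
set_option linter.unusedTactic false

namespace Pool.MP_247aa4_al

section

variable {G : Type} [Group G] {n : ℕ} {g : Fin n → G} {τ : Tdc n} {α : Type} [Primcodable α]

/-! ## units -/

/-- the list `W` contains `1` and is closed under the multiplication by unit letters -/
def Wc (g : Fin n → G) (S W : List (Word n)) : Prop :=
  (∃ w ∈ W, ev g w = ev g []) ∧ ∀ w ∈ W, ∀ s ∈ S, ¬ Un g S (ev g s) ∨ ∃ w' ∈ W, ev g w' = ev g (w ++ s)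

theorem Wc.un {S W : List (Word n)} (h : Wc g S W) {x : G} (hx : x ∈ Mon g S) :
    Un g S x → ∃ w ∈ W, ev g w = x := by
  have hx' : x ∈ Submonoid.closure {x | ∃ w ∈ S, x = ev g w} := hx
  clear hx
  induction hx' using Submonoid.closure_induction_right with
  | one => exact fun _ => h.1
  | mul_right x hx y hy ih =>
    obtain ⟨s, hs, rfl⟩ := hy
    have hx' : x ∈ Mon g S := hx
    intro hu
    obtain ⟨h1, h2⟩ := Un.of_mul hx' (mem_Mon hs) hu
    obtain ⟨w, hw, rfl⟩ := ih h1
    rcases h.2 w hw s hs with h3 | ⟨w', hw', he⟩
    · exact absurd h2 h3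
    · exact ⟨w', hw', by rw [he, ev_append]⟩

/-- the group of units as a subgroup of `G` -/
def UG (g : Fin n → G) (S : List (Word n)) : Subgroup G where
  carrier := {x | Un g S x}
  one_mem' := Un.one
  mul_mem' := Un.mul
  inv_mem' := Un.inv

/-- the units of the submonoid -/
noncomputable def unitsEquiv (g : Fin n → G) (S : List (Word n)) : (Mon g S)ˣ ≃ UG g S where
  toFun u := ⟨((u : Mon g S) : G), (isUnit_iff (u : Mon g S)).1 u.isUnit⟩
  invFun x := ((isUnit_iff ⟨(x : G), x.2.1⟩).2 x.2).unit
  left_inv u := by
    apply Units.ext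
    rw [IsUnit.unit_spec]
  right_inv x := by
    apply Subtype.ext
    simp [IsUnit.unit_spec]

theorem finite_units_iff (hg : Subgroup.closure (Set.range g) = ⊤) (S : List (Word n)) :
    Finite (Mon g S)ˣ ↔ ∃ W : List (Word n), Wc g S W := by
  rw [(unitsEquiv g S).finite_iff]
  constructor
  · intro h
    have h1 : ({x | Un g S x} : Set G).Finite := h
    choose wd hwd using exists_word g hg
    refine ⟨h1.toFinset.toList.map wd, ?_, ?_⟩
    · refine ⟨wd 1, List.mem_map.2 ⟨1, ?_, rfl⟩, ?_⟩
      · rw [Finset.mem_toList, Set.Finite.mem_toFinset]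
        exact Un.one
      · rw [hwd]; rfl
    · intro w hw s hs
      obtain ⟨x, hx, rfl⟩ := List.mem_map.1 hw
      rw [Finset.mem_toList, Set.Finite.mem_toFinset] at hx
      by_cases hu : Un g S (ev g s)
      · refine Or.inr ⟨wd (x * ev g s), List.mem_map.2 ⟨_, ?_, rfl⟩, ?_⟩
        · rw [Finset.mem_toList, Set.Finite.mem_toFinset]
          exact Un.mul hx hu
        · rw [hwd, ev_append, hwd]
      · exact Or.inl hu
  · rintro ⟨W, hW⟩
    have h1 : ({x | Un g S x} : Set G) ⊆ (ev g) '' {w | w ∈ W} := by
      intro x hx
      obtain ⟨w, hw, he⟩ := hW.un hx.1 hx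
      exact ⟨w, hw, he⟩
    exact ((List.finite_toSet W).image _).subset h1

/-- words for the units -/
theorem exists_Wc (hg : Subgroup.closure (Set.range g) = ⊤) (S : List (Word n)) (h : Finite (Mon g S)ˣ) :
    ∃ W : List (Word n), Wc g S W ∧ ∀ w ∈ W, ev g w ∈ Mon g S := by
  classical
  obtain ⟨W, hW⟩ := (finite_units_iff hg S).1 h
  refine ⟨W.filter fun w => Un g S (ev g w), ⟨?_, ?_⟩, ?_⟩
  · obtain ⟨w, hw, he⟩ := hW.1
    refine ⟨w, List.mem_filter.2 ⟨hw, ?_⟩, he⟩
    rw [decide_eq_true_iff, he, ev_nil]
    exact Un.one
  · intro w hw s hs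
    obtain ⟨h1, h2⟩ := List.mem_filter.1 hw
    rw [decide_eq_true_iff] at h2
    rcases hW.2 w h1 s hs with h3 | ⟨w', hw', he⟩
    · exact Or.inl h3
    · by_cases hu : Un g S (ev g s)
      · refine Or.inr ⟨w', List.mem_filter.2 ⟨hw', ?_⟩, he⟩
        rw [decide_eq_true_iff, he, ev_append]
        exact h2.mul hu
      · exact Or.inl hu
  · intro w hw
    obtain ⟨_, h2⟩ := List.mem_filter.1 hw
    rw [decide_eq_true_iff] at h2
    exact h2.1

/-- infinitely many units -/
theorem infinite_units_iff (hg : Subgroup.closure (Set.range g) = ⊤)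
    (hm : ∀ K : Subgroup G, Finite K → Nat.card K ≤ τ.m) (S : List (Word n)) :
    ¬ Finite (Mon g S)ˣ ↔ ∃ l : List (ℕ × Word n), (∀ a ∈ l, Un g S (ev g a.2)) ∧
      (∀ a ∈ l, ∀ b ∈ l, ev g a.2 = ev g b.2 → a.1 = b.1) ∧ ∀ i ∈ List.range (τ.m + 1), ∃ a ∈ l, a.1 = i := by
  rw [(unitsEquiv g S).finite_iff]
  constructor
  · intro h
    rw [not_finite_iff_infinite] at h
    choose wd hwd using exists_word g hg
    let f : ℕ ↪ UG g S := Infinite.natEmbedding _
    refine ⟨(List.range (τ.m + 1)).map fun i => (i, wd (f i)), ?_, ?_, ?_⟩
    · intro a ha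
      obtain ⟨i, _, rfl⟩ := List.mem_map.1 ha
      rw [hwd]
      exact (f i).2
    · intro a ha b hb he
      obtain ⟨i, _, rfl⟩ := List.mem_map.1 ha
      obtain ⟨j, _, rfl⟩ := List.mem_map.1 hb
      rw [hwd, hwd] at he
      exact f.injective (Subtype.ext he)
    · intro i hi
      exact ⟨_, List.mem_map.2 ⟨i, hi, rfl⟩, rfl⟩
  · rintro ⟨l, h1, h2, h3⟩ hfin
    have h4 : ∀ i : Fin (τ.m + 1), ∃ a ∈ l, a.1 = i := fun i => h3 i (List.mem_range.2 i.2)
    choose f hf hf' using h4
    have h5 : Function.Injective fun i => (⟨ev g (f i).2, h1 _ (hf i)⟩ : UG g S) := by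
      intro i j hij
      have h6 := h2 _ (hf i) _ (hf j) (congrArg Subtype.val hij)
      rw [hf', hf'] at h6
      exact Fin.ext h6
    have h6 := Nat.card_le_card_of_injective _ h5
    rw [Nat.card_fin] at h6
    have h7 := hm (UG g S) hfin
    omega

/-! ## atomic submonoids -/

theorem atomic_iff (S : List (Word n)) :
    Submonoid.closure {x : Mon g S | IsUnit x ∨ Irreducible x} = ⊤ ↔
      ∀ s ∈ S, ev g s ∈ Submonoid.closure {x : G | Un g S x ∨ Irr g S x} := by
  have h1 : (Submonoid.closure {x : Mon g S | IsUnit x ∨ Irreducible x}).map (Mon g S).subtype =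
      Submonoid.closure {x : G | Un g S x ∨ Irr g S x} := by
    rw [MonoidHom.map_mclosure]
    congr 1
    ext x
    constructor
    · rintro ⟨y, hy, rfl⟩
      rw [Set.mem_ofPred_eq, isUnit_iff, irreducible_iff'] at hy
      exact hy
    · intro hx
      have hx' : x ∈ Mon g S := by
        rcases hx with h | h
        · exact h.1
        · exact h.1
      refine ⟨⟨x, hx'⟩, ?_, rfl⟩
      rw [Set.mem_ofPred_eq, isUnit_iff, irreducible_iff']
      exact hx
  constructor
  · intro h s hs
    rw [← h1, h]
    exact ⟨⟨ev g s, mem_Mon hs⟩, Submonoid.mem_top _, rfl⟩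
  · intro h
    rw [eq_top_iff]
    rintro ⟨x, hx⟩ _
    have h2 := Mon_le h hx
    rw [← h1] at h2
    obtain ⟨y, hy, he⟩ := h2
    have h3 : y = ⟨x, hx⟩ := Subtype.ext he
    rw [← h3]
    exact hy

theorem atomic_iff_ex (S : List (Word n)) :
    Submonoid.closure {x : Mon g S | IsUnit x ∨ Irreducible x} = ⊤ ↔ ∃ X : List (Word n),
      (∀ x ∈ X, Un g S (ev g x) ∨ Irr g S (ev g x)) ∧ ∀ s ∈ S, ev g s ∈ Mon g X := by
  classical
  rw [atomic_iff]
  constructor
  · intro h
    refine ⟨S.filter fun s => Un g S (ev g s) ∨ Irr g S (ev g s), ?_, ?_⟩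
    · intro x hx
      have := (List.mem_filter.1 hx).2
      rwa [decide_eq_true_iff] at this
    · intro s hs
      refine (Submonoid.closure_le.2 ?_) (h s hs)
      intro x hx
      have hx' : x ∈ Mon g S := by
        rcases hx with h | h
        · exact h.1
        · exact h.1
      refine mem_of_un_or_irr (fun s hs h' => ?_) hx' hx
      exact mem_Mon (List.mem_filter.2 ⟨hs, by rw [decide_eq_true_iff]; exact h'⟩)
  · rintro ⟨X, h1, h2⟩ s hs
    exact Mon_le (fun x hx => Submonoid.subset_closure (h1 x hx)) (h2 s hs)

theorem not_atomic_iff_ex (S : List (Word n)) :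
    ¬ Submonoid.closure {x : Mon g S | IsUnit x ∨ Irreducible x} = ⊤ ↔ ∃ X : List (Word n),
      (∀ s ∈ S, s ∈ X ∨ (¬ Un g S (ev g s) ∧ ¬ Irr g S (ev g s))) ∧ ∃ s ∈ S, ev g s ∉ Mon g X := by
  classical
  rw [atomic_iff]
  constructor
  · intro h
    push Not at h
    obtain ⟨s, hs, h⟩ := h
    refine ⟨S.filter fun s => Un g S (ev g s) ∨ Irr g S (ev g s), ?_, s, hs, ?_⟩
    · intro x hx
      by_cases hx' : Un g S (ev g x) ∨ Irr g S (ev g x)
      · exact Or.inl (List.mem_filter.2 ⟨hx, by rw [decide_eq_true_iff]; exact hx'⟩)
      · rw [not_or] at hx'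
        exact Or.inr hx'
    · intro hm
      apply h
      refine Mon_le (fun x hx => ?_) hm
      have := (List.mem_filter.1 hx).2
      rw [decide_eq_true_iff] at this
      exact Submonoid.subset_closure this
  · rintro ⟨X, h1, s, hs, h2⟩ h
    apply h2
    refine (Submonoid.closure_le.2 ?_) (h s hs)
    intro x hx
    have hx' : x ∈ Mon g S := by
      rcases hx with h | h
      · exact h.1
      · exact h.1
    refine mem_of_un_or_irr (fun s hs h' => ?_) hx' hx
    rcases h1 s hs with h3 | ⟨h3, h4⟩
    · exact mem_Mon h3
    · rcases h' with h' | h'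
      · exact absurd h' h3
      · exact absurd h' h4

/-! ## enumerability -/

theorem sig_Wc (hg : Subgroup.closure (Set.range g) = ⊤) (hτ : τ.Spec g) {S W : α → List (Word n)}
    (hS : Primrec S) (hW : Primrec W) : Sig fun a => Wc g (S a) (W a) := by
  unfold Wc
  refine Sig.and (Sig.of_prim (pbex hW (prim_ev hτ (by (repeat' (first | with_reducible exact prid | with_reducible refine prfst ?_ | with_reducible refine prsnd ?_ | with_reducible refine prpair ?_ ?_ | with_reducible exact prconst _))) (by (repeat' (first | with_reducible exact prid | with_reducible refine prfst ?_ | with_reducible refine prsnd ?_ | with_reducible refine prpair ?_ ?_ | with_reducible exact prconst _)))))) ?_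
  refine Sig.ball hW (Sig.ball (hS.comp Primrec.fst) (Sig.or
    (sig_nun hg hτ (hS.comp (Primrec.fst.comp Primrec.fst)) (by (repeat' (first | with_reducible exact prid | with_reducible refine prfst ?_ | with_reducible refine prsnd ?_ | with_reducible refine prpair ?_ ?_ | with_reducible exact prconst _)))) (Sig.of_prim
    (pbex (hW.comp (Primrec.fst.comp Primrec.fst)) (prim_ev hτ (by (repeat' (first | with_reducible exact prid | with_reducible refine prfst ?_ | with_reducible refine prsnd ?_ | with_reducible refine prpair ?_ ?_ | with_reducible exact prconst _)))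
      (Primrec.list_append.comp (by (repeat' (first | with_reducible exact prid | with_reducible refine prfst ?_ | with_reducible refine prsnd ?_ | with_reducible refine prpair ?_ ?_ | with_reducible exact prconst _))) (by (repeat' (first | with_reducible exact prid | with_reducible refine prfst ?_ | with_reducible refine prsnd ?_ | with_reducible refine prpair ?_ ?_ | with_reducible exact prconst _)))))))))

theorem sig_fa (hg : Subgroup.closure (Set.range g) = ⊤) (hτ : τ.Spec g) {S : α → List (Word n)}
    (hS : Primrec S) : Sig fun a => FiniteUnitsAtomic (Mon g (S a)) := by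
  unfold FiniteUnitsAtomic
  refine Sig.and ?_ ?_
  · refine Sig.of_eq ?_ fun a => (finite_units_iff hg (S a)).symm
    exact Sig.ex (p := fun a (W : List (Word n)) => Wc g (S a) W)
      (sig_Wc hg hτ (hS.comp Primrec.fst) Primrec.snd)
  · refine Sig.of_eq ?_ fun a => (atomic_iff_ex (S a)).symm
    refine Sig.ex (p := fun a (X : List (Word n)) => (∀ x ∈ X, Un g (S a) (ev g x) ∨ Irr g (S a) (ev g x)) ∧
      ∀ s ∈ S a, ev g s ∈ Mon g X) (Sig.and ?_ ?_)
    · exact Sig.ball (by (repeat' (first | with_reducible exact prid | with_reducible refine prfst ?_ | with_reducible refine prsnd ?_ | with_reducible refine prpair ?_ ?_ | with_reducible exact prconst _))) (Sig.or (sig_un hτ (hS.comp (Primrec.fst.comp Primrec.fst)) (by (repeat' (first | with_reducible exact prid | with_reducible refine prfst ?_ | with_reducible refine prsnd ?_ | with_reducible refine prpair ?_ ?_ | with_reducible exact prconst _))))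
        (sig_irr hg hτ (hS.comp (Primrec.fst.comp Primrec.fst)) (by (repeat' (first | with_reducible exact prid | with_reducible refine prfst ?_ | with_reducible refine prsnd ?_ | with_reducible refine prpair ?_ ?_ | with_reducible exact prconst _)))))
    · exact Sig.ball (hS.comp Primrec.fst) (sig_mem hτ (by (repeat' (first | with_reducible exact prid | with_reducible refine prfst ?_ | with_reducible refine prsnd ?_ | with_reducible refine prpair ?_ ?_ | with_reducible exact prconst _))) (by (repeat' (first | with_reducible exact prid | with_reducible refine prfst ?_ | with_reducible refine prsnd ?_ | with_reducible refine prpair ?_ ?_ | with_reducible exact prconst _))))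

theorem sig_nfa (hg : Subgroup.closure (Set.range g) = ⊤) (hτ : τ.Spec g)
    (hm : ∀ K : Subgroup G, Finite K → Nat.card K ≤ τ.m) {S : α → List (Word n)} (hS : Primrec S) :
    Sig fun a => ¬ FiniteUnitsAtomic (Mon g (S a)) := by
  have h1 : Sig fun a => (¬ Finite (Mon g (S a))ˣ) ∨
      ¬ Submonoid.closure {x : Mon g (S a) | IsUnit x ∨ Irreducible x} = ⊤ := by
    refine Sig.or ?_ ?_
    · refine Sig.of_eq ?_ fun a => (infinite_units_iff hg hm (S a)).symm
      refine Sig.ex (p := fun a (l : List (ℕ × Word n)) => (∀ a' ∈ l, Un g (S a) (ev g a'.2)) ∧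
        (∀ a ∈ l, ∀ b ∈ l, ev g a.2 = ev g b.2 → a.1 = b.1) ∧
        ∀ i ∈ List.range (τ.m + 1), ∃ a ∈ l, a.1 = i) (Sig.and ?_ (Sig.of_prim (PrimrecPred.and ?_ ?_)))
      · exact Sig.ball (by (repeat' (first | with_reducible exact prid | with_reducible refine prfst ?_ | with_reducible refine prsnd ?_ | with_reducible refine prpair ?_ ?_ | with_reducible exact prconst _))) (sig_un hτ (hS.comp (Primrec.fst.comp Primrec.fst)) (by (repeat' (first | with_reducible exact prid | with_reducible refine prfst ?_ | with_reducible refine prsnd ?_ | with_reducible refine prpair ?_ ?_ | with_reducible exact prconst _))))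
      · exact pball (by (repeat' (first | with_reducible exact prid | with_reducible refine prfst ?_ | with_reducible refine prsnd ?_ | with_reducible refine prpair ?_ ?_ | with_reducible exact prconst _))) (pball (by (repeat' (first | with_reducible exact prid | with_reducible refine prfst ?_ | with_reducible refine prsnd ?_ | with_reducible refine prpair ?_ ?_ | with_reducible exact prconst _))) (pimp (prim_ev hτ (by (repeat' (first | with_reducible exact prid | with_reducible refine prfst ?_ | with_reducible refine prsnd ?_ | with_reducible refine prpair ?_ ?_ | with_reducible exact prconst _))) (by (repeat' (first | with_reducible exact prid | with_reducible refine prfst ?_ | with_reducible refine prsnd ?_ | with_reducible refine prpair ?_ ?_ | with_reducible exact prconst _)))) (peq (by (repeat' (first | with_reducible exact prid | with_reducible refine prfst ?_ | with_reducible refine prsnd ?_ | with_reducible refine prpair ?_ ?_ | with_reducible exact prconst _))) (by (repeat' (first | with_reducible exact prid | with_reducible refine prfst ?_ | with_reducible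 refine prsnd ?_ | with_reducible refine prpair ?_ ?_ | with_reducible exact prconst _))))))
      · exact pball (by (repeat' (first | with_reducible exact prid | with_reducible refine prfst ?_ | with_reducible refine prsnd ?_ | with_reducible refine prpair ?_ ?_ | with_reducible exact prconst _))) (pbex (by (repeat' (first | with_reducible exact prid | with_reducible refine prfst ?_ | with_reducible refine prsnd ?_ | with_reducible refine prpair ?_ ?_ | with_reducible exact prconst _))) (peq (by (repeat' (first | with_reducible exact prid | with_reducible refine prfst ?_ | with_reducible refine prsnd ?_ | with_reducible refine prpair ?_ ?_ | with_reducible exact prconst _))) (by (repeat' (first | with_reducible exact prid | with_reducible refine prfst ?_ | with_reducible refine prsnd ?_ | with_reducible refine prpair ?_ ?_ | with_reducible exact prconst _)))))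
    · refine Sig.of_eq ?_ fun a => (not_atomic_iff_ex (S a)).symm
      refine Sig.ex (p := fun a (X : List (Word n)) => (∀ s ∈ S a, s ∈ X ∨
        (¬ Un g (S a) (ev g s) ∧ ¬ Irr g (S a) (ev g s))) ∧ ∃ s ∈ S a, ev g s ∉ Mon g X) (Sig.and ?_ ?_)
      · exact Sig.ball (hS.comp Primrec.fst) (Sig.or (Sig.of_prim (pmem (by (repeat' (first | with_reducible exact prid | with_reducible refine prfst ?_ | with_reducible refine prsnd ?_ | with_reducible refine prpair ?_ ?_ | with_reducible exact prconst _))) (by (repeat' (first | with_reducible exact prid | with_reducible refine prfst ?_ | with_reducible refine prsnd ?_ | with_reducible refine prpair ?_ ?_ | with_reducible exact prconst _)))))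
          (Sig.and (sig_nun hg hτ (hS.comp (Primrec.fst.comp Primrec.fst)) (by (repeat' (first | with_reducible exact prid | with_reducible refine prfst ?_ | with_reducible refine prsnd ?_ | with_reducible refine prpair ?_ ?_ | with_reducible exact prconst _))))
            (sig_nirr hg hτ (hS.comp (Primrec.fst.comp Primrec.fst)) (by (repeat' (first | with_reducible exact prid | with_reducible refine prfst ?_ | with_reducible refine prsnd ?_ | with_reducible refine prpair ?_ ?_ | with_reducible exact prconst _))))))
      · exact Sig.bex (hS.comp Primrec.fst) (sig_nmem hg hτ (by (repeat' (first | with_reducible exact prid | with_reducible refine prfst ?_ | with_reducible refine prsnd ?_ | with_reducible refine prpair ?_ ?_ | with_reducible exact prconst _))) (by (repeat' (first | with_reducible exact prid | with_reducible refine prfst ?_ | with_reducible refine prsnd ?_ | with_reducible refine prpair ?_ ?_ | with_reducible exact prconst _))))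
  refine h1.of_eq fun a => ?_
  unfold FiniteUnitsAtomic
  tauto

end

end Pool.MP_247aa4_al
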