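import Pool.Agent.Lib_MP_247aa4.Prim

/-!
# MP_247aa4_al: flower automata, homomorphisms and isomorphisms
-/

set_option autoImplicit false

namespace Pool.MP_247aa4_al

section

variable {G : Type} [Group G] {n : ℕ} {g : Fin n → G} {T : List (Tr n)}

theorem RunW.append {q q1 q2 : ℕ} {W W' : Word n} {o o' : G} (h : RunW g T q W o q1)
    (h' : RunW g T q1 W' o' q2) : RunW g T q (W ++ W') (o * o') q2 := by
  induction h with
  | nil q => simpa using h'
  | cons ht _ ih =>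
    rw [List.append_assoc, mul_assoc]
    exact RunW.cons ht (ih h')

theorem RunW.single {q q1 : ℕ} {w t : Word n} (ht : (q, w, t, q1) ∈ T) :
    RunW g T q w (ev g t) q1 := by
  have := RunW.cons ht (RunW.nil (g := g) q1)
  rwa [List.append_nil, mul_one] at this

variable (g)

/-- the relation generated by a list of pairs -/
def KK (L : List (Word n × Word n)) : Submonoid (G × G) :=
  Submonoid.closure {z | ∃ p ∈ L, z = (ev g p.1, ev g p.2)}

variable {g}

theorem mem_KK_of_run {L : List (Word n × Word n)} {q q' : ℕ} {W : Word n} {o : G}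
    (h : RunW g (fl L) q W o q') : (ev g W, o) ∈ KK g L := by
  induction h with
  | nil q => exact one_mem _
  | @cons q q1 q2 w t W o ht _ ih =>
    unfold fl at ht
    rw [List.mem_map] at ht
    obtain ⟨p, hp, hpe⟩ := ht
    simp only [Prod.mk.injEq] at hpe
    obtain ⟨_, rfl, rfl, _⟩ := hpe
    rw [ev_append]
    have h1 : (ev g p.1, ev g p.2) ∈ KK g L := Submonoid.subset_closure ⟨p, hp, rfl⟩
    exact mul_mem h1 ih

theorem run_of_mem_KK {L : List (Word n × Word n)} {z : G × G} (h : z ∈ KK g L) :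
    ∃ W, RunW g (fl L) 0 W z.2 0 ∧ ev g W = z.1 := by
  unfold KK at h
  induction h using Submonoid.closure_induction with
  | mem z hz =>
    obtain ⟨p, hp, rfl⟩ := hz
    have h1 : ((0, p.1, p.2, 0) : Tr n) ∈ fl L := List.mem_map.2 ⟨p, hp, rfl⟩
    exact ⟨p.1, RunW.single h1, rfl⟩
  | one => exact ⟨[], RunW.nil 0, rfl⟩
  | mul x y _ _ hx hy =>
    obtain ⟨W, h1, h2⟩ := hx
    obtain ⟨W', h1', h2'⟩ := hy
    exact ⟨W ++ W', h1.append h1', by rw [ev_append, h2, h2']; rfl⟩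

theorem ok_fl_iff_KK (L : List (Word n × Word n)) :
    OK g (fl L) 0 0 0 0 True ↔ ∀ x y y', (x, y) ∈ KK g L → (x, y') ∈ KK g L → y = y' := by
  constructor
  · intro h x y y' h1 h2
    obtain ⟨W, hW, hx⟩ := run_of_mem_KK h1
    obtain ⟨W', hW', hx'⟩ := run_of_mem_KK h2
    exact (h W W' _ _ hW hW' (hx.trans hx'.symm)).2
  · intro h W W' o o' hW hW' he
    have h1 := mem_KK_of_run hW
    have h2 := mem_KK_of_run hW'
    rw [he] at h1
    exact ⟨trivial, h _ _ _ h1 h2⟩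

theorem map_fst_KK (L : List (Word n × Word n)) :
    (KK g L).map (MonoidHom.fst G G) = Mon g (L.map Prod.fst) := by
  unfold KK Mon
  rw [MonoidHom.map_mclosure]
  congr 1
  ext x
  simp only [Set.mem_image, Set.mem_ofPred_eq, List.mem_map, Prod.exists, exists_and_right, exists_eq_right]
  constructor
  · rintro ⟨a, b, ⟨⟨p, q, hp, he⟩, rfl⟩⟩
    simp only [Prod.mk.injEq] at he
    obtain ⟨rfl, rfl⟩ := he
    exact ⟨p, ⟨q, hp⟩, rfl⟩
  · rintro ⟨w, ⟨q, hp⟩, rfl⟩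
    exact ⟨ev g w, ev g q, ⟨w, q, hp, rfl⟩, rfl⟩

theorem map_snd_KK (L : List (Word n × Word n)) :
    (KK g L).map (MonoidHom.snd G G) = Mon g (L.map Prod.snd) := by
  unfold KK Mon
  rw [MonoidHom.map_mclosure]
  congr 1
  ext x
  simp only [Set.mem_image, Set.mem_ofPred_eq, List.mem_map, Prod.exists, exists_eq_right]
  constructor
  · rintro ⟨a, b, ⟨⟨p, q, hp, he⟩, rfl⟩⟩
    simp only [Prod.mk.injEq] at he
    obtain ⟨rfl, rfl⟩ := he
    exact ⟨q, ⟨p, hp⟩, rfl⟩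
  · rintro ⟨w, ⟨p, hp⟩, rfl⟩
    exact ⟨ev g p, ev g w, ⟨p, w, hp, rfl⟩, rfl⟩

theorem KK_swap (L : List (Word n × Word n)) (x y : G) :
    (x, y) ∈ KK g (L.map Prod.swap) ↔ (y, x) ∈ KK g L := by
  have h1 : ∀ L : List (Word n × Word n), ∀ z ∈ KK g (L.map Prod.swap), z.swap ∈ KK g L := by
    intro L z hz
    unfold KK at hz
    induction hz using Submonoid.closure_induction with
    | mem z hz =>
      obtain ⟨p, hp, rfl⟩ := hz
      rw [List.mem_map] at hp
      obtain ⟨q, hq, rfl⟩ := hp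
      exact Submonoid.subset_closure ⟨q, hq, rfl⟩
    | one => exact one_mem _
    | mul x y _ _ hx hy => exact mul_mem hx hy
  constructor
  · intro h
    exact h1 L _ h
  · intro h
    have h2 : (L.map Prod.swap).map Prod.swap = L := by
      rw [List.map_map]
      simp
    have h3 := h1 (L.map Prod.swap) (y, x) (by rw [h2]; exact h)
    exact h3

/-- projection of a submonoid of `G × G` -/
private theorem equiv_of_fst (K : Submonoid (G × G)) (M : Submonoid G)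
    (hM : K.map (MonoidHom.fst G G) = M) (hK : ∀ x y y', (x, y) ∈ K → (x, y') ∈ K → y = y') :
    Nonempty (K ≃* M) := by
  have h1 : ∀ z : K, (MonoidHom.fst G G) (z : G × G) ∈ M := fun z => by
    rw [← hM]
    exact ⟨z, z.2, rfl⟩
  refine ⟨MulEquiv.ofBijective (((MonoidHom.fst G G).comp K.subtype).codRestrict M h1) ⟨?_, ?_⟩⟩
  · rintro ⟨⟨x, y⟩, h⟩ ⟨⟨x', y'⟩, h'⟩ he
    have h2 : x = x' := congrArg Subtype.val he
    subst h2
    have h3 := hK x y y' h h'
    subst h3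
    rfl
  · rintro ⟨x, hx⟩
    rw [← hM] at hx
    obtain ⟨z, hz, rfl⟩ := hx
    exact ⟨⟨z, hz⟩, rfl⟩

private theorem equiv_of_snd (K : Submonoid (G × G)) (M : Submonoid G)
    (hM : K.map (MonoidHom.snd G G) = M) (hK : ∀ x x' y, (x, y) ∈ K → (x', y) ∈ K → x = x') :
    Nonempty (K ≃* M) := by
  have h1 : ∀ z : K, (MonoidHom.snd G G) (z : G × G) ∈ M := fun z => by
    rw [← hM]
    exact ⟨z, z.2, rfl⟩
  refine ⟨MulEquiv.ofBijective (((MonoidHom.snd G G).comp K.subtype).codRestrict M h1) ⟨?_, ?_⟩⟩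
  · rintro ⟨⟨x, y⟩, h⟩ ⟨⟨x', y'⟩, h'⟩ he
    have h2 : y = y' := congrArg Subtype.val he
    subst h2
    have h3 := hK x x' y h h'
    subst h3
    rfl
  · rintro ⟨x, hx⟩
    rw [← hM] at hx
    obtain ⟨z, hz, rfl⟩ := hx
    exact ⟨⟨z, hz⟩, rfl⟩

/-- correspondences of generators give isomorphisms -/
theorem iso_of_ok (L : List (Word n × Word n)) (h1 : OK g (fl L) 0 0 0 0 True)
    (h2 : OK g (fl (L.map Prod.swap)) 0 0 0 0 True) :
    Nonempty (Mon g (L.map Prod.fst) ≃* Mon g (L.map Prod.snd)) := by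
  rw [ok_fl_iff_KK] at h1 h2
  obtain ⟨e⟩ := equiv_of_fst (KK g L) _ (map_fst_KK L) h1
  obtain ⟨e'⟩ := equiv_of_snd (KK g L) _ (map_snd_KK L) fun x x' y h h' =>
    h2 y x x' ((KK_swap L y x).2 h) ((KK_swap L y x').2 h')
  exact ⟨e.symm.trans e'⟩

theorem mem_Mon {S : List (Word n)} {w : Word n} (h : w ∈ S) : ev g w ∈ Mon g S :=
  Submonoid.subset_closure ⟨w, h, rfl⟩

theorem Mon_le {S : List (Word n)} {M : Submonoid G} (h : ∀ w ∈ S, ev g w ∈ M) : Mon g S ≤ M :=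
  Submonoid.closure_le.2 (by rintro _ ⟨w, hw, rfl⟩; exact h w hw)

/-- the graph of a homomorphism -/
def Gr {M N : Submonoid G} (φ : M →* N) : Submonoid (G × G) where
  carrier := {z | ∃ h : z.1 ∈ M, (φ ⟨z.1, h⟩ : G) = z.2}
  one_mem' := ⟨one_mem _, by
    have h1 : (⟨1, one_mem M⟩ : M) = 1 := rfl
    change ((φ ⟨1, one_mem M⟩ : N) : G) = 1
    rw [h1, map_one]
    rfl⟩
  mul_mem' := by
    rintro x y ⟨hx, hx'⟩ ⟨hy, hy'⟩
    refine ⟨mul_mem hx hy, ?_⟩
    have h1 : (⟨(x * y).1, mul_mem hx hy⟩ : M) = ⟨x.1, hx⟩ * ⟨y.1, hy⟩ := rfl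
    rw [h1, map_mul, Submonoid.coe_mul, hx', hy']
    rfl

theorem KK_le_Gr {M N : Submonoid G} (φ : M →* N) (L : List (Word n × Word n))
    (h : ∀ p ∈ L, ∃ hp : ev g p.1 ∈ M, (φ ⟨ev g p.1, hp⟩ : G) = ev g p.2) : KK g L ≤ Gr φ :=
  Submonoid.closure_le.2 (by rintro _ ⟨p, hp, rfl⟩; exact h p hp)

/-- a list of pairs in the graph of a homomorphism is a correct flower -/
theorem ok_of_hom {M N : Submonoid G} (φ : M →* N) (L : List (Word n × Word n))
    (h : ∀ p ∈ L, ∃ hp : ev g p.1 ∈ M, (φ ⟨ev g p.1, hp⟩ : G) = ev g p.2) :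
    OK g (fl L) 0 0 0 0 True := by
  rw [ok_fl_iff_KK]
  intro x y y' h1 h2
  obtain ⟨h3, h4⟩ := KK_le_Gr φ L h h1
  obtain ⟨h5, h6⟩ := KK_le_Gr φ L h h2
  exact h4.symm.trans h6

theorem ok_of_inj {M N : Submonoid G} (φ : M →* N) (hφ : Function.Injective φ)
    (L : List (Word n × Word n))
    (h : ∀ p ∈ L, ∃ hp : ev g p.1 ∈ M, (φ ⟨ev g p.1, hp⟩ : G) = ev g p.2) :
    OK g (fl (L.map Prod.swap)) 0 0 0 0 True := by
  rw [ok_fl_iff_KK]
  intro x y y' h1 h2
  rw [KK_swap] at h1 h2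
  obtain ⟨h3, h4⟩ := KK_le_Gr φ L h h1
  obtain ⟨h5, h6⟩ := KK_le_Gr φ L h h2
  have h7 : φ ⟨y, h3⟩ = φ ⟨y', h5⟩ := Subtype.ext (h4.trans h6.symm)
  exact congrArg Subtype.val (hφ h7)

/-- extension of maps between generators to homomorphisms -/
theorem ok_iff_hom (L : List (Word n × Word n)) :
    OK g (fl L) 0 0 0 0 True ↔ ∃ φ : Mon g (L.map Prod.fst) →* Mon g (L.map Prod.snd),
      ∀ p (hp : p ∈ L), φ ⟨ev g p.1, mem_Mon (List.mem_map.2 ⟨p, hp, rfl⟩)⟩ =
        ⟨ev g p.2, mem_Mon (List.mem_map.2 ⟨p, hp, rfl⟩)⟩ := by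
  constructor
  · intro h
    have h' := h
    rw [ok_fl_iff_KK] at h
    obtain ⟨e⟩ := equiv_of_fst (KK g L) _ (map_fst_KK L) h
    have h1 : ∀ z : Mon g (L.map Prod.fst), ∃ y, ((z : G), y) ∈ KK g L := by
      rintro ⟨x, hx⟩
      rw [← map_fst_KK] at hx
      obtain ⟨⟨a, b⟩, hz, rfl⟩ := hx
      exact ⟨b, hz⟩
    choose f hf using h1
    have h2 : ∀ z, f z ∈ Mon g (L.map Prod.snd) := fun z => by
      rw [← map_snd_KK]
      exact ⟨_, hf z, rfl⟩
    refine ⟨{ toFun := fun z => ⟨f z, h2 z⟩, map_one' := ?_, map_mul' := ?_ }, ?_⟩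
    · exact Subtype.ext (h _ _ _ (hf 1) (one_mem _))
    · intro x y
      exact Subtype.ext (h _ _ _ (hf (x * y)) (mul_mem (hf x) (hf y)))
    · intro p hp
      exact Subtype.ext (h _ _ _ (hf _) (Submonoid.subset_closure ⟨p, hp, rfl⟩))
  · rintro ⟨φ, hφ⟩
    exact ok_of_hom φ L fun p hp => ⟨mem_Mon (List.mem_map.2 ⟨p, hp, rfl⟩), congrArg Subtype.val (hφ p hp)⟩

/-- isomorphism in terms of finite correspondences -/
theorem iso_iff (hg : Subgroup.closure (Set.range g) = ⊤) (S T : List (Word n)) :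
    Nonempty (Mon g S ≃* Mon g T) ↔ ∃ L : List (Word n × Word n),
      (∀ p ∈ L, ev g p.1 ∈ Mon g S ∧ ev g p.2 ∈ Mon g T) ∧ (∀ s ∈ S, ∃ p ∈ L, ev g p.1 = ev g s) ∧
      (∀ t ∈ T, ∃ p ∈ L, ev g p.2 = ev g t) ∧ OK g (fl L) 0 0 0 0 True ∧
      OK g (fl (L.map Prod.swap)) 0 0 0 0 True := by
  classical
  constructor
  · rintro ⟨e⟩
    choose wd hwd using exists_word g hg
    let f : Word n → Word n := fun w => if h : ev g w ∈ Mon g S then wd (e ⟨ev g w, h⟩) else []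
    let f' : Word n → Word n := fun w => if h : ev g w ∈ Mon g T then wd (e.symm ⟨ev g w, h⟩) else []
    let L : List (Word n × Word n) := (S.map fun s => (s, f s)) ++ T.map fun t => (f' t, t)
    have hL : ∀ p ∈ L, ∃ hp : ev g p.1 ∈ Mon g S, ((e.toMonoidHom ⟨ev g p.1, hp⟩ : Mon g T) : G) = ev g p.2 := by
      intro p hp
      rcases List.mem_append.1 hp with hp | hp
      · obtain ⟨s, hs, rfl⟩ := List.mem_map.1 hp
        refine ⟨mem_Mon hs, ?_⟩
        have h1 : f s = wd (e ⟨ev g s, mem_Mon hs⟩) := dif_pos (mem_Mon hs)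
        change ((e ⟨ev g s, mem_Mon hs⟩ : Mon g T) : G) = ev g (f s)
        rw [h1, hwd]
      · obtain ⟨t, ht, rfl⟩ := List.mem_map.1 hp
        have h1 : f' t = wd (e.symm ⟨ev g t, mem_Mon ht⟩) := dif_pos (mem_Mon ht)
        have h2 : ev g (f' t) = (e.symm ⟨ev g t, mem_Mon ht⟩ : Mon g S) := by rw [h1, hwd]
        refine ⟨by change ev g (f' t) ∈ _; rw [h2]; exact Subtype.mem _, ?_⟩
        change ((e ⟨ev g (f' t), _⟩ : Mon g T) : G) = ev g t
        have h3 : (⟨ev g (f' t), by rw [h2]; exact Subtype.mem _⟩ : Mon g S) =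
            e.symm ⟨ev g t, mem_Mon ht⟩ := Subtype.ext h2
        rw [h3, e.apply_symm_apply]
    refine ⟨L, ?_, ?_, ?_, ok_of_hom e.toMonoidHom L hL, ok_of_inj e.toMonoidHom e.injective L hL⟩
    · intro p hp
      obtain ⟨h1, h2⟩ := hL p hp
      exact ⟨h1, by rw [← h2]; exact Subtype.mem _⟩
    · intro s hs
      exact ⟨_, List.mem_append.2 (Or.inl (List.mem_map.2 ⟨s, hs, rfl⟩)), rfl⟩
    · intro t ht
      exact ⟨_, List.mem_append.2 (Or.inr (List.mem_map.2 ⟨t, ht, rfl⟩)), rfl⟩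
  · rintro ⟨L, h1, h2, h3, h4, h5⟩
    have hS : Mon g (L.map Prod.fst) = Mon g S := by
      apply le_antisymm
      · refine Mon_le fun w hw => ?_
        obtain ⟨p, hp, rfl⟩ := List.mem_map.1 hw
        exact (h1 p hp).1
      · refine Mon_le fun s hs => ?_
        obtain ⟨p, hp, he⟩ := h2 s hs
        rw [← he]
        exact mem_Mon (List.mem_map.2 ⟨p, hp, rfl⟩)
    have hT : Mon g (L.map Prod.snd) = Mon g T := by
      apply le_antisymm
      · refine Mon_le fun w hw => ?_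
        obtain ⟨p, hp, rfl⟩ := List.mem_map.1 hw
        exact (h1 p hp).2
      · refine Mon_le fun s hs => ?_
        obtain ⟨p, hp, he⟩ := h3 s hs
        rw [← he]
        exact mem_Mon (List.mem_map.2 ⟨p, hp, rfl⟩)
    have h6 := iso_of_ok L h4 h5
    rwa [hS, hT] at h6

end

end Pool.MP_247aa4_al
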