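import Mathlib

/-!
# MP_247aa4_al: labelled graphs with outputs

Paths, paths with trivial label (`D`), decompositions of paths along the reduced label (`Dec`), pairs of
paths with the same reduced label (`Pr`).
-/

set_option autoImplicit false

namespace Pool.MP_247aa4_al

/-- letters of the free group -/
abbrev Ltr := ℕ × Bool

/-- inverse letter -/
def linv (x : Ltr) : Ltr := (x.1, !x.2)

theorem linv_linv (x : Ltr) : linv (linv x) = x := by
  rcases x with ⟨a, b⟩
  simp [linv]

section

variable {V O : Type} [Group O] (E : V → Option Ltr → O → V → Prop)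

/-- paths with label and output -/
inductive Path : V → List Ltr → O → V → Prop
  | nil (v : V) : Path v [] 1 v
  | eps {u v z : V} {w : List Ltr} {o o' : O} : E u none o v → Path v w o' z → Path u w (o * o') z
  | letter {u v z : V} {x : Ltr} {w : List Ltr} {o o' : O} : E u (some x) o v → Path v w o' z →
      Path u (x :: w) (o * o') z

/-- there is a path with trivial label -/
inductive D : V → V → O → Prop
  | refl (v : V) : D v v 1
  | eps {u v z : V} {o o' : O} : E u none o v → D v z o' → D u z (o * o')
  | pair {u u1 u2 u3 v : V} {x : Ltr} {o1 o2 o3 o4 : O} : E u (some x) o1 u1 → D u1 u2 o2 →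
      E u2 (some (linv x)) o3 u3 → D u3 v o4 → D u v (o1 * (o2 * o3) * o4)

/-- decomposition along a word -/
inductive Dec : V → List Ltr → V → O → Prop
  | base {u v : V} {o : O} : D E u v o → Dec u [] v o
  | step {u u1 u2 v : V} {x : Ltr} {w : List Ltr} {o1 o2 o3 : O} : D E u u1 o1 →
      E u1 (some x) o2 u2 → Dec u2 w v o3 → Dec u (x :: w) v (o1 * o2 * o3)

variable {E}

theorem Path.append {u v z : V} {w w' : List Ltr} {o o' : O} (h : Path E u w o v)
    (h' : Path E v w' o' z) : Path E u (w ++ w') (o * o') z := by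
  induction h with
  | nil v => simpa using h'
  | eps he _ ih => rw [mul_assoc]; exact Path.eps he (ih h')
  | letter he _ ih => rw [mul_assoc]; exact Path.letter he (ih h')

theorem Path.single {u v : V} {x : Ltr} {o : O} (h : E u (some x) o v) : Path E u [x] o v := by
  have := Path.letter h (Path.nil v)
  rwa [mul_one] at this

theorem D.path {u v : V} {o : O} (h : D E u v o) :
    ∃ L, Path E u L o v ∧ FreeGroup.mk L = 1 := by
  induction h with
  | refl v => exact ⟨[], Path.nil v, rfl⟩
  | eps he _ ih =>
    obtain ⟨L, hL, h1⟩ := ih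
    exact ⟨L, Path.eps he hL, h1⟩
  | @pair u u1 u2 u3 v x o1 o2 o3 o4 he _ he' _ ih ih' =>
    obtain ⟨L, hL, h1⟩ := ih
    obtain ⟨L', hL', h1'⟩ := ih'
    refine ⟨[x] ++ (L ++ [linv x]) ++ L', ((Path.single he).append
      (hL.append (Path.single he'))).append hL', ?_⟩
    rw [← FreeGroup.mul_mk, ← FreeGroup.mul_mk, ← FreeGroup.mul_mk, h1, h1', one_mul, mul_one,
      FreeGroup.mul_mk]
    have h2 : FreeGroup.Red.Step ([x] ++ [linv x]) [] := by
      have := @FreeGroup.Red.Step.cons_not ℕ [] x.1 x.2
      exact this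
    rw [FreeGroup.one_eq_mk]
    exact Quot.sound h2

theorem Dec.eps {u u' v : V} {w : List Ltr} {o o' : O} (he : E u none o u')
    (h : Dec E u' w v o') : Dec E u w v (o * o') := by
  cases h with
  | base hd => exact Dec.base (D.eps he hd)
  | step hd he' h => rw [← mul_assoc, ← mul_assoc]; exact Dec.step (D.eps he hd) he' h

theorem Dec.pair {u u1 u2 u3 v : V} {x : Ltr} {w : List Ltr} {o1 o2 o3 o4 : O}
    (h1 : E u (some x) o1 u1) (h2 : D E u1 u2 o2) (h3 : E u2 (some (linv x)) o3 u3)
    (h : Dec E u3 w v o4) : Dec E u w v (o1 * (o2 * o3) * o4) := by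
  cases h with
  | base hd => exact Dec.base (D.pair h1 h2 h3 hd)
  | step hd he' h => rw [← mul_assoc, ← mul_assoc]; exact Dec.step (D.pair h1 h2 h3 hd) he' h

theorem Path.dec {u v : V} {L : List Ltr} {o : O} (h : Path E u L o v) :
    Dec E u (FreeGroup.reduce L) v o := by
  induction h with
  | nil v => exact Dec.base (D.refl v)
  | eps he _ ih => exact ih.eps he
  | @letter u v z x w o o' he _ ih =>
    rw [FreeGroup.reduce.cons]
    cases hr : FreeGroup.reduce w with
    | nil =>
      rw [hr] at ih
      have := Dec.step (D.refl u) he ih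
      rw [one_mul] at this
      exact this
    | cons y r =>
      rw [hr] at ih
      simp only
      split_ifs with hy
      · have hxy : y = linv x := by
          rcases x with ⟨a, b⟩
          rcases y with ⟨c, d⟩
          simp only at hy
          obtain ⟨rfl, rfl⟩ := hy
          simp [linv]
        subst hxy
        cases ih with
        | @step _ u1 u2 _ _ _ o1 o2 o3 hd he' h =>
          have := Dec.pair he hd he' h
          rwa [mul_assoc] at this
      · have := Dec.step (D.refl u) he ih
        rw [one_mul] at this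
        exact this

variable (E) in
/-- pairs of paths with the same reduced label to a pair of vertices in `F` -/
inductive Pr (F : V → V → Prop) : V → V → O → O → Prop
  | base {u u' f f' : V} {o o' : O} : D E u f o → D E u' f' o' → F f f' → Pr F u u' o o'
  | step {u u1 u2 u' u1' u2' : V} {x : Ltr} {o1 o2 o3 o1' o2' o3' : O} : D E u u1 o1 →
      E u1 (some x) o2 u2 → D E u' u1' o1' → E u1' (some x) o2' u2' → Pr F u2 u2' o3 o3' →
      Pr F u u' (o1 * o2 * o3) (o1' * o2' * o3')

theorem Pr.of_dec {F : V → V → Prop} {u u' f f' : V} {w : List Ltr} {o o' : O}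
    (h : Dec E u w f o) (h' : Dec E u' w f' o') (hF : F f f') : Pr E F u u' o o' := by
  induction w generalizing u u' o o' with
  | nil =>
    cases h with
    | base hd =>
      cases h' with
      | base hd' => exact Pr.base hd hd' hF
  | cons x w ih =>
    cases h with
    | step hd he h =>
      cases h' with
      | step hd' he' h' => exact Pr.step hd he hd' he' (ih h h')

theorem Pr.of_path {F : V → V → Prop} {u u' f f' : V} {L L' : List Ltr} {o o' : O}
    (h : Path E u L o f) (h' : Path E u' L' o' f') (hL : FreeGroup.mk L = FreeGroup.mk L')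
    (hF : F f f') : Pr E F u u' o o' := by
  have h1 : FreeGroup.reduce L = FreeGroup.reduce L' := FreeGroup.reduce.sound hL
  have h2 := h'.dec
  rw [← h1] at h2
  exact Pr.of_dec h.dec h2 hF

theorem Pr.path {F : V → V → Prop} {u u' : V} {o o' : O} (h : Pr E F u u' o o') :
    ∃ f f' L L', Path E u L o f ∧ Path E u' L' o' f' ∧ FreeGroup.mk L = FreeGroup.mk L' ∧
      F f f' := by
  induction h with
  | base hd hd' hF =>
    obtain ⟨L, hL, h1⟩ := hd.path
    obtain ⟨L', hL', h1'⟩ := hd'.path
    exact ⟨_, _, L, L', hL, hL', h1.trans h1'.symm, hF⟩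
  | @step u u1 u2 u' u1' u2' x o1 o2 o3 o1' o2' o3' hd he hd' he' _ ih =>
    obtain ⟨L, hL, h1⟩ := hd.path
    obtain ⟨L', hL', h1'⟩ := hd'.path
    obtain ⟨f, f', M, M', hM, hM', hMM, hF⟩ := ih
    refine ⟨f, f', L ++ [x] ++ M, L' ++ [x] ++ M', (hL.append (Path.single he)).append hM,
      (hL'.append (Path.single he')).append hM', ?_, hF⟩
    rw [← FreeGroup.mul_mk, ← FreeGroup.mul_mk, ← FreeGroup.mul_mk, ← FreeGroup.mul_mk, h1, h1',
      hMM]

variable (E) in
/-- pairs of vertices reached from `(v0, v0')` by paths with the same reduced label -/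
inductive Pre (v0 v0' : V) : V → V → O → O → Prop
  | base : Pre v0 v0' v0 v0' 1 1
  | step {u u1 u2 u' u1' u2' : V} {x : Ltr} {o1 o2 o1' o2' o3 o3' : O} : Pre v0 v0' u u' o3 o3' →
      D E u u1 o1 → E u1 (some x) o2 u2 → D E u' u1' o1' → E u1' (some x) o2' u2' →
      Pre v0 v0' u2 u2' (o3 * (o1 * o2)) (o3' * (o1' * o2'))

theorem Pre.path {v0 v0' u u' : V} {o o' : O} (h : Pre E v0 v0' u u' o o') :
    ∃ L L', Path E v0 L o u ∧ Path E v0' L' o' u' ∧ FreeGroup.mk L = FreeGroup.mk L' := by
  induction h with
  | base => exact ⟨[], [], Path.nil _, Path.nil _, rfl⟩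
  | @step u u1 u2 u' u1' u2' x o1 o2 o1' o2' o3 o3' _ hd he hd' he' ih =>
    obtain ⟨M, M', hM, hM', hMM⟩ := ih
    obtain ⟨L, hL, h1⟩ := hd.path
    obtain ⟨L', hL', h1'⟩ := hd'.path
    refine ⟨M ++ (L ++ [x]), M' ++ (L' ++ [x]), hM.append (hL.append (Path.single he)),
      hM'.append (hL'.append (Path.single he')), ?_⟩
    rw [← FreeGroup.mul_mk, ← FreeGroup.mul_mk, ← FreeGroup.mul_mk, ← FreeGroup.mul_mk, h1, h1',
      hMM]

end

end Pool.MP_247aa4_al
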