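import Pool.Agent.Lib_MP_247aa4.FA

/-!
# MP_247aa4_al: nonisomorphism of atomic submonoids with finitely many units
-/

set_option autoImplicit false
set_option linter.unusedTactic false

namespace Pool.MP_247aa4_al

/-- all maps from the list `X` to the list `Y`, as lists of pairs -/
def allMaps {A B : Type} (X : List A) (Y : List B) : List (List (A × B)) :=
  X.foldr (fun x acc => acc.flatMap fun L => Y.map fun y => (x, y) :: L) [[]]

theorem mem_allMaps {A B : Type} (X : List A) (Y : List B) (L : List (A × B)) :
    L ∈ allMaps X Y ↔ L.map Prod.fst = X ∧ ∀ p ∈ L, p.2 ∈ Y := by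
  unfold allMaps
  induction X generalizing L with
  | nil =>
    simp only [List.foldr_nil, List.mem_singleton, List.map_eq_nil_iff]
    constructor
    · rintro rfl
      simp
    · exact fun h => h.1
  | cons x X ih =>
    rw [List.foldr_cons, List.mem_flatMap]
    constructor
    · rintro ⟨L', hL', h⟩
      obtain ⟨y, hy, rfl⟩ := List.mem_map.1 h
      obtain ⟨h1, h2⟩ := (ih L').1 hL'
      refine ⟨by rw [List.map_cons, h1], fun p hp => ?_⟩
      rcases List.mem_cons.1 hp with rfl | hp
      · exact hy
      · exact h2 p hp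
    · rintro ⟨h1, h2⟩
      cases L with
      | nil => simp at h1
      | cons p L' =>
        rw [List.map_cons, List.cons.injEq] at h1
        obtain ⟨rfl, h1⟩ := h1
        exact ⟨L', (ih L').2 ⟨h1, fun q hq => h2 q (List.mem_cons_of_mem _ hq)⟩,
          List.mem_map.2 ⟨p.2, h2 p List.mem_cons_self, rfl⟩⟩

section

variable {G : Type} [Group G] {n : ℕ} {g : Fin n → G} {τ : Tdc n} {α : Type} [Primcodable α]

/-- candidates for the units and the irreducible elements -/
def YY (T W : List (Word n)) : List (Word n) :=
  W ++ W.flatMap fun u => T.flatMap fun t => W.map fun v => u ++ (t ++ v)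

theorem YY_complete {T W : List (Word n)} (hW : Wc g T W) {x : G} (hx : x ∈ Mon g T)
    (h : Un g T x ∨ Irr g T x) : ∃ y ∈ YY T W, ev g y = x := by
  unfold YY
  rcases h with h | h
  · obtain ⟨w, hw, he⟩ := hW.un hx h
    exact ⟨w, List.mem_append.2 (Or.inl hw), he⟩
  · obtain ⟨u, hu, s, hs, v, hv, rfl⟩ := irr_letter hx h
    obtain ⟨w, hw, rfl⟩ := hW.un hu.1 hu
    obtain ⟨w', hw', rfl⟩ := hW.un hv.1 hv
    refine ⟨w ++ (s ++ w'), List.mem_append.2 (Or.inr (List.mem_flatMap.2 ⟨w, hw,
      List.mem_flatMap.2 ⟨s, hs, List.mem_map.2 ⟨w', hw', rfl⟩⟩⟩)), ?_⟩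
    rw [ev_append, ev_append, mul_assoc]

theorem YY_mem {T W : List (Word n)} (hW : ∀ w ∈ W, ev g w ∈ Mon g T) : ∀ y ∈ YY T W, ev g y ∈ Mon g T := by
  intro y hy
  unfold YY at hy
  rcases List.mem_append.1 hy with hy | hy
  · exact hW y hy
  · obtain ⟨u, hu, hy⟩ := List.mem_flatMap.1 hy
    obtain ⟨t, ht, hy⟩ := List.mem_flatMap.1 hy
    obtain ⟨v, hv, rfl⟩ := List.mem_map.1 hy
    rw [ev_append, ev_append]
    exact mul_mem (hW u hu) (mul_mem (mem_Mon ht) (hW v hv))

/-- certificates for nonisomorphism -/
def NI (g : Fin n → G) (S T X W : List (Word n)) : Prop :=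
  (∀ x ∈ X, Un g S (ev g x) ∨ Irr g S (ev g x)) ∧ (∀ s ∈ S, ev g s ∈ Mon g X) ∧ Wc g T W ∧
    ∀ L ∈ allMaps X (YY T W), (¬ OK g (fl L) 0 0 0 0 True) ∨
      (¬ OK g (fl (L.map Prod.swap)) 0 0 0 0 True) ∨ ∃ t ∈ T, ev g t ∉ Mon g (L.map Prod.snd)

private theorem un_map {S T : List (Word n)} (e : Mon g S ≃* Mon g T) (x : Mon g S) (h : Un g S (x : G)) :
    Un g T (e x : G) := by
  rw [← isUnit_iff] at h ⊢
  exact h.map e

private theorem irr_map {S T : List (Word n)} (e : Mon g S ≃* Mon g T) (x : Mon g S) (h : Irr g S (x : G)) :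
    Irr g T (e x : G) := by
  rw [← irreducible_iff'] at h ⊢
  exact (MulEquiv.irreducible_iff e).2 h

/-- soundness of the certificates for nonisomorphism -/
theorem NI.sound {S T X W : List (Word n)} (h : NI g S T X W) : ¬ Nonempty (Mon g S ≃* Mon g T) := by
  classical
  rintro ⟨e⟩
  obtain ⟨h1, h2, h3, h4⟩ := h
  have hXS : Mon g X = Mon g S := by
    apply le_antisymm
    · refine Mon_le fun x hx => ?_
      rcases h1 x hx with h | h
      · exact h.1
      · exact h.1
    · exact Mon_le h2
  have hX : ∀ x ∈ X, ∃ hx : ev g x ∈ Mon g S, ∃ y ∈ YY T W, ev g y = (e ⟨ev g x, hx⟩ : Mon g T) := by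
    intro x hx
    rcases h1 x hx with h | h
    · exact ⟨h.1, YY_complete h3 (Subtype.mem _) (Or.inl (un_map e ⟨ev g x, h.1⟩ h))⟩
    · exact ⟨h.1, YY_complete h3 (Subtype.mem _) (Or.inr (irr_map e ⟨ev g x, h.1⟩ h))⟩
  -- the map given by the isomorphism
  have hL : ∀ X : List (Word n), (∀ x ∈ X, ∃ hx : ev g x ∈ Mon g S, ∃ y ∈ YY T W,
      ev g y = (e ⟨ev g x, hx⟩ : Mon g T)) → ∃ L : List (Word n × Word n), L.map Prod.fst = X ∧
        (∀ p ∈ L, p.2 ∈ YY T W) ∧
        ∀ p ∈ L, ∃ hp : ev g p.1 ∈ Mon g S, ((e.toMonoidHom ⟨ev g p.1, hp⟩ : Mon g T) : G) = ev g p.2 := by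
    intro X
    induction X with
    | nil => exact fun _ => ⟨[], rfl, by simp, by simp⟩
    | cons x X ih =>
      intro h
      obtain ⟨L, k1, k2, k3⟩ := ih fun y hy => h y (List.mem_cons_of_mem _ hy)
      obtain ⟨hx, y, hy, he⟩ := h x List.mem_cons_self
      refine ⟨(x, y) :: L, by rw [List.map_cons, k1], ?_, ?_⟩
      · intro p hp
        rcases List.mem_cons.1 hp with rfl | hp
        · exact hy
        · exact k2 p hp
      · intro p hp
        rcases List.mem_cons.1 hp with rfl | hp
        · exact ⟨hx, he.symm⟩
        · exact k3 p hp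
  obtain ⟨L, k1, k2, k3⟩ := hL X hX
  rcases h4 L ((mem_allMaps _ _ _).2 ⟨k1, k2⟩) with h | h | ⟨t, ht, h⟩
  · exact h (ok_of_hom e.toMonoidHom L k3)
  · exact h (ok_of_inj e.toMonoidHom e.injective L k3)
  · apply h
    have h5 : ((e.symm ⟨ev g t, mem_Mon ht⟩ : Mon g S) : G) ∈ Mon g (L.map Prod.fst) := by
      rw [k1, hXS]
      exact Subtype.mem _
    rw [← map_fst_KK] at h5
    obtain ⟨⟨a, b⟩, hz, he⟩ := h5
    obtain ⟨h6, h7⟩ := KK_le_Gr e.toMonoidHom L k3 hz
    have he' : a = ((e.symm ⟨ev g t, mem_Mon ht⟩ : Mon g S) : G) := he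
    have h8 : (⟨a, h6⟩ : Mon g S) = e.symm ⟨ev g t, mem_Mon ht⟩ := Subtype.ext he'
    have h9 : ((e (⟨a, h6⟩ : Mon g S) : Mon g T) : G) = b := h7
    rw [h8, e.apply_symm_apply] at h9
    have h10 : ev g t = b := h9
    rw [← map_snd_KK, h10]
    exact ⟨(a, b), hz, rfl⟩

/-- completeness of the certificates for nonisomorphism -/
theorem exists_NI (hg : Subgroup.closure (Set.range g) = ⊤) {S T : List (Word n)}
    (hS : FiniteUnitsAtomic (Mon g S)) (hT : FiniteUnitsAtomic (Mon g T))
    (h : ¬ Nonempty (Mon g S ≃* Mon g T)) : ∃ X W, NI g S T X W := by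
  obtain ⟨X, h1, h2⟩ := (atomic_iff_ex S).1 hS.2
  obtain ⟨W, h3, h4⟩ := exists_Wc hg T hT.1
  refine ⟨X, W, h1, h2, h3, fun L hL => ?_⟩
  obtain ⟨k1, k2⟩ := (mem_allMaps _ _ _).1 hL
  by_contra hc
  push Not at hc
  obtain ⟨c1, c2, c3⟩ := hc
  apply h
  have hXS : Mon g (L.map Prod.fst) = Mon g S := by
    rw [k1]
    apply le_antisymm
    · refine Mon_le fun x hx => ?_
      rcases h1 x hx with h | h
      · exact h.1
      · exact h.1
    · exact Mon_le h2
  have hYT : Mon g (L.map Prod.snd) = Mon g T := by
    apply le_antisymm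
    · refine Mon_le fun x hx => ?_
      obtain ⟨p, hp, rfl⟩ := List.mem_map.1 hx
      exact YY_mem h4 _ (k2 p hp)
    · exact Mon_le c3
  have := iso_of_ok L c1 c2
  rwa [hXS, hYT] at this

/-- `FiniteUnitsAtomic` is invariant under isomorphisms -/
theorem fa_congr {M N : Type} [Monoid M] [Monoid N] (e : M ≃* N) (h : FiniteUnitsAtomic M) :
    FiniteUnitsAtomic N := by
  obtain ⟨h1, h2⟩ := h
  refine ⟨Finite.of_equiv _ (Units.mapEquiv e).toEquiv, ?_⟩
  have h3 : (Submonoid.closure {x : M | IsUnit x ∨ Irreducible x}).map e.toMonoidHom =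
      Submonoid.closure {x : N | IsUnit x ∨ Irreducible x} := by
    rw [MonoidHom.map_mclosure]
    congr 1
    ext x
    constructor
    · rintro ⟨y, hy, rfl⟩
      rcases hy with hy | hy
      · exact Or.inl (hy.map e)
      · exact Or.inr ((MulEquiv.irreducible_iff e).2 hy)
    · intro hx
      refine ⟨e.symm x, ?_, e.apply_symm_apply x⟩
      rcases hx with hx | hx
      · exact Or.inl (hx.map e.symm)
      · exact Or.inr ((MulEquiv.irreducible_iff e.symm).2 hx)
  rw [← h3, h2, ← MonoidHom.mrange_eq_map, MonoidHom.mrange_eq_top]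
  exact e.surjective

private theorem prim_YY {T W : α → List (Word n)} (hT : Primrec T) (hW : Primrec W) :
    Primrec fun a => YY (T a) (W a) := by
  unfold YY
  refine Primrec.list_append.comp hW ?_
  refine Primrec.list_flatMap (g := fun a (u : Word n) => (T a).flatMap fun t => (W a).map fun v =>
    u ++ (t ++ v)) hW ?_
  refine Primrec.list_flatMap (f := fun x : α × Word n => T x.1) (g := fun (x : α × Word n) (t : Word n) =>
    (W x.1).map fun v => x.2 ++ (t ++ v)) (hT.comp Primrec.fst) ?_
  refine Primrec.list_map (f := fun x : (α × Word n) × Word n => W x.1.1)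
    (g := fun (x : (α × Word n) × Word n) (v : Word n) => x.1.2 ++ (x.2 ++ v))
    (hW.comp (Primrec.fst.comp Primrec.fst)) ?_
  change Primrec fun y : ((α × Word n) × Word n) × Word n => y.1.1.2 ++ (y.1.2 ++ y.2)
  exact Primrec.list_append.comp (by (repeat' (first | with_reducible exact prid | with_reducible refine prfst ?_ | with_reducible refine prsnd ?_ | with_reducible refine prpair ?_ ?_ | with_reducible exact prconst _))) (Primrec.list_append.comp (by (repeat' (first | with_reducible exact prid | with_reducible refine prfst ?_ | with_reducible refine prsnd ?_ | with_reducible refine prpair ?_ ?_ | with_reducible exact prconst _))) (by (repeat' (first | with_reducible exact prid | with_reducible refine prfst ?_ | with_reducible refine prsnd ?_ | with_reducible refine prpair ?_ ?_ | with_reducible exact prconst _))))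

private theorem prim_allMaps {X Y : α → List (Word n)} (hX : Primrec X) (hY : Primrec Y) :
    Primrec fun a => allMaps (X a) (Y a) := by
  unfold allMaps
  refine Primrec.list_foldr (h := fun a (p : Word n × List (List (Word n × Word n))) =>
    p.2.flatMap fun L => (Y a).map fun y => (p.1, y) :: L) hX (prconst [[]]) ?_
  refine Primrec.list_flatMap (f := fun x : α × (Word n × List (List (Word n × Word n))) => x.2.2)
    (g := fun (x : α × (Word n × List (List (Word n × Word n)))) (L : List (Word n × Word n)) =>
      (Y x.1).map fun y => (x.2.1, y) :: L) (by (repeat' (first | with_reducible exact prid | with_reducible refine prfst ?_ | with_reducible refine prsnd ?_ | with_reducible refine prpair ?_ ?_ | with_reducible exact prconst _))) ?_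
  refine Primrec.list_map (f := fun x : (α × (Word n × List (List (Word n × Word n)))) ×
      List (Word n × Word n) => Y x.1.1)
    (g := fun (x : (α × (Word n × List (List (Word n × Word n)))) × List (Word n × Word n)) (y : Word n) =>
      (x.1.2.1, y) :: x.2) (hY.comp (Primrec.fst.comp Primrec.fst)) ?_
  change Primrec fun z : ((α × (Word n × List (List (Word n × Word n)))) × List (Word n × Word n)) ×
    Word n => (z.1.1.2.1, z.2) :: z.1.2
  exact Primrec.list_cons.comp (by (repeat' (first | with_reducible exact prid | with_reducible refine prfst ?_ | with_reducible refine prsnd ?_ | with_reducible refine prpair ?_ ?_ | with_reducible exact prconst _))) (by (repeat' (first | with_reducible exact prid | with_reducible refine prfst ?_ | with_reducible refine prsnd ?_ | with_reducible refine prpair ?_ ?_ | with_reducible exact prconst _)))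

theorem sig_NI (hg : Subgroup.closure (Set.range g) = ⊤) (hτ : τ.Spec g) {S T : α → List (Word n)}
    (hS : Primrec S) (hT : Primrec T) : Sig fun a => ∃ c : List (Word n) × List (Word n),
      NI g (S a) (T a) c.1 c.2 := by
  refine Sig.ex (p := fun a (c : List (Word n) × List (Word n)) => NI g (S a) (T a) c.1 c.2) ?_
  unfold NI
  refine Sig.and ?_ (Sig.and ?_ (Sig.and ?_ ?_))
  · exact Sig.ball (by (repeat' (first | with_reducible exact prid | with_reducible refine prfst ?_ | with_reducible refine prsnd ?_ | with_reducible refine prpair ?_ ?_ | with_reducible exact prconst _))) (Sig.or (sig_un hτ (hS.comp (Primrec.fst.comp Primrec.fst)) (by (repeat' (first | with_reducible exact prid | with_reducible refine prfst ?_ | with_reducible refine prsnd ?_ | with_reducible refine prpair ?_ ?_ | with_reducible exact prconst _))))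
      (sig_irr hg hτ (hS.comp (Primrec.fst.comp Primrec.fst)) (by (repeat' (first | with_reducible exact prid | with_reducible refine prfst ?_ | with_reducible refine prsnd ?_ | with_reducible refine prpair ?_ ?_ | with_reducible exact prconst _)))))
  · exact Sig.ball (hS.comp Primrec.fst) (sig_mem hτ (by (repeat' (first | with_reducible exact prid | with_reducible refine prfst ?_ | with_reducible refine prsnd ?_ | with_reducible refine prpair ?_ ?_ | with_reducible exact prconst _))) (by (repeat' (first | with_reducible exact prid | with_reducible refine prfst ?_ | with_reducible refine prsnd ?_ | with_reducible refine prpair ?_ ?_ | with_reducible exact prconst _))))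
  · exact sig_Wc hg hτ (hT.comp Primrec.fst) (by (repeat' (first | with_reducible exact prid | with_reducible refine prfst ?_ | with_reducible refine prsnd ?_ | with_reducible refine prpair ?_ ?_ | with_reducible exact prconst _)))
  · refine Sig.ball (prim_allMaps (by (repeat' (first | with_reducible exact prid | with_reducible refine prfst ?_ | with_reducible refine prsnd ?_ | with_reducible refine prpair ?_ ?_ | with_reducible exact prconst _))) (prim_YY (hT.comp Primrec.fst) (by (repeat' (first | with_reducible exact prid | with_reducible refine prfst ?_ | with_reducible refine prsnd ?_ | with_reducible refine prpair ?_ ?_ | with_reducible exact prconst _)))))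
      (Sig.or (sig_nok hτ (by (repeat' (first | with_reducible exact prid | with_reducible refine prfst ?_ | with_reducible refine prsnd ?_ | with_reducible refine prpair ?_ ?_ | with_reducible exact prconst _)))) (Sig.or (sig_nok hτ (prim_swap (by (repeat' (first | with_reducible exact prid | with_reducible refine prfst ?_ | with_reducible refine prsnd ?_ | with_reducible refine prpair ?_ ?_ | with_reducible exact prconst _))))) ?_))
    refine Sig.bex (hT.comp (Primrec.fst.comp Primrec.fst)) (sig_nmem hg hτ ?_ (by (repeat' (first | with_reducible exact prid | with_reducible refine prfst ?_ | with_reducible refine prsnd ?_ | with_reducible refine prpair ?_ ?_ | with_reducible exact prconst _))))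
    exact Primrec.list_map (f := fun x : ((α × (List (Word n) × List (Word n))) ×
      List (Word n × Word n)) × Word n => x.1.2) (g := fun _ (p : Word n × Word n) => p.2)
      (by (repeat' (first | with_reducible exact prid | with_reducible refine prfst ?_ | with_reducible refine prsnd ?_ | with_reducible refine prpair ?_ ?_ | with_reducible exact prconst _))) (Primrec.snd.comp Primrec.snd)

/-- `FiniteUnitsAtomic` and isomorphism: the complement is enumerable -/
theorem sig_niso (hg : Subgroup.closure (Set.range g) = ⊤) (hτ : τ.Spec g)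
    (hm : ∀ K : Subgroup G, Finite K → Nat.card K ≤ τ.m) {S T : α → List (Word n)}
    (hS : Primrec S) (hT : Primrec T) :
    Sig fun a => ¬ (FiniteUnitsAtomic (Mon g (S a)) ∧ Nonempty (Mon g (S a) ≃* Mon g (T a))) := by
  refine (Sig.or (sig_nfa hg hτ hm hS) (Sig.or (sig_nfa hg hτ hm hT) (sig_NI hg hτ hS hT))).of_eq
    fun a => ?_
  constructor
  · rintro (h | h | ⟨c, h⟩) ⟨h1, h2⟩
    · exact h h1
    · obtain ⟨e⟩ := h2
      exact h (fa_congr e h1)
    · exact h.sound h2
  · intro h
    by_cases h1 : FiniteUnitsAtomic (Mon g (S a))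
    · by_cases h2 : FiniteUnitsAtomic (Mon g (T a))
      · obtain ⟨X, W, h3⟩ := exists_NI hg h1 h2 fun h3 => h ⟨h1, h3⟩
        exact Or.inr (Or.inr ⟨(X, W), h3⟩)
      · exact Or.inr (Or.inl h2)
    · exact Or.inl h1

end

end Pool.MP_247aa4_al
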