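import Mathlib

/-!
# MP_247aa4_al: closure properties of primitive recursive and of recursively enumerable predicates
-/

set_option autoImplicit false
set_option linter.unusedTactic false

namespace Pool.MP_247aa4_al

section

variable {α β γ : Type} [Primcodable α] [Primcodable β] [Primcodable γ]

theorem prid : Primrec fun x : α => x := Primrec.id

theorem prfst {f : α → β × γ} (h : Primrec f) : Primrec fun a => (f a).1 := Primrec.fst.comp h

theorem prsnd {f : α → β × γ} (h : Primrec f) : Primrec fun a => (f a).2 := Primrec.snd.comp h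

theorem prpair {f : α → β} {g : α → γ} (h : Primrec f) (h' : Primrec g) :
    Primrec fun a => (f a, g a) := Primrec.pair h h'

theorem prconst (b : β) : Primrec fun _ : α => b := Primrec.const b

theorem pimp {p q : α → Prop} (hp : PrimrecPred p) (hq : PrimrecPred q) :
    PrimrecPred fun a => p a → q a :=
  (hp.not.or hq).of_eq fun a => by
    by_cases h : p a <;> simp [h]

theorem pball {f : α → List β} {p : α → β → Prop} (hf : Primrec f)
    (hp : PrimrecPred fun x : α × β => p x.1 x.2) : PrimrecPred fun a => ∀ b ∈ f a, p a b := by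
  have h1 : PrimrecRel fun (b : β) (a : α) => p a b := hp.comp (Primrec.pair Primrec.snd Primrec.fst)
  exact h1.forall_mem_list.comp hf Primrec.id

theorem pbex {f : α → List β} {p : α → β → Prop} (hf : Primrec f)
    (hp : PrimrecPred fun x : α × β => p x.1 x.2) : PrimrecPred fun a => ∃ b ∈ f a, p a b := by
  have h1 : PrimrecRel fun (b : β) (a : α) => p a b := hp.comp (Primrec.pair Primrec.snd Primrec.fst)
  exact h1.exists_mem_list.comp hf Primrec.id

theorem peq {f g : α → β} (hf : Primrec f) (hg : Primrec g) : PrimrecPred fun a => f a = g a :=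
  Primrec.eq.comp hf hg

theorem pmem {f : α → β} {l : α → List β} (hf : Primrec f) (hl : Primrec l) :
    PrimrecPred fun a => f a ∈ l a := by
  have h : PrimrecPred fun a => ∃ b ∈ l a, b = f a :=
    pbex (p := fun a b => b = f a) hl (peq Primrec.snd (hf.comp Primrec.fst))
  refine h.of_eq fun a => ?_
  constructor
  · rintro ⟨b, hb, rfl⟩
    exact hb
  · intro h
    exact ⟨_, h, rfl⟩

/-! ## `Σ₁` predicates -/

/-- predicates of the form `∃ k, P a k` with `P` primitive recursive -/
def Sig (p : α → Prop) : Prop :=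
  ∃ P : α → ℕ → Prop, PrimrecRel P ∧ ∀ a, p a ↔ ∃ k, P a k

theorem Sig.of_eq {p q : α → Prop} (hp : Sig p) (h : ∀ a, p a ↔ q a) : Sig q := by
  obtain ⟨P, hP, h1⟩ := hp
  exact ⟨P, hP, fun a => (h a).symm.trans (h1 a)⟩

theorem Sig.of_prim {p : α → Prop} (hp : PrimrecPred p) : Sig p :=
  ⟨fun a _ => p a, hp.comp Primrec.fst, fun _ => ⟨fun h => ⟨0, h⟩, fun ⟨_, h⟩ => h⟩⟩

theorem Sig.comp {p : β → Prop} (hp : Sig p) {f : α → β} (hf : Primrec f) : Sig fun a => p (f a) := by
  obtain ⟨P, hP, h1⟩ := hp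
  exact ⟨fun a k => P (f a) k, hP.comp (hf.comp Primrec.fst) Primrec.snd, fun a => h1 (f a)⟩

theorem Sig.and {p q : α → Prop} (hp : Sig p) (hq : Sig q) : Sig fun a => p a ∧ q a := by
  obtain ⟨P, hP, h1⟩ := hp
  obtain ⟨Q, hQ, h2⟩ := hq
  refine ⟨fun a k => P a k.unpair.1 ∧ Q a k.unpair.2, ?_, fun a => ?_⟩
  · exact (hP.comp Primrec.fst (Primrec.fst.comp (Primrec.unpair.comp Primrec.snd))).and
      (hQ.comp Primrec.fst (Primrec.snd.comp (Primrec.unpair.comp Primrec.snd)))
  · beta_reduce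
    rw [h1, h2]
    constructor
    · rintro ⟨⟨i, hi⟩, ⟨j, hj⟩⟩
      exact ⟨Nat.pair i j, by rw [Nat.unpair_pair]; exact ⟨hi, hj⟩⟩
    · rintro ⟨k, hi, hj⟩
      exact ⟨⟨_, hi⟩, ⟨_, hj⟩⟩

theorem Sig.or {p q : α → Prop} (hp : Sig p) (hq : Sig q) : Sig fun a => p a ∨ q a := by
  obtain ⟨P, hP, h1⟩ := hp
  obtain ⟨Q, hQ, h2⟩ := hq
  refine ⟨fun a k => P a k ∨ Q a k, ?_, fun a => ?_⟩
  · exact (hP.comp Primrec.fst Primrec.snd).or (hQ.comp Primrec.fst Primrec.snd)
  · beta_reduce
    rw [h1, h2]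
    constructor
    · rintro (⟨i, hi⟩ | ⟨j, hj⟩)
      · exact ⟨i, Or.inl hi⟩
      · exact ⟨j, Or.inr hj⟩
    · rintro ⟨k, hi | hj⟩
      · exact Or.inl ⟨_, hi⟩
      · exact Or.inr ⟨_, hj⟩

theorem Sig.ex {p : α → β → Prop} (hp : Sig fun x : α × β => p x.1 x.2) :
    Sig fun a => ∃ b, p a b := by
  obtain ⟨P, hP, h1⟩ := hp
  refine ⟨fun a k => ∃ b ∈ (Encodable.decode (α := β) k.unpair.1).toList, P (a, b) k.unpair.2,
    ?_, fun a => ?_⟩
  · have h2 : Primrec fun x : α × ℕ => (Encodable.decode (α := β) x.2.unpair.1).toList :=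
      Primrec.optionToList.comp (Primrec.decode.comp (Primrec.fst.comp (Primrec.unpair.comp Primrec.snd)))
    exact pbex (p := fun (x : α × ℕ) b => P (x.1, b) x.2.unpair.2) h2
      (hP.comp (Primrec.pair (Primrec.fst.comp Primrec.fst) Primrec.snd)
        (Primrec.snd.comp (Primrec.unpair.comp (Primrec.snd.comp Primrec.fst))))
  · constructor
    · rintro ⟨b, hb⟩
      obtain ⟨k, hk⟩ := (h1 (a, b)).1 hb
      refine ⟨Nat.pair (Encodable.encode b) k, b, ?_, ?_⟩
      · rw [Nat.unpair_pair, Encodable.encodek]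
        simp
      · rw [Nat.unpair_pair]
        exact hk
    · rintro ⟨k, b, _, hb⟩
      exact ⟨b, (h1 (a, b)).2 ⟨_, hb⟩⟩

theorem Sig.bex {f : α → List β} {p : α → β → Prop} (hf : Primrec f)
    (hp : Sig fun x : α × β => p x.1 x.2) : Sig fun a => ∃ b ∈ f a, p a b := by
  refine (Sig.ex (p := fun a b => b ∈ f a ∧ p a b) (Sig.and (Sig.of_prim ?_) hp)).of_eq fun a => ?_
  · exact pmem Primrec.snd (hf.comp Primrec.fst)
  · exact Iff.rfl

theorem Sig.ball {f : α → List β} {p : α → β → Prop} (hf : Primrec f)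
    (hp : Sig fun x : α × β => p x.1 x.2) : Sig fun a => ∀ b ∈ f a, p a b := by
  obtain ⟨P, hP, h1⟩ := hp
  refine ⟨fun a k => ∀ b ∈ f a, ∃ j ∈ List.range k, P (a, b) j, ?_, fun a => ?_⟩
  · refine pball (p := fun (x : α × ℕ) b => ∃ j ∈ List.range x.2, P (x.1, b) j)
      (hf.comp Primrec.fst) ?_
    refine pbex (p := fun (x : (α × ℕ) × β) j => P (x.1.1, x.2) j)
      (Primrec.list_range.comp (Primrec.snd.comp Primrec.fst)) ?_
    exact hP.comp (Primrec.pair (Primrec.fst.comp (Primrec.fst.comp Primrec.fst))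
      (Primrec.snd.comp Primrec.fst)) Primrec.snd
  · constructor
    · intro h
      have h2 : ∀ l : List β, (∀ b ∈ l, p a b) → ∃ k, ∀ b ∈ l, ∃ j ∈ List.range k, P (a, b) j := by
        intro l
        induction l with
        | nil => exact fun _ => ⟨0, fun b hb => absurd hb List.not_mem_nil⟩
        | cons b l ih =>
          intro h
          obtain ⟨k, hk⟩ := ih fun b hb => h b (List.mem_cons_of_mem _ hb)
          obtain ⟨j, hj⟩ := (h1 (a, b)).1 (h b List.mem_cons_self)
          refine ⟨max k (j + 1), fun b' hb' => ?_⟩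
          rcases List.mem_cons.1 hb' with rfl | hb'
          · exact ⟨j, List.mem_range.2 (lt_of_lt_of_le (Nat.lt_succ_self j) (le_max_right _ _)), hj⟩
          · obtain ⟨i, hi, hi2⟩ := hk b' hb'
            exact ⟨i, List.mem_range.2 (lt_of_lt_of_le (List.mem_range.1 hi) (le_max_left _ _)), hi2⟩
      exact h2 _ h
    · rintro ⟨k, hk⟩ b hb
      obtain ⟨j, _, hj⟩ := hk b hb
      exact (h1 (a, b)).2 ⟨j, hj⟩

/-- `Σ₁` predicates are recursively enumerable -/
theorem Sig.re {p : α → Prop} (hp : Sig p) : REPred p := by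
  classical
  obtain ⟨P, hP, h1⟩ := hp
  have h2 : Partrec fun a => Nat.rfindOpt fun k => (if P a k then some () else none : Option Unit) := by
    apply Partrec.rfindOpt
    have h3 : PrimrecPred fun x : α × ℕ => P x.1 x.2 := hP
    exact Computable₂.mk (Primrec.ite h3 (Primrec.const (some ())) (Primrec.const none)).to_comp
  refine h2.dom_re.of_eq fun a => ?_
  rw [Nat.rfindOpt_dom, h1]
  constructor
  · rintro ⟨n, x, h⟩
    split_ifs at h with h3
    · exact ⟨n, h3⟩
    · exact absurd h (by simp)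
  · rintro ⟨k, hk⟩
    exact ⟨k, (), by rw [if_pos hk]; rfl⟩

/-- a predicate is computable if it and its complement are `Σ₁` -/
theorem Sig.computable {p : α → Prop} (hp : Sig p) (hp' : Sig fun a => ¬ p a) : ComputablePred p :=
  ComputablePred.computable_iff_re_compl_re'.2 ⟨hp.re, hp'.re⟩

end

end Pool.MP_247aa4_al
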