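import Pool.Agent.Lib_MP_247aa4.Compl

/-!
# MP_247aa4_al: the two kinds of automata for which correct certificates exist

`fl L` is the automaton with one state and loops `(s, t)`, `(s, t) ∈ L`; the other kind has no output.
-/

set_option autoImplicit false

namespace Pool.MP_247aa4_al

/-- the flower automaton of a list of pairs of words -/
def fl {n : ℕ} (L : List (Word n × Word n)) : List (Tr n) := L.map fun p => (0, p.1, p.2, 0)

section

variable {G : Type} [Group G] {n : ℕ} {g : Fin n → G} {τ : Tdc n}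

private theorem rch_fl (L : List (Word n × Word n)) {v : Vx τ}
    (h : Rch (Ed g (fl L) τ) (ini τ 0) (ini τ 0) v) :
    v.2.2.2 = 0 ∧ ∃ M a, Path (Ed g (fl L) τ) (ini τ 0) M a v := by
  induction h with
  | base => exact ⟨rfl, [], 1, Path.nil _⟩
  | base' => exact ⟨rfl, [], 1, Path.nil _⟩
  | @step u v l o _ he ih =>
    obtain ⟨h1, M, a, hM⟩ := ih
    refine ⟨?_, ?_⟩
    · cases he with
      | pop x k l c q => exact h1
      | read a l c q => exact h1
      | trans q q1 w t c ht =>
        unfold fl at ht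
        rw [List.mem_map] at ht
        obtain ⟨p, _, hp⟩ := ht
        simp only [Prod.mk.injEq] at hp
        exact hp.2.2.2.symm
    · cases l with
      | none =>
        have h2 := Path.eps he (Path.nil v)
        exact ⟨_, _, hM.append h2⟩
      | some x =>
        have h2 := Path.letter he (Path.nil v)
        exact ⟨_, _, hM.append h2⟩

/-- every vertex is connected to a final one -/
private theorem coreach (T : List (Tr n)) (v : Vx τ) :
    ∃ M a c, Path (Ed g T τ) v M a ([], [], c, v.2.2.2) := by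
  rcases v with ⟨k, l, c, q⟩
  have h1 := path_pops (g := g) (T := T) (τ := τ) k [] l c q
  rw [List.append_nil] at h1
  have h2 := path_reads (g := g) (T := T) (τ := τ) l [] c q
  rw [List.append_nil] at h2
  exact ⟨_, _, _, h1.append h2⟩

/-- correct certificates for flower automata -/
theorem ok_fl_iff (hg : Subgroup.closure (Set.range g) = ⊤) (hτ : τ.Spec g)
    (L : List (Word n × Word n)) :
    OK g (fl L) 0 0 0 0 True ↔
      ∃ c : Cert τ, Chk g τ ((fl L, ((0, 0), ((0, 0), true))), c) := by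
  constructor
  · intro h
    have h' : OK g (fl L) 0 0 0 0 (true = true) := fun W W' o o' hW hW' he =>
      ⟨rfl, (h W W' o o' hW hW' he).2⟩
    have hK : ∀ f f' M M' o o', Fn τ 0 0 f f' → Path (Ed g (fl L) τ) (ini τ 0) M o f →
        Path (Ed g (fl L) τ) (ini τ 0) M' o' f' → FreeGroup.mk M = FreeGroup.mk M' → o = o' :=
      fun f f' M M' o o' hF h1 h2 hM => (paths_of_ok hτ h hF h1 h2 hM).2
    refine exists_chk 0 0 0 0 true hg (fun o o' hP => pr_of_ok hτ h' hP) ?_ ?_
    · rintro u v o o' ⟨hu, hd⟩ ⟨_, hd'⟩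
      obtain ⟨h1, M, a, hM⟩ := rch_fl L hu
      have hv := (rch_fl L (hd.rch hu)).1
      obtain ⟨N, b, c, hN⟩ := coreach (g := g) (fl L) v
      rw [hv] at hN
      exact cD_unique (F := Fn τ 0 0) (fun f M M' o o' hF h1 h2 hM => hK f f M M' o o' hF h1 h2 hM)
        hM hN ⟨c, rfl, rfl⟩ hd hd'
    · intro u u' o o' hB hB'
      exact cB_unique (F := Fn τ 0 0) hK hB hB'
  · rintro ⟨c, hc⟩ W W' o o' hW hW' he
    exact ⟨trivial, (ok_of_chk hτ _ hc W W' o o' hW hW' he).2⟩

private theorem d_one {T : List (Tr n)} (hT : ∀ t ∈ T, t.2.2.1 = []) {u v : Vx τ} {o : G}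
    {l : Option Ltr} (h : Ed g T τ u l o v) : o = 1 := by
  cases h with
  | pop => rfl
  | read => rfl
  | trans q q1 w t c ht =>
    have := hT _ ht
    simp only at this
    rw [this, ev_nil]

private theorem D_one {T : List (Tr n)} (hT : ∀ t ∈ T, t.2.2.1 = []) {u v : Vx τ} {o : G}
    (h : D (Ed g T τ) u v o) : o = 1 := by
  induction h with
  | refl => rfl
  | eps he _ ih => rw [d_one hT he, ih, one_mul]
  | pair he _ he' _ ih ih' => rw [d_one hT he, d_one hT he', ih, ih']; simp

private theorem Pr_one {T : List (Tr n)} (hT : ∀ t ∈ T, t.2.2.1 = []) {F : Vx τ → Vx τ → Prop}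
    {u v : Vx τ} {o o' : G} (h : Pr (Ed g T τ) F u v o o') : o = 1 ∧ o' = 1 := by
  induction h with
  | base h h' _ => exact ⟨D_one hT h, D_one hT h'⟩
  | step hd he hd' he' _ ih =>
    rw [D_one hT hd, D_one hT hd', d_one hT he, d_one hT he', ih.1, ih.2]
    simp

/-- correct certificates for automata without output -/
theorem ok_no_iff (hg : Subgroup.closure (Set.range g) = ⊤) (hτ : τ.Spec g) (T : List (Tr n))
    (hT : ∀ t ∈ T, t.2.2.1 = []) (q0 q0' qf qf' : ℕ) :
    OK g T q0 q0' qf qf' False ↔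
      ∃ c : Cert τ, Chk g τ ((T, ((q0, q0'), ((qf, qf'), false))), c) := by
  constructor
  · intro h
    have h' : OK g T q0 q0' qf qf' (false = true) := fun W W' o o' hW hW' he =>
      (h W W' o o' hW hW' he).1.elim
    refine exists_chk q0 q0' qf qf' false hg (fun o o' hP => pr_of_ok hτ h' hP) ?_ ?_
    · rintro u v o o' ⟨_, hd⟩ ⟨_, hd'⟩
      rw [D_one hT hd, D_one hT hd']
    · rintro u u' o o' ⟨_, a, a', hP, rfl⟩ ⟨_, b, b', hP', rfl⟩
      obtain ⟨rfl, rfl⟩ := Pr_one hT hP
      obtain ⟨rfl, rfl⟩ := Pr_one hT hP'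
      rfl
  · rintro ⟨c, hc⟩ W W' o o' hW hW' he
    have := (ok_of_chk hτ _ hc W W' o o' hW hW' he).1
    exact absurd this (by simp)

end

end Pool.MP_247aa4_al
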