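import Pool.Agent.Lib_MP_247aa4.PBase
import Pool.Agent.Lib_MP_247aa4.Uniq

/-!
# MP_247aa4_al: the correctness of certificates is primitive recursive
-/

set_option autoImplicit false
set_option linter.unusedTactic false

namespace Pool.MP_247aa4_al

section

variable {G : Type} [Group G] {n : ℕ} {g : Fin n → G} {τ : Tdc n}

/-- step of the reduction -/
private def rstep (x : Ltr) (r : List Ltr) : List Ltr :=
  List.casesOn r [x] fun hd tl => if x.1 = hd.1 ∧ x.2 = !hd.2 then tl else x :: hd :: tl

private theorem prim_rstep : Primrec₂ rstep := by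
  unfold rstep
  refine Primrec.list_casesOn (f := fun p : Ltr × List Ltr => p.2) (g := fun p : Ltr × List Ltr => [p.1])
    (h := fun (p : Ltr × List Ltr) (q : Ltr × List Ltr) =>
      if p.1.1 = q.1.1 ∧ p.1.2 = !q.1.2 then q.2 else p.1 :: q.1 :: q.2) Primrec.snd
    (Primrec.list_cons.comp Primrec.fst (Primrec.const [])) ?_
  refine Primrec.ite (c := fun x : (Ltr × List Ltr) × (Ltr × List Ltr) =>
    x.1.1.1 = x.2.1.1 ∧ x.1.1.2 = !x.2.1.2) (PrimrecPred.and (peq ?_ ?_) (peq ?_ ?_)) ?_ ?_
  · (repeat' (first | with_reducible exact prid | with_reducible refine prfst ?_ | with_reducible refine prsnd ?_ | with_reducible refine prpair ?_ ?_ | with_reducible exact prconst _))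
  · (repeat' (first | with_reducible exact prid | with_reducible refine prfst ?_ | with_reducible refine prsnd ?_ | with_reducible refine prpair ?_ ?_ | with_reducible exact prconst _))
  · (repeat' (first | with_reducible exact prid | with_reducible refine prfst ?_ | with_reducible refine prsnd ?_ | with_reducible refine prpair ?_ ?_ | with_reducible exact prconst _))
  · exact Primrec.not.comp (by (repeat' (first | with_reducible exact prid | with_reducible refine prfst ?_ | with_reducible refine prsnd ?_ | with_reducible refine prpair ?_ ?_ | with_reducible exact prconst _)))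
  · (repeat' (first | with_reducible exact prid | with_reducible refine prfst ?_ | with_reducible refine prsnd ?_ | with_reducible refine prpair ?_ ?_ | with_reducible exact prconst _))
  · refine Primrec.list_cons.comp (by (repeat' (first | with_reducible exact prid | with_reducible refine prfst ?_ | with_reducible refine prsnd ?_ | with_reducible refine prpair ?_ ?_ | with_reducible exact prconst _))) (Primrec.list_cons.comp (by (repeat' (first | with_reducible exact prid | with_reducible refine prfst ?_ | with_reducible refine prsnd ?_ | with_reducible refine prpair ?_ ?_ | with_reducible exact prconst _))) (by (repeat' (first | with_reducible exact prid | with_reducible refine prfst ?_ | with_reducible refine prsnd ?_ | with_reducible refine prpair ?_ ?_ | with_reducible exact prconst _))))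

private theorem reduce_eq (L : List Ltr) : FreeGroup.reduce L = L.foldr rstep [] := by
  induction L with
  | nil => rfl
  | cons x L ih =>
    rw [List.foldr_cons, ← ih, FreeGroup.reduce.cons]
    rfl

theorem prim_reduce : Primrec (FreeGroup.reduce : List Ltr → List Ltr) := by
  refine (Primrec.list_foldr (f := fun L : List Ltr => L) (g := fun _ : List Ltr => ([] : List Ltr))
    (h := fun (_ : List Ltr) (p : Ltr × List Ltr) => rstep p.1 p.2) Primrec.id (Primrec.const []) ?_).of_eq
    fun L => (reduce_eq L).symm
  exact prim_rstep.comp (by (repeat' (first | with_reducible exact prid | with_reducible refine prfst ?_ | with_reducible refine prsnd ?_ | with_reducible refine prpair ?_ ?_ | with_reducible exact prconst _))) (by (repeat' (first | with_reducible exact prid | with_reducible refine prfst ?_ | with_reducible refine prsnd ?_ | with_reducible refine prpair ?_ ?_ | with_reducible exact prconst _)))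

/-- the state and the output -/
private def ro (τ : Tdc n) (s : Fin τ.m × List Ltr) (a : Fin n × Bool) : Fin τ.m × List Ltr :=
  (τ.act s.1 a, s.2 ++ τ.out s.1 a)

private theorem foldl_ro (c : Fin τ.m) (L : List Ltr) (w : Word n) :
    w.foldl (ro τ) (c, L) = (τ.run c w, L ++ τ.outl c w) := by
  induction w generalizing c L with
  | nil => simp [Tdc.run, Tdc.outl]
  | cons a w ih =>
    rw [List.foldl_cons]
    unfold ro at ih ⊢
    rw [ih]
    simp [Tdc.run, Tdc.outl]

private theorem prim_ro (τ : Tdc n) : Primrec fun w : Word n => w.foldl (ro τ) (τ.c0, []) := by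
  refine Primrec.list_foldl (f := fun w : Word n => w) (g := fun _ : Word n => (τ.c0, ([] : List Ltr)))
    (h := fun (_ : Word n) (p : (Fin τ.m × List Ltr) × (Fin n × Bool)) => ro τ p.1 p.2)
    Primrec.id (Primrec.const _) ?_
  unfold ro
  have h1 : Primrec fun p : Fin τ.m × (Fin n × Bool) => τ.act p.1 p.2 := Primrec.dom_finite _
  have h2 : Primrec fun p : Fin τ.m × (Fin n × Bool) => τ.out p.1 p.2 := Primrec.dom_finite _
  refine Primrec.pair ?_ (Primrec.list_append.comp ?_ ?_)
  · exact h1.comp (f := fun p : Fin τ.m × (Fin n × Bool) => τ.act p.1 p.2)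
      (g := fun x : Word n × ((Fin τ.m × List Ltr) × (Fin n × Bool)) => (x.2.1.1, x.2.2)) (by (repeat' (first | with_reducible exact prid | with_reducible refine prfst ?_ | with_reducible refine prsnd ?_ | with_reducible refine prpair ?_ ?_ | with_reducible exact prconst _)))
  · (repeat' (first | with_reducible exact prid | with_reducible refine prfst ?_ | with_reducible refine prsnd ?_ | with_reducible refine prpair ?_ ?_ | with_reducible exact prconst _))
  · exact h2.comp (f := fun p : Fin τ.m × (Fin n × Bool) => τ.out p.1 p.2)
      (g := fun x : Word n × ((Fin τ.m × List Ltr) × (Fin n × Bool)) => (x.2.1.1, x.2.2)) (by (repeat' (first | with_reducible exact prid | with_reducible refine prfst ?_ | with_reducible refine prsnd ?_ | with_reducible refine prpair ?_ ?_ | with_reducible exact prconst _)))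

/-- normal form -/
def key (τ : Tdc n) (w : Word n) : Fin τ.m × List Ltr :=
  (τ.run τ.c0 w, FreeGroup.reduce (τ.outl τ.c0 w))

theorem prim_key (τ : Tdc n) : Primrec (key τ) := by
  have h := prim_ro τ
  refine (Primrec.pair (Primrec.fst.comp h) (prim_reduce.comp (Primrec.snd.comp h))).of_eq fun w => ?_
  rw [foldl_ro]
  simp [key]

theorem ev_iff_key (hτ : τ.Spec g) (w w' : Word n) : ev g w = ev g w' ↔ key τ w = key τ w' := by
  rw [hτ w w']
  unfold key
  rw [Prod.mk.injEq]
  exact and_congr Iff.rfl ⟨FreeGroup.reduce.sound, FreeGroup.reduce.exact⟩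

/-- equality of the values is primitive recursive -/
theorem prim_ev {α : Type} [Primcodable α] (hτ : τ.Spec g) {f f' : α → Word n} (hf : Primrec f)
    (hf' : Primrec f') : PrimrecPred fun a => ev g (f a) = ev g (f' a) :=
  (peq ((prim_key τ).comp hf) ((prim_key τ).comp hf')).of_eq fun _ => (ev_iff_key hτ _ _).symm

theorem prim_invW : Primrec (invW : Word n → Word n) := by
  unfold invW
  refine Primrec.list_reverse.comp (Primrec.list_map (f := fun w : Word n => w)
    (g := fun (_ : Word n) (a : Fin n × Bool) => (a.1, !a.2)) Primrec.id ?_)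
  exact Primrec.pair (by (repeat' (first | with_reducible exact prid | with_reducible refine prfst ?_ | with_reducible refine prsnd ?_ | with_reducible refine prpair ?_ ?_ | with_reducible exact prconst _))) (Primrec.not.comp (by (repeat' (first | with_reducible exact prid | with_reducible refine prfst ?_ | with_reducible refine prsnd ?_ | with_reducible refine prpair ?_ ?_ | with_reducible exact prconst _))))

private theorem prim_linv : Primrec linv := by
  unfold linv
  exact Primrec.pair (by (repeat' (first | with_reducible exact prid | with_reducible refine prfst ?_ | with_reducible refine prsnd ?_ | with_reducible refine prpair ?_ ?_ | with_reducible exact prconst _))) (Primrec.not.comp (by (repeat' (first | with_reducible exact prid | with_reducible refine prfst ?_ | with_reducible refine prsnd ?_ | with_reducible refine prpair ?_ ?_ | with_reducible exact prconst _))))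

private theorem succ_eq (τ : Tdc n) (T : List (Tr n)) (v : Vx τ) : succ τ T v =
    List.casesOn v.1 (List.casesOn v.2.1 (T.flatMap fun t => if t.1 = v.2.2.2 then
      [(v, none, t.2.2.1, ([], t.2.1, v.2.2.1, t.2.2.2))] else [])
      (fun a l => [(v, none, [], (τ.out v.2.2.1 a, l, τ.act v.2.2.1 a, v.2.2.2))]))
      (fun x k => [(v, some x, [], (k, v.2))]) := by
  rcases v with ⟨k, l, c, q⟩
  cases k with
  | nil =>
    cases l with
    | nil => rfl
    | cons a l => rfl
  | cons x k => rfl

private theorem prim_succ (τ : Tdc n) : Primrec fun x : List (Tr n) × Vx τ => succ τ x.1 x.2 := by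
  have h1 : Primrec fun p : Fin τ.m × (Fin n × Bool) => τ.act p.1 p.2 := Primrec.dom_finite _
  have h2 : Primrec fun p : Fin τ.m × (Fin n × Bool) => τ.out p.1 p.2 := Primrec.dom_finite _
  refine Primrec.of_eq ?_ fun x => (succ_eq τ x.1 x.2).symm
  refine Primrec.list_casesOn (f := fun x : List (Tr n) × Vx τ => x.2.1)
    (g := fun x : List (Tr n) × Vx τ => (List.casesOn x.2.2.1 (x.1.flatMap fun t => if t.1 = x.2.2.2.2 then
      [(x.2, none, t.2.2.1, ([], t.2.1, x.2.2.2.1, t.2.2.2))] else [])
      (fun a l => [(x.2, none, [], (τ.out x.2.2.2.1 a, l, τ.act x.2.2.2.1 a, x.2.2.2.2))]) : List (EdL τ)))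
    (h := fun (x : List (Tr n) × Vx τ) (y : Ltr × List Ltr) =>
      ([(x.2, some y.1, [], (y.2, x.2.2))] : List (EdL τ))) (by (repeat' (first | with_reducible exact prid | with_reducible refine prfst ?_ | with_reducible refine prsnd ?_ | with_reducible refine prpair ?_ ?_ | with_reducible exact prconst _))) ?_ ?_
  · refine Primrec.list_casesOn (f := fun x : List (Tr n) × Vx τ => x.2.2.1)
      (g := fun x : List (Tr n) × Vx τ => (x.1.flatMap fun t => if t.1 = x.2.2.2.2 then
        [(x.2, none, t.2.2.1, ([], t.2.1, x.2.2.2.1, t.2.2.2))] else [] : List (EdL τ)))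
      (h := fun (x : List (Tr n) × Vx τ) (y : (Fin n × Bool) × Word n) =>
        ([(x.2, none, [], (τ.out x.2.2.2.1 y.1, y.2, τ.act x.2.2.2.1 y.1, x.2.2.2.2))] : List (EdL τ)))
      (by (repeat' (first | with_reducible exact prid | with_reducible refine prfst ?_ | with_reducible refine prsnd ?_ | with_reducible refine prpair ?_ ?_ | with_reducible exact prconst _))) ?_ ?_
    · refine Primrec.list_flatMap (f := fun x : List (Tr n) × Vx τ => x.1)
        (g := fun (x : List (Tr n) × Vx τ) (t : Tr n) => (if t.1 = x.2.2.2.2 then
          [(x.2, none, t.2.2.1, ([], t.2.1, x.2.2.2.1, t.2.2.2))] else [] : List (EdL τ))) (by (repeat' (first | with_reducible exact prid | with_reducible refine prfst ?_ | with_reducible refine prsnd ?_ | with_reducible refine prpair ?_ ?_ | with_reducible exact prconst _))) ?_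
      refine Primrec.ite (c := fun x : (List (Tr n) × Vx τ) × Tr n => x.2.1 = x.1.2.2.2.2)
        (peq (by (repeat' (first | with_reducible exact prid | with_reducible refine prfst ?_ | with_reducible refine prsnd ?_ | with_reducible refine prpair ?_ ?_ | with_reducible exact prconst _))) (by (repeat' (first | with_reducible exact prid | with_reducible refine prfst ?_ | with_reducible refine prsnd ?_ | with_reducible refine prpair ?_ ?_ | with_reducible exact prconst _)))) ?_ (by (repeat' (first | with_reducible exact prid | with_reducible refine prfst ?_ | with_reducible refine prsnd ?_ | with_reducible refine prpair ?_ ?_ | with_reducible exact prconst _)))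
      exact Primrec.list_cons.comp (by (repeat' (first | with_reducible exact prid | with_reducible refine prfst ?_ | with_reducible refine prsnd ?_ | with_reducible refine prpair ?_ ?_ | with_reducible exact prconst _))) (by (repeat' (first | with_reducible exact prid | with_reducible refine prfst ?_ | with_reducible refine prsnd ?_ | with_reducible refine prpair ?_ ?_ | with_reducible exact prconst _)))
    · refine Primrec.list_cons.comp ?_ (by (repeat' (first | with_reducible exact prid | with_reducible refine prfst ?_ | with_reducible refine prsnd ?_ | with_reducible refine prpair ?_ ?_ | with_reducible exact prconst _)))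
      refine Primrec.pair (by (repeat' (first | with_reducible exact prid | with_reducible refine prfst ?_ | with_reducible refine prsnd ?_ | with_reducible refine prpair ?_ ?_ | with_reducible exact prconst _))) (Primrec.pair (by (repeat' (first | with_reducible exact prid | with_reducible refine prfst ?_ | with_reducible refine prsnd ?_ | with_reducible refine prpair ?_ ?_ | with_reducible exact prconst _))) (Primrec.pair (by (repeat' (first | with_reducible exact prid | with_reducible refine prfst ?_ | with_reducible refine prsnd ?_ | with_reducible refine prpair ?_ ?_ | with_reducible exact prconst _)))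
        (Primrec.pair ?_ (Primrec.pair (by (repeat' (first | with_reducible exact prid | with_reducible refine prfst ?_ | with_reducible refine prsnd ?_ | with_reducible refine prpair ?_ ?_ | with_reducible exact prconst _))) (Primrec.pair ?_ (by (repeat' (first | with_reducible exact prid | with_reducible refine prfst ?_ | with_reducible refine prsnd ?_ | with_reducible refine prpair ?_ ?_ | with_reducible exact prconst _))))))))
      · exact h2.comp (f := fun p : Fin τ.m × (Fin n × Bool) => τ.out p.1 p.2)
          (g := fun x : (List (Tr n) × Vx τ) × ((Fin n × Bool) × Word n) => (x.1.2.2.2.1, x.2.1)) (by (repeat' (first | with_reducible exact prid | with_reducible refine prfst ?_ | with_reducible refine prsnd ?_ | with_reducible refine prpair ?_ ?_ | with_reducible exact prconst _)))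
      · exact h1.comp (f := fun p : Fin τ.m × (Fin n × Bool) => τ.act p.1 p.2)
          (g := fun x : (List (Tr n) × Vx τ) × ((Fin n × Bool) × Word n) => (x.1.2.2.2.1, x.2.1)) (by (repeat' (first | with_reducible exact prid | with_reducible refine prfst ?_ | with_reducible refine prsnd ?_ | with_reducible refine prpair ?_ ?_ | with_reducible exact prconst _)))
  · refine Primrec.list_cons.comp ?_ (by (repeat' (first | with_reducible exact prid | with_reducible refine prfst ?_ | with_reducible refine prsnd ?_ | with_reducible refine prpair ?_ ?_ | with_reducible exact prconst _)))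
    refine Primrec.pair (by (repeat' (first | with_reducible exact prid | with_reducible refine prfst ?_ | with_reducible refine prsnd ?_ | with_reducible refine prpair ?_ ?_ | with_reducible exact prconst _))) (Primrec.pair (Primrec.option_some.comp (by (repeat' (first | with_reducible exact prid | with_reducible refine prfst ?_ | with_reducible refine prsnd ?_ | with_reducible refine prpair ?_ ?_ | with_reducible exact prconst _)))) (by (repeat' (first | with_reducible exact prid | with_reducible refine prfst ?_ | with_reducible refine prsnd ?_ | with_reducible refine prpair ?_ ?_ | with_reducible exact prconst _))))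

private theorem prim_edges (τ : Tdc n) : Primrec fun x : List (Tr n) × List (Vx τ) => edges τ x.1 x.2 := by
  unfold edges
  refine Primrec.list_flatMap (f := fun x : List (Tr n) × List (Vx τ) => x.2)
    (g := fun (x : List (Tr n) × List (Vx τ)) (v : Vx τ) => succ τ x.1 v) (by (repeat' (first | with_reducible exact prid | with_reducible refine prfst ?_ | with_reducible refine prsnd ?_ | with_reducible refine prpair ?_ ?_ | with_reducible exact prconst _))) ?_
  exact (prim_succ τ).comp (f := fun x : List (Tr n) × Vx τ => succ τ x.1 x.2)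
    (g := fun x : (List (Tr n) × List (Vx τ)) × Vx τ => (x.1.1, x.2)) (by (repeat' (first | with_reducible exact prid | with_reducible refine prfst ?_ | with_reducible refine prsnd ?_ | with_reducible refine prpair ?_ ?_ | with_reducible exact prconst _)))

private theorem prim_ini (τ : Tdc n) : Primrec (ini τ) := by
  unfold ini
  (repeat' (first | with_reducible exact prid | with_reducible refine prfst ?_ | with_reducible refine prsnd ?_ | with_reducible refine prpair ?_ ?_ | with_reducible exact prconst _))

section

variable {V α : Type} [Primcodable V] [Primcodable α]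
  {E : α → List (V × Option Ltr × Word n × V)} {R : α → List V} {Dl : α → List (V × V × Word n)}
  {Hl : α → List (V × Ltr × V × Word n)} {Ul : α → List (V × V)} {Bl : α → List ((V × V) × Word n)}

private theorem p2 (hE : Primrec E) (hR : Primrec R) : PrimrecPred fun a => ∀ e ∈ E a, e.2.2.2 ∈ R a :=
  pball hE (pmem (by (repeat' (first | with_reducible exact prid | with_reducible refine prfst ?_ | with_reducible refine prsnd ?_ | with_reducible refine prpair ?_ ?_ | with_reducible exact prconst _))) (hR.comp Primrec.fst))

private theorem p3 (hτ : τ.Spec g) (hR : Primrec R) (hD : Primrec Dl) :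
    PrimrecPred fun a => ∀ u ∈ R a, ∃ d ∈ Dl a, d.1 = u ∧ d.2.1 = u ∧ ev g d.2.2 = ev g [] := by
  refine pball hR (pbex (hD.comp Primrec.fst) (PrimrecPred.and (peq ?_ ?_)
    (PrimrecPred.and (peq ?_ ?_) (prim_ev hτ ?_ ?_))))
  all_goals (repeat' (first | with_reducible exact prid | with_reducible refine prfst ?_ | with_reducible refine prsnd ?_ | with_reducible refine prpair ?_ ?_ | with_reducible exact prconst _))

private theorem p4 (hτ : τ.Spec g) (hE : Primrec E) (hD : Primrec Dl) :
    PrimrecPred fun a => ∀ e ∈ E a, ∀ d ∈ Dl a, (e.2.1 = none ∧ d.1 = e.2.2.2) →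
      ∃ d' ∈ Dl a, d'.1 = e.1 ∧ d'.2.1 = d.2.1 ∧ ev g d'.2.2 = ev g (e.2.2.1 ++ d.2.2) := by
  refine pball hE (pball (hD.comp Primrec.fst) (pimp (PrimrecPred.and (peq ?_ ?_) (peq ?_ ?_))
    (pbex (hD.comp (Primrec.fst.comp Primrec.fst)) (PrimrecPred.and (peq ?_ ?_)
    (PrimrecPred.and (peq ?_ ?_) (prim_ev hτ ?_ (Primrec.list_append.comp ?_ ?_)))))))
  all_goals (repeat' (first | with_reducible exact prid | with_reducible refine prfst ?_ | with_reducible refine prsnd ?_ | with_reducible refine prpair ?_ ?_ | with_reducible exact prconst _))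

private theorem p5 (hτ : τ.Spec g) (hE : Primrec E) (hD : Primrec Dl) (hH : Primrec Hl) :
    PrimrecPred fun a => ∀ d ∈ Dl a, ∀ e ∈ E a, (e.1 = d.2.1 ∧ ¬ e.2.1 = none) →
      ∃ h ∈ Hl a, h.1 = d.1 ∧ some h.2.1 = e.2.1 ∧ h.2.2.1 = e.2.2.2 ∧
        ev g h.2.2.2 = ev g (d.2.2 ++ e.2.2.1) := by
  refine pball hD (pball (hE.comp Primrec.fst) (pimp (PrimrecPred.and (peq ?_ ?_)
    (PrimrecPred.not (peq ?_ ?_))) (pbex (hH.comp (Primrec.fst.comp Primrec.fst))
    (PrimrecPred.and (peq ?_ ?_) (PrimrecPred.and (peq (Primrec.option_some.comp ?_) ?_)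
    (PrimrecPred.and (peq ?_ ?_) (prim_ev hτ ?_ (Primrec.list_append.comp ?_ ?_))))))))
  all_goals (repeat' (first | with_reducible exact prid | with_reducible refine prfst ?_ | with_reducible refine prsnd ?_ | with_reducible refine prpair ?_ ?_ | with_reducible exact prconst _))

private theorem p6 (hτ : τ.Spec g) (hE : Primrec E) (hD : Primrec Dl) (hH : Primrec Hl) :
    PrimrecPred fun a => ∀ e ∈ E a, ∀ h ∈ Hl a, ∀ d ∈ Dl a,
      (h.1 = e.2.2.2 ∧ e.2.1 = some (linv h.2.1) ∧ d.1 = h.2.2.1) →
      ∃ d' ∈ Dl a, d'.1 = e.1 ∧ d'.2.1 = d.2.1 ∧ ev g d'.2.2 = ev g (e.2.2.1 ++ h.2.2.2 ++ d.2.2) := by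
  refine pball hE (pball (hH.comp Primrec.fst) (pball (hD.comp (Primrec.fst.comp Primrec.fst))
    (pimp (PrimrecPred.and (peq ?_ ?_) (PrimrecPred.and (peq ?_ (Primrec.option_some.comp
    (prim_linv.comp ?_))) (peq ?_ ?_))) (pbex (hD.comp (Primrec.fst.comp (Primrec.fst.comp Primrec.fst)))
    (PrimrecPred.and (peq ?_ ?_) (PrimrecPred.and (peq ?_ ?_) (prim_ev hτ ?_ (Primrec.list_append.comp
    (Primrec.list_append.comp ?_ ?_) ?_))))))))
  all_goals (repeat' (first | with_reducible exact prid | with_reducible refine prfst ?_ | with_reducible refine prsnd ?_ | with_reducible refine prpair ?_ ?_ | with_reducible exact prconst _))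

private theorem p7 (hU : Primrec Ul) (hH : Primrec Hl) :
    PrimrecPred fun a => ∀ p ∈ Ul a, ∀ h ∈ Hl a, ∀ h' ∈ Hl a,
      (h.1 = p.1 ∧ h'.1 = p.2 ∧ h'.2.1 = h.2.1) → (h.2.2.1, h'.2.2.1) ∈ Ul a := by
  refine pball hU (pball (hH.comp Primrec.fst) (pball (hH.comp (Primrec.fst.comp Primrec.fst))
    (pimp (PrimrecPred.and (peq ?_ ?_) (PrimrecPred.and (peq ?_ ?_) (peq ?_ ?_)))
      (pmem ?_ (hU.comp (Primrec.fst.comp (Primrec.fst.comp Primrec.fst)))))))
  all_goals (repeat' (first | with_reducible exact prid | with_reducible refine prfst ?_ | with_reducible refine prsnd ?_ | with_reducible refine prpair ?_ ?_ | with_reducible exact prconst _))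

private theorem p8 (hτ : τ.Spec g) (hU : Primrec Ul) (hD : Primrec Dl) (hB : Primrec Bl)
    {Fb : α → V → V → Prop} (hF : PrimrecPred fun x : α × V × V => Fb x.1 x.2.1 x.2.2) :
    PrimrecPred fun a => ∀ p ∈ Ul a, ∀ d ∈ Dl a, ∀ d' ∈ Dl a,
      (d.1 = p.1 ∧ d'.1 = p.2 ∧ Fb a d.2.1 d'.2.1) →
      ∃ b ∈ Bl a, b.1 = p ∧ ev g b.2 = ev g (d.2.2 ++ invW d'.2.2) := by
  refine pball hU (pball (hD.comp Primrec.fst) (pball (hD.comp (Primrec.fst.comp Primrec.fst))
    (pimp (PrimrecPred.and (peq ?_ ?_) (PrimrecPred.and (peq ?_ ?_)
      (hF.comp (f := fun x : ((α × (V × V)) × (V × V × Word n)) × (V × V × Word n) =>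
        (x.1.1.1, x.1.2.2.1, x.2.2.1)) ?_)))
      (pbex (hB.comp (Primrec.fst.comp (Primrec.fst.comp Primrec.fst))) (PrimrecPred.and (peq ?_ ?_)
        (prim_ev hτ ?_ (Primrec.list_append.comp ?_ (prim_invW.comp ?_))))))))
  all_goals (repeat' (first | with_reducible exact prid | with_reducible refine prfst ?_ | with_reducible refine prsnd ?_ | with_reducible refine prpair ?_ ?_ | with_reducible exact prconst _))

private theorem p9 (hτ : τ.Spec g) (hU : Primrec Ul) (hH : Primrec Hl) (hB : Primrec Bl) :
    PrimrecPred fun a => ∀ p ∈ Ul a, ∀ h ∈ Hl a, ∀ h' ∈ Hl a, ∀ b ∈ Bl a,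
      (h.1 = p.1 ∧ h'.1 = p.2 ∧ h'.2.1 = h.2.1 ∧ b.1 = (h.2.2.1, h'.2.2.1)) →
      ∃ b' ∈ Bl a, b'.1 = p ∧ ev g b'.2 = ev g (h.2.2.2 ++ b.2 ++ invW h'.2.2.2) := by
  refine pball hU (pball (hH.comp Primrec.fst) (pball (hH.comp (Primrec.fst.comp Primrec.fst))
    (pball (hB.comp (Primrec.fst.comp (Primrec.fst.comp Primrec.fst)))
    (pimp (PrimrecPred.and (peq ?_ ?_) (PrimrecPred.and (peq ?_ ?_) (PrimrecPred.and (peq ?_ ?_)
      (peq ?_ ?_))))
      (pbex (hB.comp (Primrec.fst.comp (Primrec.fst.comp (Primrec.fst.comp Primrec.fst))))
        (PrimrecPred.and (peq ?_ ?_) (prim_ev hτ ?_ (Primrec.list_append.comp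
          (Primrec.list_append.comp ?_ ?_) (prim_invW.comp ?_)))))))))
  all_goals (repeat' (first | with_reducible exact prid | with_reducible refine prfst ?_ | with_reducible refine prsnd ?_ | with_reducible refine prpair ?_ ?_ | with_reducible exact prconst _))

end

set_option synthInstance.maxSize 2000

private theorem prim_chk {α : Type} [Primcodable α] (hτ : τ.Spec g) {T : α → List (Tr n)}
    {q0 q0' qf qf' : α → ℕ} {fb : α → Bool} {R : α → List (Vx τ)} {Dl : α → List (Vx τ × Vx τ × Word n)}
    {Hl : α → List (Vx τ × Ltr × Vx τ × Word n)} {Ul : α → List (Vx τ × Vx τ)}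
    {Bl : α → List ((Vx τ × Vx τ) × Word n)} (hT : Primrec T) (h0 : Primrec q0) (h0' : Primrec q0')
    (hf : Primrec qf) (hf' : Primrec qf') (hb : Primrec fb) (hR : Primrec R) (hD : Primrec Dl)
    (hH : Primrec Hl) (hU : Primrec Ul) (hB : Primrec Bl) :
    PrimrecPred fun a => Chk g τ ((T a, ((q0 a, q0' a), ((qf a, qf' a), fb a))),
      (R a, Dl a, Hl a, Ul a, Bl a)) := by
  have hE : Primrec fun a => edges τ (T a) (R a) :=
    (prim_edges τ).comp (f := fun x : List (Tr n) × List (Vx τ) => edges τ x.1 x.2) (Primrec.pair hT hR)
  have hi : Primrec fun a => ini τ (q0 a) := (prim_ini τ).comp h0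
  have hi' : Primrec fun a => ini τ (q0' a) := (prim_ini τ).comp h0'
  unfold Chk
  refine PrimrecPred.and ?_ (PrimrecPred.and (p2 hE hR) (PrimrecPred.and (p3 hτ hR hD)
    (PrimrecPred.and (p4 hτ hE hD) (PrimrecPred.and (p5 hτ hE hD hH) (PrimrecPred.and
    (p6 hτ hE hD hH) (PrimrecPred.and (p7 hU hH) (PrimrecPred.and ?_ (PrimrecPred.and
    (p9 hτ hU hH hB) ?_))))))))
  · exact PrimrecPred.and (pmem hi hR) (PrimrecPred.and (pmem hi' hR) (pmem (Primrec.pair hi hi') hU))
  · refine p8 (Fb := fun a f f' => FnB τ (qf a) (qf' a) f f') hτ hU hD hB ?_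
    unfold FnB
    refine PrimrecPred.and (peq ?_ ?_) (PrimrecPred.and (peq ?_ ?_) (PrimrecPred.and
      (peq ?_ (hf.comp Primrec.fst)) (peq ?_ (prpair ?_ (prpair ?_ (prpair ?_ (hf'.comp Primrec.fst)))))))
    all_goals (repeat' (first | with_reducible exact prid | with_reducible refine prfst ?_ | with_reducible refine prsnd ?_ | with_reducible refine prpair ?_ ?_ | with_reducible exact prconst _))
  · refine pball hB (pimp (peq ?_ (Primrec.pair (hi.comp Primrec.fst) (hi'.comp Primrec.fst)))
      (PrimrecPred.and (peq (hb.comp Primrec.fst) ?_) (prim_ev hτ ?_ ?_)))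
    all_goals (repeat' (first | with_reducible exact prid | with_reducible refine prfst ?_ | with_reducible refine prsnd ?_ | with_reducible refine prpair ?_ ?_ | with_reducible exact prconst _))

private theorem sig_chk {α : Type} [Primcodable α] (hτ : τ.Spec g) {T : α → List (Tr n)}
    (hT : Primrec T) (q0 q0' qf qf' : ℕ) (fb : Bool) :
    Sig fun a => ∃ c : Cert τ, Chk g τ ((T a, ((q0, q0'), ((qf, qf'), fb))), c) := by
  refine Sig.ex (p := fun a (c : Cert τ) => Chk g τ ((T a, ((q0, q0'), ((qf, qf'), fb))), c)) (Sig.of_prim ?_)
  exact prim_chk (α := α × Cert τ) hτ (T := fun x => T x.1) (q0 := fun _ => q0) (q0' := fun _ => q0')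
    (qf := fun _ => qf) (qf' := fun _ => qf') (fb := fun _ => fb) (R := fun x => x.2.1)
    (Dl := fun x => x.2.2.1) (Hl := fun x => x.2.2.2.1) (Ul := fun x => x.2.2.2.2.1)
    (Bl := fun x => x.2.2.2.2.2) (hT.comp Primrec.fst) (by (repeat' (first | with_reducible exact prid | with_reducible refine prfst ?_ | with_reducible refine prsnd ?_ | with_reducible refine prpair ?_ ?_ | with_reducible exact prconst _))) (by (repeat' (first | with_reducible exact prid | with_reducible refine prfst ?_ | with_reducible refine prsnd ?_ | with_reducible refine prpair ?_ ?_ | with_reducible exact prconst _))) (by (repeat' (first | with_reducible exact prid | with_reducible refine prfst ?_ | with_reducible refine prsnd ?_ | with_reducible refine prpair ?_ ?_ | with_reducible exact prconst _))) (by (repeat' (first | with_reducible exact prid | with_reducible refine prfst ?_ | with_reducible refine prsnd ?_ | with_reducible refine prpair ?_ ?_ | with_reducible exact prconst _))) (by (repeat' (first | with_reducible exact prid | with_reducible refine prfst ?_ | with_reducible refine prsnd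 ?_ | with_reducible refine prpair ?_ ?_ | with_reducible exact prconst _)))
    (by (repeat' (first | with_reducible exact prid | with_reducible refine prfst ?_ | with_reducible refine prsnd ?_ | with_reducible refine prpair ?_ ?_ | with_reducible exact prconst _))) (by (repeat' (first | with_reducible exact prid | with_reducible refine prfst ?_ | with_reducible refine prsnd ?_ | with_reducible refine prpair ?_ ?_ | with_reducible exact prconst _))) (by (repeat' (first | with_reducible exact prid | with_reducible refine prfst ?_ | with_reducible refine prsnd ?_ | with_reducible refine prpair ?_ ?_ | with_reducible exact prconst _))) (by (repeat' (first | with_reducible exact prid | with_reducible refine prfst ?_ | with_reducible refine prsnd ?_ | with_reducible refine prpair ?_ ?_ | with_reducible exact prconst _))) (by (repeat' (first | with_reducible exact prid | with_reducible refine prfst ?_ | with_reducible refine prsnd ?_ | with_reducible refine prpair ?_ ?_ | with_reducible exact prconst _)))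

/-- flower automata -/
theorem sig_ok_fl {α : Type} [Primcodable α] (hg : Subgroup.closure (Set.range g) = ⊤) (hτ : τ.Spec g)
    {L : α → List (Word n × Word n)} (hL : Primrec L) : Sig fun a => OK g (fl (L a)) 0 0 0 0 True := by
  refine Sig.of_eq (sig_chk (τ := τ) hτ (T := fun a => fl (L a)) ?_ 0 0 0 0 true)
    fun a => (ok_fl_iff hg hτ (L a)).symm
  unfold fl
  refine Primrec.list_map (g := fun (_ : α) (p : Word n × Word n) => ((0, p.1, p.2, 0) : Tr n)) hL ?_
  change Primrec fun x : α × (Word n × Word n) => ((0, x.2.1, x.2.2, 0) : Tr n)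
  (repeat' (first | with_reducible exact prid | with_reducible refine prfst ?_ | with_reducible refine prsnd ?_ | with_reducible refine prpair ?_ ?_ | with_reducible exact prconst _))

/-- automata without output -/
theorem sig_ok_no {α : Type} [Primcodable α] (hg : Subgroup.closure (Set.range g) = ⊤) (hτ : τ.Spec g)
    {T : α → List (Tr n)} (hT : Primrec T) (hT' : ∀ a, ∀ t ∈ T a, t.2.2.1 = []) (q0 q0' qf qf' : ℕ) :
    Sig fun a => OK g (T a) q0 q0' qf qf' False :=
  Sig.of_eq (sig_chk (τ := τ) hτ hT q0 q0' qf qf' false)
    fun a => (ok_no_iff hg hτ (T a) (hT' a) q0 q0' qf qf').symm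

end

end Pool.MP_247aa4_al
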