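import Pool.Agent.Lib_MP_247aa4.Units

/-!
# MP_247aa4_al: the basic properties and their negations are recursively enumerable
-/

set_option autoImplicit false
set_option linter.unusedTactic false

namespace Pool.MP_247aa4_al

section

variable {G : Type} [Group G] {n : ℕ} {g : Fin n → G} {τ : Tdc n} {α : Type} [Primcodable α]

theorem mem_Mon_iff (S : List (Word n)) (x : G) : x ∈ Mon g S ↔
    ∃ l : List (Word n), (∀ u ∈ l, u ∈ S) ∧ ev g l.flatten = x := by
  constructor
  · intro h
    unfold Mon at h
    induction h using Submonoid.closure_induction with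
    | mem x hx =>
      obtain ⟨w, hw, rfl⟩ := hx
      exact ⟨[w], by simpa using hw, by simp⟩
    | one => exact ⟨[], by simp, rfl⟩
    | mul x y _ _ hx hy =>
      obtain ⟨l, h1, h2⟩ := hx
      obtain ⟨l', h1', h2'⟩ := hy
      refine ⟨l ++ l', fun u hu => ?_, by rw [List.flatten_append, ev_append, h2, h2']⟩
      rcases List.mem_append.1 hu with hu | hu
      · exact h1 u hu
      · exact h1' u hu
  · rintro ⟨l, h1, rfl⟩
    induction l with
    | nil => exact one_mem _
    | cons u l ih =>
      rw [List.flatten_cons, ev_append]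
      exact mul_mem (mem_Mon (h1 u List.mem_cons_self)) (ih fun v hv => h1 v (List.mem_cons_of_mem _ hv))

theorem sig_mem (hτ : τ.Spec g) {S : α → List (Word n)} {w : α → Word n} (hS : Primrec S)
    (hw : Primrec w) : Sig fun a => ev g (w a) ∈ Mon g (S a) := by
  refine Sig.of_eq ?_ fun a => (mem_Mon_iff (S a) (ev g (w a))).symm
  refine Sig.ex (p := fun a (l : List (Word n)) => (∀ u ∈ l, u ∈ S a) ∧ ev g l.flatten = ev g (w a))
    (Sig.of_prim (PrimrecPred.and ?_ ?_))
  · exact pball (p := fun (x : α × List (Word n)) u => u ∈ S x.1) Primrec.snd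
      (pmem Primrec.snd (hS.comp (Primrec.fst.comp Primrec.fst)))
  · exact prim_ev hτ (Primrec.list_flatten.comp Primrec.snd) (hw.comp Primrec.fst)

private theorem prim_Ti {S N : α → List (Word n)} {w : α → Word n} (hS : Primrec S) (hN : Primrec N)
    (hw : Primrec w) : Primrec fun a => Ti (S a) (N a) (w a) := by
  have h : ∀ (L : α → List (Word n)) (q q' : ℕ), Primrec L →
      Primrec fun a => (L a).map fun s => ((q, s, [], q') : Tr n) := by
    intro L q q' hL
    refine Primrec.list_map (g := fun (_ : α) (s : Word n) => ((q, s, [], q') : Tr n)) hL ?_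
    change Primrec fun x : α × Word n => ((q, x.2, [], q') : Tr n)
    (repeat' (first | with_reducible exact prid | with_reducible refine prfst ?_ | with_reducible refine prsnd ?_ | with_reducible refine prpair ?_ ?_ | with_reducible exact prconst _))
  unfold Ti
  refine Primrec.list_cons.comp (prpair (prconst 0) (prpair hw (prconst ([], 1))))
    (Primrec.list_append.comp (h S 2 2 hS) (Primrec.list_append.comp (h N 2 3 hN)
    (Primrec.list_append.comp (h S 3 3 hS) (Primrec.list_append.comp (h N 3 4 hN) (h S 4 4 hS)))))

theorem sig_nmem (hg : Subgroup.closure (Set.range g) = ⊤) (hτ : τ.Spec g) {S : α → List (Word n)}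
    {w : α → Word n} (hS : Primrec S) (hw : Primrec w) : Sig fun a => ev g (w a) ∉ Mon g (S a) := by
  refine Sig.of_eq ?_ fun a => ok_nmem_iff (S a) [] (w a)
  exact sig_ok_no hg hτ (prim_Ti hS (prconst []) hw) (fun a => Ti_out _ _ _) 0 4 1 4

theorem sig_un (hτ : τ.Spec g) {S : α → List (Word n)} {w : α → Word n} (hS : Primrec S)
    (hw : Primrec w) : Sig fun a => Un g (S a) (ev g (w a)) := by
  refine Sig.and (sig_mem hτ hS hw) ?_
  exact (sig_mem hτ hS (prim_invW.comp hw)).of_eq fun a => by rw [ev_invW]

theorem sig_nun (hg : Subgroup.closure (Set.range g) = ⊤) (hτ : τ.Spec g) {S : α → List (Word n)}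
    {w : α → Word n} (hS : Primrec S) (hw : Primrec w) : Sig fun a => ¬ Un g (S a) (ev g (w a)) := by
  refine (Sig.or (sig_nmem hg hτ hS hw) (sig_nmem hg hτ hS (prim_invW.comp hw))).of_eq fun a => ?_
  unfold Un
  rw [ev_invW]
  tauto

theorem sig_irr (hg : Subgroup.closure (Set.range g) = ⊤) (hτ : τ.Spec g) {S : α → List (Word n)}
    {w : α → Word n} (hS : Primrec S) (hw : Primrec w) : Sig fun a => Irr g (S a) (ev g (w a)) := by
  have h1 : Sig fun a => ev g (w a) ∈ Mon g (S a) ∧ ¬ Un g (S a) (ev g (w a)) ∧
      ∃ N : List (Word n), (∀ s ∈ N, s ∈ S a ∧ ¬ Un g (S a) (ev g s)) ∧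
        (∀ s ∈ S a, s ∈ N ∨ Un g (S a) (ev g s)) ∧ OK g (Ti (S a) N (w a)) 0 2 1 4 False := by
    refine Sig.and (sig_mem hτ hS hw) (Sig.and (sig_nun hg hτ hS hw) ?_)
    refine Sig.ex (p := fun a (N : List (Word n)) => (∀ s ∈ N, s ∈ S a ∧ ¬ Un g (S a) (ev g s)) ∧
        (∀ s ∈ S a, s ∈ N ∨ Un g (S a) (ev g s)) ∧ OK g (Ti (S a) N (w a)) 0 2 1 4 False) ?_
    refine Sig.and ?_ (Sig.and ?_ ?_)
    · refine Sig.ball (p := fun (x : α × List (Word n)) s => s ∈ S x.1 ∧ ¬ Un g (S x.1) (ev g s))
        Primrec.snd (Sig.and (Sig.of_prim (pmem Primrec.snd (hS.comp (Primrec.fst.comp Primrec.fst)))) ?_)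
      exact sig_nun hg hτ (hS.comp (Primrec.fst.comp Primrec.fst)) Primrec.snd
    · refine Sig.ball (p := fun (x : α × List (Word n)) s => s ∈ x.2 ∨ Un g (S x.1) (ev g s))
        (hS.comp Primrec.fst) (Sig.or (Sig.of_prim (pmem (by (repeat' (first | with_reducible exact prid | with_reducible refine prfst ?_ | with_reducible refine prsnd ?_ | with_reducible refine prpair ?_ ?_ | with_reducible exact prconst _))) (by (repeat' (first | with_reducible exact prid | with_reducible refine prfst ?_ | with_reducible refine prsnd ?_ | with_reducible refine prpair ?_ ?_ | with_reducible exact prconst _))))) ?_)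
      exact sig_un hτ (hS.comp (Primrec.fst.comp Primrec.fst)) Primrec.snd
    · exact sig_ok_no hg hτ (prim_Ti (hS.comp Primrec.fst) Primrec.snd (hw.comp Primrec.fst))
        (fun a => Ti_out _ _ _) 0 2 1 4
  refine h1.of_eq fun a => ?_
  constructor
  · rintro ⟨h2, h3, N, h4, h5, h6⟩
    rw [irr_iff h5 h4]
    exact ⟨h2, h3, (ok_two_iff _ _ _).1 h6⟩
  · intro h
    classical
    let N : List (Word n) := (S a).filter fun s => ¬ Un g (S a) (ev g s)
    have h4 : ∀ s ∈ N, s ∈ S a ∧ ¬ Un g (S a) (ev g s) := fun s hs => by
      simpa [N] using hs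
    have h5 : ∀ s ∈ S a, s ∈ N ∨ Un g (S a) (ev g s) := fun s hs => by
      by_cases h : Un g (S a) (ev g s)
      · exact Or.inr h
      · exact Or.inl (List.mem_filter.2 ⟨hs, by simpa using h⟩)
    have h' := (irr_iff h5 h4 _).1 h
    exact ⟨h'.1, h'.2.1, N, h4, h5, (ok_two_iff _ _ _).2 h'.2.2⟩

theorem sig_nirr (hg : Subgroup.closure (Set.range g) = ⊤) (hτ : τ.Spec g) {S : α → List (Word n)}
    {w : α → Word n} (hS : Primrec S) (hw : Primrec w) : Sig fun a => ¬ Irr g (S a) (ev g (w a)) := by
  have h1 : Sig fun a => ev g (w a) ∉ Mon g (S a) ∨ Un g (S a) (ev g (w a)) ∨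
      ∃ p : Word n × Word n, ev g p.1 ∈ Mon g (S a) ∧ ev g p.2 ∈ Mon g (S a) ∧
        ¬ Un g (S a) (ev g p.1) ∧ ¬ Un g (S a) (ev g p.2) ∧ ev g (w a) = ev g (p.1 ++ p.2) := by
    refine Sig.or (sig_nmem hg hτ hS hw) (Sig.or (sig_un hτ hS hw) ?_)
    refine Sig.ex (p := fun a (p : Word n × Word n) => ev g p.1 ∈ Mon g (S a) ∧ ev g p.2 ∈ Mon g (S a) ∧
        ¬ Un g (S a) (ev g p.1) ∧ ¬ Un g (S a) (ev g p.2) ∧ ev g (w a) = ev g (p.1 ++ p.2)) ?_
    refine Sig.and (sig_mem hτ (hS.comp Primrec.fst) (by (repeat' (first | with_reducible exact prid | with_reducible refine prfst ?_ | with_reducible refine prsnd ?_ | with_reducible refine prpair ?_ ?_ | with_reducible exact prconst _)))) (Sig.and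
      (sig_mem hτ (hS.comp Primrec.fst) (by (repeat' (first | with_reducible exact prid | with_reducible refine prfst ?_ | with_reducible refine prsnd ?_ | with_reducible refine prpair ?_ ?_ | with_reducible exact prconst _)))) (Sig.and (sig_nun hg hτ (hS.comp Primrec.fst) (by (repeat' (first | with_reducible exact prid | with_reducible refine prfst ?_ | with_reducible refine prsnd ?_ | with_reducible refine prpair ?_ ?_ | with_reducible exact prconst _))))
      (Sig.and (sig_nun hg hτ (hS.comp Primrec.fst) (by (repeat' (first | with_reducible exact prid | with_reducible refine prfst ?_ | with_reducible refine prsnd ?_ | with_reducible refine prpair ?_ ?_ | with_reducible exact prconst _)))) (Sig.of_prim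
      (prim_ev hτ (hw.comp Primrec.fst) (Primrec.list_append.comp (by (repeat' (first | with_reducible exact prid | with_reducible refine prfst ?_ | with_reducible refine prsnd ?_ | with_reducible refine prpair ?_ ?_ | with_reducible exact prconst _))) (by (repeat' (first | with_reducible exact prid | with_reducible refine prfst ?_ | with_reducible refine prsnd ?_ | with_reducible refine prpair ?_ ?_ | with_reducible exact prconst _)))))))))
  refine h1.of_eq fun a => ?_
  constructor
  · rintro (h | h | ⟨p, h1, h2, h3, h4, h5⟩) hI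
    · exact h hI.1
    · exact hI.2.1 h
    · rcases hI.2.2 _ h1 _ h2 (by rw [h5, ev_append]) with h | h
      · exact h3 h
      · exact h4 h
  · intro h
    by_contra hc
    push Not at hc
    obtain ⟨h2, h3, h4⟩ := hc
    refine h ⟨h2, h3, fun x hx y hy he => ?_⟩
    by_contra hc
    push Not at hc
    obtain ⟨u, hu⟩ := exists_word g hg x
    obtain ⟨v, hv⟩ := exists_word g hg y
    subst hu
    subst hv
    exact h4 (u, v) hx hy hc.1 hc.2 (by rw [he, ev_append])

/-- wrong flowers -/
theorem sig_nok (hτ : τ.Spec g) {L : α → List (Word n × Word n)} (hL : Primrec L) :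
    Sig fun a => ¬ OK g (fl (L a)) 0 0 0 0 True := by
  have h1 : Sig fun a => ∃ l : List (Word n × Word n) × List (Word n × Word n),
      (∀ p ∈ l.1, p ∈ L a) ∧ (∀ p ∈ l.2, p ∈ L a) ∧
      ev g (l.1.map Prod.fst).flatten = ev g (l.2.map Prod.fst).flatten ∧
      ¬ ev g (l.1.map Prod.snd).flatten = ev g (l.2.map Prod.snd).flatten := by
    have m1 : ∀ f : α × (List (Word n × Word n) × List (Word n × Word n)) → List (Word n × Word n),
        Primrec f → Primrec fun x => ((f x).map Prod.fst).flatten := fun f hf =>
      Primrec.list_flatten.comp (Primrec.list_map hf (Primrec.fst.comp Primrec.snd))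
    have m2 : ∀ f : α × (List (Word n × Word n) × List (Word n × Word n)) → List (Word n × Word n),
        Primrec f → Primrec fun x => ((f x).map Prod.snd).flatten := fun f hf =>
      Primrec.list_flatten.comp (Primrec.list_map hf (Primrec.snd.comp Primrec.snd))
    refine Sig.ex (p := fun a (l : List (Word n × Word n) × List (Word n × Word n)) =>
      (∀ p ∈ l.1, p ∈ L a) ∧ (∀ p ∈ l.2, p ∈ L a) ∧
      ev g (l.1.map Prod.fst).flatten = ev g (l.2.map Prod.fst).flatten ∧
      ¬ ev g (l.1.map Prod.snd).flatten = ev g (l.2.map Prod.snd).flatten) (Sig.of_prim ?_)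
    refine PrimrecPred.and ?_ (PrimrecPred.and ?_ (PrimrecPred.and ?_ (PrimrecPred.not ?_)))
    · exact pball (by (repeat' (first | with_reducible exact prid | with_reducible refine prfst ?_ | with_reducible refine prsnd ?_ | with_reducible refine prpair ?_ ?_ | with_reducible exact prconst _))) (pmem (by (repeat' (first | with_reducible exact prid | with_reducible refine prfst ?_ | with_reducible refine prsnd ?_ | with_reducible refine prpair ?_ ?_ | with_reducible exact prconst _))) (hL.comp (Primrec.fst.comp Primrec.fst)))
    · exact pball (by (repeat' (first | with_reducible exact prid | with_reducible refine prfst ?_ | with_reducible refine prsnd ?_ | with_reducible refine prpair ?_ ?_ | with_reducible exact prconst _))) (pmem (by (repeat' (first | with_reducible exact prid | with_reducible refine prfst ?_ | with_reducible refine prsnd ?_ | with_reducible refine prpair ?_ ?_ | with_reducible exact prconst _))) (hL.comp (Primrec.fst.comp Primrec.fst)))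
    · exact prim_ev hτ (m1 _ (by (repeat' (first | with_reducible exact prid | with_reducible refine prfst ?_ | with_reducible refine prsnd ?_ | with_reducible refine prpair ?_ ?_ | with_reducible exact prconst _)))) (m1 _ (by (repeat' (first | with_reducible exact prid | with_reducible refine prfst ?_ | with_reducible refine prsnd ?_ | with_reducible refine prpair ?_ ?_ | with_reducible exact prconst _))))
    · exact prim_ev hτ (m2 _ (by (repeat' (first | with_reducible exact prid | with_reducible refine prfst ?_ | with_reducible refine prsnd ?_ | with_reducible refine prpair ?_ ?_ | with_reducible exact prconst _)))) (m2 _ (by (repeat' (first | with_reducible exact prid | with_reducible refine prfst ?_ | with_reducible refine prsnd ?_ | with_reducible refine prpair ?_ ?_ | with_reducible exact prconst _))))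
  have k1 : ∀ (L l : List (Word n × Word n)), (∀ p ∈ l, p ∈ L) →
      (ev g (l.map Prod.fst).flatten, ev g (l.map Prod.snd).flatten) ∈ KK g L := by
    intro L l
    induction l with
    | nil => exact fun _ => one_mem _
    | cons p l ih =>
      intro h
      rw [List.map_cons, List.map_cons, List.flatten_cons, List.flatten_cons, ev_append, ev_append]
      have h2 : (ev g p.1, ev g p.2) ∈ KK g L := Submonoid.subset_closure ⟨p, h p List.mem_cons_self, rfl⟩
      exact mul_mem h2 (ih fun q hq => h q (List.mem_cons_of_mem _ hq))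
  have k2 : ∀ (L : List (Word n × Word n)) (z : G × G), z ∈ KK g L → ∃ l : List (Word n × Word n),
      (∀ p ∈ l, p ∈ L) ∧ z = (ev g (l.map Prod.fst).flatten, ev g (l.map Prod.snd).flatten) := by
    intro L z hz
    unfold KK at hz
    induction hz using Submonoid.closure_induction with
    | mem z hz =>
      obtain ⟨p, hp, rfl⟩ := hz
      exact ⟨[p], by simpa using hp, by simp⟩
    | one => exact ⟨[], by simp, rfl⟩
    | mul x y _ _ hx hy =>
      obtain ⟨l, h1, rfl⟩ := hx
      obtain ⟨l', h1', rfl⟩ := hy
      refine ⟨l ++ l', fun u hu => ?_, by simp [ev_append]⟩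
      rcases List.mem_append.1 hu with hu | hu
      · exact h1 u hu
      · exact h1' u hu
  refine h1.of_eq fun a => ?_
  constructor
  · rintro ⟨l, h1, h2, h3, h4⟩ h
    rw [ok_fl_iff_KK] at h
    have k3 := k1 (L a) l.1 h1
    have k4 := k1 (L a) l.2 h2
    rw [h3] at k3
    exact h4 (h _ _ _ k3 k4)
  · intro h
    by_contra hc
    push Not at hc
    apply h
    rw [ok_fl_iff_KK]
    intro x y y' hy hy'
    obtain ⟨l, h2, h3⟩ := k2 _ _ hy
    obtain ⟨l', h2', h3'⟩ := k2 _ _ hy'
    simp only [Prod.mk.injEq] at h3 h3'
    rw [h3.2, h3'.2]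
    exact hc (l, l') h2 h2' (h3.1.symm.trans h3'.1)

theorem prim_swap {L : α → List (Word n × Word n)} (hL : Primrec L) :
    Primrec fun a => (L a).map Prod.swap := by
  refine Primrec.list_map (g := fun (_ : α) (p : Word n × Word n) => p.swap) hL ?_
  change Primrec fun x : α × (Word n × Word n) => (x.2.2, x.2.1)
  (repeat' (first | with_reducible exact prid | with_reducible refine prfst ?_ | with_reducible refine prsnd ?_ | with_reducible refine prpair ?_ ?_ | with_reducible exact prconst _))

/-- the isomorphism problem is recursively enumerable -/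
theorem sig_iso (hg : Subgroup.closure (Set.range g) = ⊤) (hτ : τ.Spec g) {S T : α → List (Word n)}
    (hS : Primrec S) (hT : Primrec T) : Sig fun a => Nonempty (Mon g (S a) ≃* Mon g (T a)) := by
  refine Sig.of_eq ?_ fun a => (iso_iff hg (S a) (T a)).symm
  refine Sig.ex (p := fun a (L : List (Word n × Word n)) =>
      (∀ p ∈ L, ev g p.1 ∈ Mon g (S a) ∧ ev g p.2 ∈ Mon g (T a)) ∧ (∀ s ∈ S a, ∃ p ∈ L, ev g p.1 = ev g s) ∧
      (∀ t ∈ T a, ∃ p ∈ L, ev g p.2 = ev g t) ∧ OK g (fl L) 0 0 0 0 True ∧
      OK g (fl (L.map Prod.swap)) 0 0 0 0 True) ?_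
  refine Sig.and ?_ (Sig.and (Sig.of_prim ?_) (Sig.and (Sig.of_prim ?_) (Sig.and
    (sig_ok_fl hg hτ Primrec.snd) (sig_ok_fl hg hτ (prim_swap Primrec.snd)))))
  · exact Sig.ball (by (repeat' (first | with_reducible exact prid | with_reducible refine prfst ?_ | with_reducible refine prsnd ?_ | with_reducible refine prpair ?_ ?_ | with_reducible exact prconst _))) (Sig.and (sig_mem hτ (hS.comp (Primrec.fst.comp Primrec.fst)) (by (repeat' (first | with_reducible exact prid | with_reducible refine prfst ?_ | with_reducible refine prsnd ?_ | with_reducible refine prpair ?_ ?_ | with_reducible exact prconst _))))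
      (sig_mem hτ (hT.comp (Primrec.fst.comp Primrec.fst)) (by (repeat' (first | with_reducible exact prid | with_reducible refine prfst ?_ | with_reducible refine prsnd ?_ | with_reducible refine prpair ?_ ?_ | with_reducible exact prconst _)))))
  · exact pball (hS.comp Primrec.fst) (pbex (by (repeat' (first | with_reducible exact prid | with_reducible refine prfst ?_ | with_reducible refine prsnd ?_ | with_reducible refine prpair ?_ ?_ | with_reducible exact prconst _))) (prim_ev hτ (by (repeat' (first | with_reducible exact prid | with_reducible refine prfst ?_ | with_reducible refine prsnd ?_ | with_reducible refine prpair ?_ ?_ | with_reducible exact prconst _))) (by (repeat' (first | with_reducible exact prid | with_reducible refine prfst ?_ | with_reducible refine prsnd ?_ | with_reducible refine prpair ?_ ?_ | with_reducible exact prconst _)))))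
  · exact pball (hT.comp Primrec.fst) (pbex (by (repeat' (first | with_reducible exact prid | with_reducible refine prfst ?_ | with_reducible refine prsnd ?_ | with_reducible refine prpair ?_ ?_ | with_reducible exact prconst _))) (prim_ev hτ (by (repeat' (first | with_reducible exact prid | with_reducible refine prfst ?_ | with_reducible refine prsnd ?_ | with_reducible refine prpair ?_ ?_ | with_reducible exact prconst _))) (by (repeat' (first | with_reducible exact prid | with_reducible refine prfst ?_ | with_reducible refine prsnd ?_ | with_reducible refine prpair ?_ ?_ | with_reducible exact prconst _)))))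

end

end Pool.MP_247aa4_al
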