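import Pool.Agent.Lib_MP_247aa4.Defs
import Pool.Agent.Lib_MP_247aa4.Graph

/-!
# MP_247aa4_al: a transducer from words to a free group

Reading a word, the transducer remembers the coset of a free subgroup of finite index and writes
Schreier elements in a basis.
-/

set_option autoImplicit false

namespace Pool.MP_247aa4_al

/-- a transducer -/
structure Tdc (n : ℕ) where
  m : ℕ
  act : Fin m → Fin n × Bool → Fin m
  out : Fin m → Fin n × Bool → List Ltr
  c0 : Fin m

/-- the state after reading a word -/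
def Tdc.run {n : ℕ} (τ : Tdc n) : Fin τ.m → Word n → Fin τ.m
  | c, [] => c
  | c, a :: w => τ.run (τ.act c a) w

/-- the output -/
def Tdc.outl {n : ℕ} (τ : Tdc n) : Fin τ.m → Word n → List Ltr
  | _, [] => []
  | c, a :: w => τ.out c a ++ τ.outl (τ.act c a) w

theorem Tdc.run_append {n : ℕ} (τ : Tdc n) (c : Fin τ.m) (u v : Word n) :
    τ.run c (u ++ v) = τ.run (τ.run c u) v := by
  induction u generalizing c with
  | nil => rfl
  | cons a u ih => exact ih _

theorem Tdc.outl_append {n : ℕ} (τ : Tdc n) (c : Fin τ.m) (u v : Word n) :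
    τ.outl c (u ++ v) = τ.outl c u ++ τ.outl (τ.run c u) v := by
  induction u generalizing c with
  | nil => rfl
  | cons a u ih =>
    change τ.out c a ++ τ.outl (τ.act c a) (u ++ v) =
      τ.out c a ++ τ.outl (τ.act c a) u ++ τ.outl (τ.run (τ.act c a) u) v
    rw [ih, List.append_assoc]

/-- the transducer decides equality of the values -/
def Tdc.Spec {G : Type} [Group G] {n : ℕ} (g : Fin n → G) (τ : Tdc n) : Prop :=
  ∀ w w' : Word n, ev g w = ev g w' ↔
    τ.run τ.c0 w = τ.run τ.c0 w' ∧
      FreeGroup.mk (τ.outl τ.c0 w) = FreeGroup.mk (τ.outl τ.c0 w')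

section

variable {G : Type} [Group G] (H : Subgroup G)

/-- Schreier element -/
private noncomputable def sch (q : G ⧸ H) (x : G) : G := (Quotient.out q)⁻¹ * x * Quotient.out (x⁻¹ • q)

private theorem sch_mem (q : G ⧸ H) (x : G) : sch H q x ∈ H := by
  have h1 : ((x⁻¹ * Quotient.out q : G) : G ⧸ H) = ((Quotient.out (x⁻¹ • q) : G) : G ⧸ H) := by
    have h2 : ((Quotient.out (x⁻¹ • q) : G) : G ⧸ H) = x⁻¹ • q := QuotientGroup.out_eq' _
    have h3 : ((Quotient.out q : G) : G ⧸ H) = q := QuotientGroup.out_eq' _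
    rw [h2]
    conv_rhs => rw [← h3]
    rfl
  rw [QuotientGroup.eq] at h1
  rw [mul_inv_rev, inv_inv] at h1
  exact h1

private theorem sch_mul (q : G ⧸ H) (x y : G) :
    sch H q (x * y) = sch H q x * sch H (x⁻¹ • q) y := by
  unfold sch
  rw [mul_inv_rev, mul_smul]
  group

private theorem ev_eq_sch (q : G ⧸ H) (x : G) :
    x = Quotient.out q * sch H q x * (Quotient.out (x⁻¹ • q))⁻¹ := by
  unfold sch
  group

end

/-- a map which is injective on a finite set of letters is injective on the words over it -/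
private theorem mk_map_inj {ι : Type} (J : Set ι) (f : ι → ℕ) (hf : Set.InjOn f J)
    (L L' : List (ι × Bool)) (hL : ∀ p ∈ L, p.1 ∈ J) (hL' : ∀ p ∈ L', p.1 ∈ J)
    (h : FreeGroup.mk (L.map fun p => (f p.1, p.2)) = FreeGroup.mk (L'.map fun p => (f p.1, p.2))) :
    FreeGroup.mk L = FreeGroup.mk L' := by
  rcases isEmpty_or_nonempty ι with hι | hι
  · have h1 : ∀ M : List (ι × Bool), M = [] := by
      intro M
      cases M with
      | nil => rfl
      | cons a _ => exact hι.elim a.1
    rw [h1 L, h1 L']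
  · have h1 : ∀ M : List (ι × Bool), (∀ p ∈ M, p.1 ∈ J) →
        FreeGroup.map (Function.invFunOn f J) (FreeGroup.mk (M.map fun p => (f p.1, p.2))) =
          FreeGroup.mk M := by
      intro M hM
      rw [FreeGroup.map.mk, List.map_map]
      congr 1
      have h2 : M.map ((fun x : ℕ × Bool => (Function.invFunOn f J x.1, x.2)) ∘
          fun p => (f p.1, p.2)) = M.map id := by
        apply List.map_congr_left
        intro p hp
        simp only [Function.comp_apply, id]
        rw [hf.leftInvOn_invFunOn (hM p hp)]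
      rw [List.map_id] at h2
      exact h2
    rw [← h1 L hL, ← h1 L' hL', h]

private theorem exists_core {G : Type} [Group G] (H : Subgroup G) (hfi : H.FiniteIndex)
    (hfree : IsFreeGroup H) {n : ℕ} (g : Fin n → G) : ∃ τ : Tdc n, τ.Spec g ∧ τ.m = H.index := by
  classical
  have : Finite (G ⧸ H) := inferInstance
  let e : (G ⧸ H) ≃ Fin (Nat.card (G ⧸ H)) := Finite.equivFin (G ⧸ H)
  let φ := IsFreeGroup.toFreeGroup H
  let val : Fin n × Bool → G := fun a => if a.2 then g a.1 else (g a.1)⁻¹
  let hh : (G ⧸ H) → G → H := fun q x => ⟨sch H q x, sch_mem H q x⟩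
  let ow : (G ⧸ H) → Fin n × Bool → List (IsFreeGroup.Generators H × Bool) :=
    fun q a => (φ (hh q (val a))).toWord
  let J : Set (IsFreeGroup.Generators H) := {j | ∃ (q : G ⧸ H) (a : Fin n × Bool), ∃ p ∈ ow q a, p.1 = j}
  have hJ : J.Finite := by
    have h1 : J = ⋃ (x : (G ⧸ H) × (Fin n × Bool)), {j | ∃ p ∈ ow x.1 x.2, p.1 = j} := by
      ext j
      simp only [J, Set.mem_ofPred_eq, Set.mem_iUnion, Prod.exists]
    rw [h1]
    refine Set.finite_iUnion fun x => ?_
    have h2 : {j | ∃ p ∈ ow x.1 x.2, p.1 = j} = Prod.fst '' {p | p ∈ ow x.1 x.2} := rfl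
    rw [h2]
    exact (List.finite_toSet _).image _
  obtain ⟨f, hf⟩ := Set.countable_iff_exists_injOn.1 hJ.countable
  let τ : Tdc n :=
    { m := Nat.card (G ⧸ H)
      act := fun c a => e ((val a)⁻¹ • e.symm c)
      out := fun c a => (ow (e.symm c) a).map fun p => (f p.1, p.2)
      c0 := e ((1 : G) : G ⧸ H) }
  have hrun : ∀ (w : Word n) (c : Fin τ.m), e.symm (τ.run c w) = (ev g w)⁻¹ • e.symm c := by
    intro w
    induction w with
    | nil =>
      intro c
      rw [ev_nil, inv_one, one_smul]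
      rfl
    | cons a w ih =>
      intro c
      rw [ev_cons, mul_inv_rev, mul_smul]
      change e.symm (τ.run (τ.act c a) w) = _
      rw [ih]
      change _ • e.symm (e ((val a)⁻¹ • e.symm c)) = _
      rw [Equiv.symm_apply_apply]
  have hout : ∀ (w : Word n) (c : Fin τ.m), ∃ L : List (IsFreeGroup.Generators H × Bool),
      (∀ p ∈ L, p.1 ∈ J) ∧ τ.outl c w = L.map (fun p => (f p.1, p.2)) ∧
        FreeGroup.mk L = φ (hh (e.symm c) (ev g w)) := by
    intro w
    induction w with
    | nil =>
      intro c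
      refine ⟨[], fun p hp => absurd hp List.not_mem_nil, rfl, ?_⟩
      have h1 : hh (e.symm c) (ev g []) = 1 := by
        apply Subtype.ext
        change sch H (e.symm c) (ev g []) = 1
        unfold sch
        rw [ev_nil, inv_one, one_smul]
        group
      rw [h1, map_one]
      rfl
    | cons a w ih =>
      intro c
      obtain ⟨L, hL, hL2, hL3⟩ := ih (τ.act c a)
      refine ⟨ow (e.symm c) a ++ L, ?_, ?_, ?_⟩
      · intro p hp
        rcases List.mem_append.1 hp with hp | hp
        · exact ⟨e.symm c, a, p, hp, rfl⟩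
        · exact hL p hp
      · rw [List.map_append, ← hL2]
        rfl
      · rw [← FreeGroup.mul_mk, hL3]
        have h1 : FreeGroup.mk (ow (e.symm c) a) = φ (hh (e.symm c) (val a)) := FreeGroup.mk_toWord
        rw [h1, ← map_mul]
        congr 1
        apply Subtype.ext
        change sch H (e.symm c) (val a) * sch H (e.symm (τ.act c a)) (ev g w) =
          sch H (e.symm c) (ev g (a :: w))
        rw [ev_cons, sch_mul]
        congr 2
        change e.symm (e ((val a)⁻¹ • e.symm c)) = _
        rw [Equiv.symm_apply_apply]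
  refine ⟨τ, ?_, rfl⟩
  intro w w'
  obtain ⟨L, hL, hL2, hL3⟩ := hout w τ.c0
  obtain ⟨L', hL', hL2', hL3'⟩ := hout w' τ.c0
  constructor
  · intro h
    constructor
    · apply e.symm.injective
      rw [hrun, hrun, h]
    · rw [hL2, hL2']
      have h1 : FreeGroup.mk L = FreeGroup.mk L' := by rw [hL3, hL3', h]
      have h2 := congrArg (FreeGroup.map f) h1
      rwa [FreeGroup.map.mk, FreeGroup.map.mk] at h2
  · rintro ⟨h1, h2⟩
    rw [hL2, hL2'] at h2
    have h3 := mk_map_inj J f hf L L' hL hL' h2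
    rw [hL3, hL3'] at h3
    have h4 := congrArg Subtype.val (φ.injective h3)
    have h5 : sch H (e.symm τ.c0) (ev g w) = sch H (e.symm τ.c0) (ev g w') := h4
    have h6 : (ev g w)⁻¹ • e.symm τ.c0 = (ev g w')⁻¹ • e.symm τ.c0 := by
      rw [← hrun, ← hrun, h1]
    rw [ev_eq_sch H (e.symm τ.c0) (ev g w), ev_eq_sch H (e.symm τ.c0) (ev g w'), h5, h6]

private theorem card_le {G : Type} [Group G] (H : Subgroup G) (hfi : H.FiniteIndex)
    (hfree : IsFreeGroup H) (K : Subgroup G) (hK : Finite K) : Nat.card K ≤ H.index := by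
  have : Finite (G ⧸ H) := inferInstance
  have h1 : Function.Injective (fun k : K => ((k : G) : G ⧸ H)) := by
    intro a b hab
    have h2 : (a : G)⁻¹ * b ∈ H := QuotientGroup.eq.1 hab
    have h3 : IsOfFinOrder (a⁻¹ * b) := isOfFinOrder_of_finite _
    have h4 : IsOfFinOrder ((a : G)⁻¹ * b) := K.subtype.isOfFinOrder h3
    have h5 : IsOfFinOrder (⟨(a : G)⁻¹ * b, h2⟩ : H) := by
      rw [← H.subtype_injective.isOfFinOrder_iff (f := H.subtype)]
      exact h4
    have h6 : IsOfFinOrder (IsFreeGroup.toFreeGroup H ⟨(a : G)⁻¹ * b, h2⟩) :=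
      (IsFreeGroup.toFreeGroup H).toMonoidHom.isOfFinOrder h5
    have h7 : IsFreeGroup.toFreeGroup H ⟨(a : G)⁻¹ * b, h2⟩ = 1 := (isOfFinOrder_iff_eq_one _).1 h6
    have h8 : (⟨(a : G)⁻¹ * b, h2⟩ : H) = 1 := by
      apply (IsFreeGroup.toFreeGroup H).injective
      rw [h7, map_one]
    have h9 : (a : G)⁻¹ * b = 1 := congrArg Subtype.val h8
    exact Subtype.ext (inv_mul_eq_one.1 h9)
  exact Nat.card_le_card_of_injective _ h1

/-- every finitely generated virtually free group has a transducer, whose number of states bounds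
the order of the finite subgroups -/
theorem exists_tdc {G : Type} [Group G] (hG : VirtuallyFree G) {n : ℕ} (g : Fin n → G) :
    ∃ τ : Tdc n, τ.Spec g ∧ ∀ K : Subgroup G, Finite K → Nat.card K ≤ τ.m := by
  obtain ⟨H, hfi, hfree⟩ := hG
  obtain ⟨τ, h1, h2⟩ := exists_core H hfi hfree g
  exact ⟨τ, h1, fun K hK => h2 ▸ card_le H hfi hfree K hK⟩

end Pool.MP_247aa4_al
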