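import Pool.Agent.Lib_MP_247aa4.Flower

/-!
# MP_247aa4_al: membership, units and irreducible elements
-/

set_option autoImplicit false

namespace Pool.MP_247aa4_al

section

variable {G : Type} [Group G] {n : ℕ} {g : Fin n → G}

/-- the automaton: state `0` reads `w`, state `4` reads all elements, states `2`, `3` expect two or
one more letters of `N` -/
def Ti (S N : List (Word n)) (w : Word n) : List (Tr n) :=
  (0, w, [], 1) :: (S.map (fun s => (2, s, [], 2)) ++ (N.map (fun s => (2, s, [], 3)) ++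
    (S.map (fun s => (3, s, [], 3)) ++ (N.map (fun s => (3, s, [], 4)) ++ S.map (fun s => (4, s, [], 4))))))

theorem mem_Ti (S N : List (Word n)) (w : Word n) (t : Tr n) : t ∈ Ti S N w ↔
    t = (0, w, [], 1) ∨ (∃ s ∈ S, t = (2, s, [], 2)) ∨ (∃ s ∈ N, t = (2, s, [], 3)) ∨
      (∃ s ∈ S, t = (3, s, [], 3)) ∨ (∃ s ∈ N, t = (3, s, [], 4)) ∨ ∃ s ∈ S, t = (4, s, [], 4) := by
  unfold Ti
  simp only [List.mem_cons, List.mem_append, List.mem_map, eq_comm]

theorem Ti_out (S N : List (Word n)) (w : Word n) : ∀ t ∈ Ti S N w, t.2.2.1 = [] := by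
  intro t ht
  rw [mem_Ti] at ht
  rcases ht with rfl | ⟨s, _, rfl⟩ | ⟨s, _, rfl⟩ | ⟨s, _, rfl⟩ | ⟨s, _, rfl⟩ | ⟨s, _, rfl⟩ <;> rfl

private theorem run_one {S N : List (Word n)} {w : Word n} {q q' : ℕ} {W : Word n} {o : G}
    (h : RunW g (Ti S N w) q W o q') (hq : q = 1) : W = [] := by
  cases h with
  | nil q => rfl
  | cons ht _ =>
    subst hq
    rw [mem_Ti] at ht
    rcases ht with h | ⟨s, _, h⟩ | ⟨s, _, h⟩ | ⟨s, _, h⟩ | ⟨s, _, h⟩ | ⟨s, _, h⟩ <;> simp at h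

private theorem run_zero {S N : List (Word n)} {w : Word n} {q q' : ℕ} {W : Word n} {o : G}
    (h : RunW g (Ti S N w) q W o q') (hq : q = 0) (hq' : q' = 1) : W = w := by
  cases h with
  | nil q => omega
  | cons ht hr =>
    subst hq
    rw [mem_Ti] at ht
    rcases ht with h | ⟨s, _, h⟩ | ⟨s, _, h⟩ | ⟨s, _, h⟩ | ⟨s, _, h⟩ | ⟨s, _, h⟩
    · simp only [Prod.mk.injEq, true_and] at h
      obtain ⟨rfl, _, h3⟩ := h
      rw [run_one hr h3, List.append_nil]
    all_goals simp at h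

private theorem run_sem {S N : List (Word n)} {w : Word n} {q q' : ℕ} {W : Word n} {o : G}
    (h : RunW g (Ti S N w) q W o q') (hq' : q' = 4) :
    (q = 4 → ev g W ∈ Mon g S) ∧
    (q = 3 → ∃ a ∈ Mon g S, ∃ s ∈ N, ∃ b ∈ Mon g S, ev g W = a * ev g s * b) ∧
    (q = 2 → ∃ a ∈ Mon g S, ∃ s ∈ N, ∃ b ∈ Mon g S, ∃ s' ∈ N, ∃ c ∈ Mon g S,
      ev g W = a * ev g s * b * ev g s' * c) := by
  induction h with
  | nil q =>
    subst hq'
    exact ⟨fun _ => one_mem _, fun h => by omega, fun h => by omega⟩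
  | @cons q q1 q2 v t W o ht _ ih =>
    obtain ⟨h4, h3, h2⟩ := ih hq'
    rw [mem_Ti] at ht
    rcases ht with h | ⟨s, hs, h⟩ | ⟨s, hs, h⟩ | ⟨s, hs, h⟩ | ⟨s, hs, h⟩ | ⟨s, hs, h⟩ <;>
      simp only [Prod.mk.injEq] at h <;> obtain ⟨rfl, rfl, rfl, rfl⟩ := h <;>
      rw [ev_append]
    · exact ⟨fun h => by omega, fun h => by omega, fun h => by omega⟩
    · refine ⟨fun h => by omega, fun h => by omega, fun _ => ?_⟩
      obtain ⟨a, ha, u, hu, b, hb, u', hu', c, hc, he⟩ := h2 rfl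
      exact ⟨ev g v * a, mul_mem (mem_Mon hs) ha, u, hu, b, hb, u', hu', c, hc, by rw [he]; group⟩
    · refine ⟨fun h => by omega, fun h => by omega, fun _ => ?_⟩
      obtain ⟨a, ha, u, hu, b, hb, he⟩ := h3 rfl
      exact ⟨1, one_mem _, v, hs, a, ha, u, hu, b, hb, by rw [he]; group⟩
    · refine ⟨fun h => by omega, fun _ => ?_, fun h => by omega⟩
      obtain ⟨a, ha, u, hu, b, hb, he⟩ := h3 rfl
      exact ⟨ev g v * a, mul_mem (mem_Mon hs) ha, u, hu, b, hb, by rw [he]; group⟩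
    · refine ⟨fun h => by omega, fun _ => ?_, fun h => by omega⟩
      exact ⟨1, one_mem _, v, hs, ev g W, h4 rfl, by group⟩
    · exact ⟨fun _ => mul_mem (mem_Mon hs) (h4 rfl), fun h => by omega, fun h => by omega⟩

private theorem run_loop {T : List (Tr n)} {S : List (Word n)} {q : ℕ}
    (hT : ∀ s ∈ S, ((q, s, [], q) : Tr n) ∈ T) {x : G} (hx : x ∈ Mon g S) :
    ∃ W o, RunW g T q W o q ∧ ev g W = x := by
  unfold Mon at hx
  induction hx using Submonoid.closure_induction with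
  | mem x hx =>
    obtain ⟨w, hw, rfl⟩ := hx
    exact ⟨w, _, RunW.single (hT w hw), rfl⟩
  | one => exact ⟨[], 1, RunW.nil q, rfl⟩
  | mul x y _ _ hx hy =>
    obtain ⟨W, o, h1, h2⟩ := hx
    obtain ⟨W', o', h1', h2'⟩ := hy
    exact ⟨W ++ W', _, h1.append h1', by rw [ev_append, h2, h2']⟩

/-- nonmembership -/
theorem ok_nmem_iff (S N : List (Word n)) (w : Word n) :
    OK g (Ti S N w) 0 4 1 4 False ↔ ev g w ∉ Mon g S := by
  constructor
  · intro h hw
    obtain ⟨W, o, h1, h2⟩ := run_loop (T := Ti S N w) (q := 4)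
      (fun s hs => (mem_Ti S N w _).2 (by simp [hs])) hw
    exact (h w W _ o (RunW.single ((mem_Ti S N w (0, w, [], 1)).2 (Or.inl rfl))) h1 h2.symm).1
  · intro h W W' o o' hW hW' he
    rw [run_zero hW rfl rfl] at he
    exact absurd (he ▸ (run_sem hW' rfl).1 rfl) h

/-- no factorization with two letters of `N` -/
theorem ok_two_iff (S N : List (Word n)) (w : Word n) :
    OK g (Ti S N w) 0 2 1 4 False ↔ ¬ ∃ a ∈ Mon g S, ∃ s ∈ N, ∃ b ∈ Mon g S, ∃ s' ∈ N, ∃ c ∈ Mon g S,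
      ev g w = a * ev g s * b * ev g s' * c := by
  constructor
  · rintro h ⟨a, ha, s, hs, b, hb, s', hs', c, hc, he⟩
    obtain ⟨W1, o1, h1, rfl⟩ := run_loop (T := Ti S N w) (q := 2)
      (fun s hs => (mem_Ti S N w _).2 (by simp [hs])) ha
    obtain ⟨W2, o2, h2, rfl⟩ := run_loop (T := Ti S N w) (q := 3)
      (fun s hs => (mem_Ti S N w _).2 (by simp [hs])) hb
    obtain ⟨W3, o3, h3, rfl⟩ := run_loop (T := Ti S N w) (q := 4)
      (fun s hs => (mem_Ti S N w _).2 (by simp [hs])) hc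
    have k1 : RunW g (Ti S N w) 2 s (ev g []) 3 := RunW.single ((mem_Ti S N w _).2 (by simp [hs]))
    have k2 : RunW g (Ti S N w) 3 s' (ev g []) 4 := RunW.single ((mem_Ti S N w _).2 (by simp [hs']))
    refine (h w _ _ _ (RunW.single ((mem_Ti S N w (0, w, [], 1)).2 (Or.inl rfl)))
      ((((h1.append k1).append h2).append k2).append h3) ?_).1
    rw [ev_append, ev_append, ev_append, ev_append, he]
  · intro h W W' o o' hW hW' he
    rw [run_zero hW rfl rfl] at he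
    exact absurd (he ▸ (run_sem hW' rfl).2.2 rfl) h

/-! ## units -/

/-- `x` is a unit of the submonoid -/
def Un (g : Fin n → G) (S : List (Word n)) (x : G) : Prop := x ∈ Mon g S ∧ x⁻¹ ∈ Mon g S

variable {S : List (Word n)}

theorem Un.one : Un g S 1 := ⟨one_mem _, by rw [inv_one]; exact one_mem _⟩

theorem Un.mul {x y : G} (hx : Un g S x) (hy : Un g S y) : Un g S (x * y) :=
  ⟨mul_mem hx.1 hy.1, by rw [mul_inv_rev]; exact mul_mem hy.2 hx.2⟩

theorem Un.inv {x : G} (hx : Un g S x) : Un g S x⁻¹ := ⟨hx.2, by rw [inv_inv]; exact hx.1⟩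

theorem Un.of_mul {x y : G} (hx : x ∈ Mon g S) (hy : y ∈ Mon g S) (h : Un g S (x * y)) :
    Un g S x ∧ Un g S y := by
  refine ⟨⟨hx, ?_⟩, ⟨hy, ?_⟩⟩
  · have h1 : x⁻¹ = y * (x * y)⁻¹ := by group
    rw [h1]
    exact mul_mem hy h.2
  · have h1 : y⁻¹ = (x * y)⁻¹ * x := by group
    rw [h1]
    exact mul_mem h.2 hx

theorem isUnit_iff (x : Mon g S) : IsUnit x ↔ Un g S (x : G) := by
  constructor
  · rintro ⟨u, rfl⟩
    refine ⟨Subtype.mem _, ?_⟩
    have h1 : ((u : Mon g S) : G) * ((u⁻¹ : (Mon g S)ˣ) : Mon g S) = 1 := by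
      rw [← Submonoid.coe_mul, Units.mul_inv, Submonoid.coe_one]
    rw [inv_eq_of_mul_eq_one_right h1]
    exact Subtype.mem _
  · intro h
    exact ⟨⟨x, ⟨(x : G)⁻¹, h.2⟩, Subtype.ext (mul_inv_cancel _), Subtype.ext (inv_mul_cancel _)⟩, rfl⟩

/-- `x` is an irreducible element of the submonoid -/
def Irr (g : Fin n → G) (S : List (Word n)) (x : G) : Prop :=
  x ∈ Mon g S ∧ ¬ Un g S x ∧ ∀ a ∈ Mon g S, ∀ b ∈ Mon g S, x = a * b → Un g S a ∨ Un g S b

theorem irreducible_iff' (x : Mon g S) : Irreducible x ↔ Irr g S (x : G) := by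
  rw [irreducible_iff, isUnit_iff]
  constructor
  · rintro ⟨h1, h2⟩
    refine ⟨Subtype.mem _, h1, fun a ha b hb he => ?_⟩
    have h3 := h2 (a := ⟨a, ha⟩) (b := ⟨b, hb⟩) (Subtype.ext he)
    rwa [isUnit_iff, isUnit_iff] at h3
  · rintro ⟨_, h1, h2⟩
    refine ⟨h1, fun {a b} he => ?_⟩
    rw [isUnit_iff, isUnit_iff]
    exact h2 a a.2 b b.2 (congrArg Subtype.val he)

theorem Irr.of_mul_unit {x u : G} (hx : x ∈ Mon g S) (hu : Un g S u) (h : Irr g S (x * u)) :
    Irr g S x := by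
  refine ⟨hx, fun h1 => h.2.1 (h1.mul hu), fun a ha b hb he => ?_⟩
  rcases h.2.2 a ha (b * u) (mul_mem hb hu.1) (by rw [he, mul_assoc]) with h1 | h1
  · exact Or.inl h1
  · exact Or.inr (Un.of_mul hb hu.1 h1).1

theorem Irr.of_unit_mul {x u : G} (hx : x ∈ Mon g S) (hu : Un g S u) (h : Irr g S (u * x)) :
    Irr g S x := by
  refine ⟨hx, fun h1 => h.2.1 (hu.mul h1), fun a ha b hb he => ?_⟩
  rcases h.2.2 (u * a) (mul_mem hu.1 ha) b hb (by rw [he, mul_assoc]) with h1 | h1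
  · exact Or.inl (Un.of_mul hu.1 ha h1).2
  · exact Or.inr h1

/-- every element is a unit or has a factor which is a nonunit letter -/
theorem un_or_factor {N : List (Word n)} (hN : ∀ s ∈ S, s ∈ N ∨ Un g S (ev g s)) {x : G}
    (hx : x ∈ Mon g S) : Un g S x ∨ ∃ a ∈ Mon g S, ∃ s ∈ N, ∃ b ∈ Mon g S, x = a * ev g s * b := by
  have hx' : x ∈ Submonoid.closure {x | ∃ w ∈ S, x = ev g w} := hx
  clear hx
  induction hx' using Submonoid.closure_induction with
  | mem x hx =>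
    obtain ⟨w, hw, rfl⟩ := hx
    rcases hN w hw with h | h
    · exact Or.inr ⟨1, one_mem _, w, h, 1, one_mem _, by group⟩
    · exact Or.inl h
  | one => exact Or.inl Un.one
  | mul x y hx hy ihx ihy =>
    have hx' : x ∈ Mon g S := hx
    have hy' : y ∈ Mon g S := hy
    rcases ihx with h | ⟨a, ha, s, hs, b, hb, he⟩
    · rcases ihy with h' | ⟨a, ha, s, hs, b, hb, he⟩
      · exact Or.inl (h.mul h')
      · exact Or.inr ⟨x * a, mul_mem hx' ha, s, hs, b, hb, by rw [he]; group⟩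
    · exact Or.inr ⟨a, ha, s, hs, b * y, mul_mem hb hy', by rw [he]; group⟩

private theorem nun_factor {a b x : G} (ha : a ∈ Mon g S) (hx : x ∈ Mon g S) (hb : b ∈ Mon g S)
    (h : ¬ Un g S x) : ¬ Un g S (a * x * b) := fun h1 =>
  h (Un.of_mul ha hx (Un.of_mul (mul_mem ha hx) hb h1).1).2

/-- irreducible elements and factorizations with two nonunit letters -/
theorem irr_iff {N : List (Word n)} (hN : ∀ s ∈ S, s ∈ N ∨ Un g S (ev g s))
    (hN' : ∀ s ∈ N, s ∈ S ∧ ¬ Un g S (ev g s)) (x : G) :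
    Irr g S x ↔ x ∈ Mon g S ∧ ¬ Un g S x ∧ ¬ ∃ a ∈ Mon g S, ∃ s ∈ N, ∃ b ∈ Mon g S, ∃ s' ∈ N,
      ∃ c ∈ Mon g S, x = a * ev g s * b * ev g s' * c := by
  constructor
  · rintro ⟨h1, h2, h3⟩
    refine ⟨h1, h2, ?_⟩
    rintro ⟨a, ha, s, hs, b, hb, s', hs', c, hc, he⟩
    have k1 : ¬ Un g S (a * ev g s * 1) := nun_factor ha (mem_Mon (hN' s hs).1) (one_mem _) (hN' s hs).2
    have k2 : ¬ Un g S (b * ev g s' * c) := nun_factor hb (mem_Mon (hN' s' hs').1) hc (hN' s' hs').2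
    rcases h3 (a * ev g s * 1) (mul_mem (mul_mem ha (mem_Mon (hN' s hs).1)) (one_mem _))
      (b * ev g s' * c) (mul_mem (mul_mem hb (mem_Mon (hN' s' hs').1)) hc) (by rw [he]; group) with h | h
    · exact k1 h
    · exact k2 h
  · rintro ⟨h1, h2, h3⟩
    refine ⟨h1, h2, fun a ha b hb he => ?_⟩
    rcases un_or_factor hN ha with h | ⟨a1, ha1, s, hs, a2, ha2, rfl⟩
    · exact Or.inl h
    · rcases un_or_factor hN hb with h | ⟨b1, hb1, s', hs', b2, hb2, rfl⟩
      · exact Or.inr h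
      · exact absurd ⟨a1, ha1, s, hs, a2 * b1, mul_mem ha2 hb1, s', hs', b2, hb2, by rw [he]; group⟩ h3

/-- units and irreducible elements are products of unit and irreducible letters -/
theorem mem_of_un_or_irr {C : Submonoid G} (hC : ∀ s ∈ S, (Un g S (ev g s) ∨ Irr g S (ev g s)) → ev g s ∈ C)
    {x : G} (hx : x ∈ Mon g S) : (Un g S x ∨ Irr g S x) → x ∈ C := by
  have hx' : x ∈ Submonoid.closure {x | ∃ w ∈ S, x = ev g w} := hx
  clear hx
  induction hx' using Submonoid.closure_induction_right with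
  | one => exact fun _ => one_mem _
  | mul_right x hx y hy ih =>
    obtain ⟨s, hs, rfl⟩ := hy
    have hx' : x ∈ Mon g S := hx
    rintro (h | h)
    · obtain ⟨h1, h2⟩ := Un.of_mul hx' (mem_Mon hs) h
      exact mul_mem (ih (Or.inl h1)) (hC s hs (Or.inl h2))
    · rcases h.2.2 x hx' _ (mem_Mon hs) rfl with h1 | h1
      · exact mul_mem (ih (Or.inl h1)) (hC s hs (Or.inr (Irr.of_unit_mul (mem_Mon hs) h1 h)))
      · exact mul_mem (ih (Or.inr (Irr.of_mul_unit hx' h1 h))) (hC s hs (Or.inl h1))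

/-- an irreducible element is a letter up to units -/
theorem irr_letter {x : G} (hx : x ∈ Mon g S) : Irr g S x →
    ∃ u, Un g S u ∧ ∃ s ∈ S, ∃ v, Un g S v ∧ x = u * ev g s * v := by
  have hx' : x ∈ Submonoid.closure {x | ∃ w ∈ S, x = ev g w} := hx
  clear hx
  induction hx' using Submonoid.closure_induction_right with
  | one => exact fun h => absurd Un.one h.2.1
  | mul_right x hx y hy ih =>
    obtain ⟨s, hs, rfl⟩ := hy
    have hx' : x ∈ Mon g S := hx
    intro h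
    rcases h.2.2 x hx' _ (mem_Mon hs) rfl with h1 | h1
    · exact ⟨x, h1, s, hs, 1, Un.one, by group⟩
    · obtain ⟨u, hu, s', hs', v, hv, he⟩ := ih (Irr.of_mul_unit hx' h1 h)
      exact ⟨u, hu, s', hs', v * ev g s, hv.mul h1, by rw [he]; group⟩

end

end Pool.MP_247aa4_al
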